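import Pool.Agent.H.MP_0e6b5f_nt.H52.AvgMain

/-!
# The average over all the coefficients
-/

namespace Pool.Agent.H.MP_0e6b5f_nt.H52

open Polynomial Module Finset Function Filter Topology

section

variable {K : Type*} [Field K] [NumberField K] {J : Type*} [Fintype J]

theorem comb_eq (b : Basis J ℚ K) (y : J → ℚ) : comb b y = ∑ j, y j • b j := by
  unfold comb
  exact Finset.sum_congr rfl fun j _ => by rw [Rat.smul_def]

theorem repr_comb (b : Basis J ℚ K) (y : J → ℚ) (j : J) : b.repr (comb b y) j = y j := by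
  rw [comb_eq, b.repr_sum_self]

theorem comb_repr (b : Basis J ℚ K) (z : K) : comb b (fun j => b.repr z j) = z := by
  rw [comb_eq, b.sum_repr]

theorem entry_injective (b : Basis J ℚ K) {d : ℕ} :
    Injective (fun x : Fin (d + 2) × J → ℚ => entry b x) := by
  intro x y h
  replace h : entry b x = entry b y := h
  funext ij
  have h1 := congrFun h ij.1
  have h2 : b.repr (entry b x ij.1) ij.2 = b.repr (entry b y ij.1) ij.2 := by
    rw [h1]
  unfold entry at h2
  rwa [repr_comb, repr_comb] at h2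

open Classical in
theorem coefBox_filter (b : Basis J ℚ K) (d H : ℕ) (q : (Fin (d + 2) → K) → Prop) :
    {c ∈ coefBox b d H | q c} = (fun x : Fin (d + 2) × J → ℚ => entry b x) ''
      (((cube (Fin (d + 2) × J) (ratFin H)).filter (fun x => q (entry b x)) :
        Finset (Fin (d + 2) × J → ℚ)) : Set (Fin (d + 2) × J → ℚ)) := by
  ext c
  constructor
  · rintro ⟨hc, hq⟩
    have he : entry b (fun ij : Fin (d + 2) × J => b.repr (c ij.1) ij.2) = c := by
      funext i
      unfold entry
      exact comb_repr b (c i)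
    refine ⟨fun ij => b.repr (c ij.1) ij.2, ?_, he⟩
    rw [mem_coe, mem_filter, mem_cube, he]
    exact ⟨fun ij => mem_ratFin.mpr (hc ij.1 ij.2), hq⟩
  · rintro ⟨x, hx, rfl⟩
    rw [mem_coe, mem_filter, mem_cube] at hx
    refine ⟨fun i j => ?_, hx.2⟩
    show b.repr (entry b x i) j ∈ ratBox H
    unfold entry
    rw [repr_comb]
    exact mem_ratFin.mp (hx.1 (i, j))

open Classical in
theorem coefBox_filter_ncard (b : Basis J ℚ K) (d H : ℕ) (q : (Fin (d + 2) → K) → Prop) :
    ({c ∈ coefBox b d H | q c}).ncard =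
      ((cube (Fin (d + 2) × J) (ratFin H)).filter (fun x => q (entry b x))).card := by
  rw [coefBox_filter, Set.ncard_image_of_injective _ (entry_injective b), Set.ncard_coe_finset]

open Classical in
theorem coefBox_ncard (b : Basis J ℚ K) (d H : ℕ) :
    (coefBox b d H).ncard = (cube (Fin (d + 2) × J) (ratFin H)).card := by
  have h := coefBox_filter_ncard b d H (fun _ => True)
  simpa using h

theorem avg_density (b : Basis J ℚ K) (d B : ℕ) (hd : 2 ≤ d) :
    Tendsto (fun H : ℕ => (({c ∈ coefBox b d H | c (Fin.castSucc (Fin.last d)) ≠ 0 ∧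
      c (Fin.last (d + 1)) ≠ 0 ∧ ¬ FewPeriodic B c}).ncard : ℝ) / ((coefBox b d H).ncard : ℝ))
      atTop (𝓝 0) := by
  classical
  rw [Metric.tendsto_atTop]
  intro ε hε
  obtain ⟨H₀, hH₀⟩ := avg_main b d B hd (show 0 < ε / 2 by positivity)
  refine ⟨max H₀ 1, fun H hH => ?_⟩
  have h1 := hH₀ H ((le_max_left _ _).trans hH)
  have hpos : 0 < ((cube (Fin (d + 2) × J) (ratFin H)).card : ℝ) := by
    have h0 : (0 : ℚ) ∈ ratFin H := by
      rw [mem_ratFin]
      simp only [Rat.num_ofNat, abs_zero, Rat.den_ofNat]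
      exact ⟨by positivity, (le_max_right _ _).trans hH⟩
    have : 0 < (cube (Fin (d + 2) × J) (ratFin H)).card :=
      card_pos.mpr ⟨fun _ => 0, mem_cube.mpr fun _ => h0⟩
    exact_mod_cast this
  have h2 : ({c ∈ coefBox b d H | c (Fin.castSucc (Fin.last d)) ≠ 0 ∧
      c (Fin.last (d + 1)) ≠ 0 ∧ ¬ FewPeriodic B c}).ncard =
      ((cube (Fin (d + 2) × J) (ratFin H)).filter (fun x => BadMap b B x)).card := by
    rw [coefBox_filter_ncard b d H (fun c => c (Fin.castSucc (Fin.last d)) ≠ 0 ∧
      c (Fin.last (d + 1)) ≠ 0 ∧ ¬ FewPeriodic B c)]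
    congr 1
  rw [h2, coefBox_ncard, Real.dist_eq, sub_zero, abs_of_nonneg (by positivity),
    div_lt_iff₀ hpos]
  calc _ ≤ ε / 2 * ((cube (Fin (d + 2) × J) (ratFin H)).card : ℝ) := h1
    _ < ε * ((cube (Fin (d + 2) × J) (ratFin H)).card : ℝ) := by
        apply mul_lt_mul_of_pos_right _ hpos
        linarith

end

end Pool.Agent.H.MP_0e6b5f_nt.H52
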