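import Pool.Agent.H.MP_0e6b5f_nt.H52.AvgVal

/-!
# Almost all the Henon maps over a number field have few periodic points of bounded degree
-/

namespace Pool.Agent.H.MP_0e6b5f_nt.H52

open Polynomial Module Finset Function

section

variable {K : Type*} [Field K] [NumberField K]

/-- the period bound at a place at which `F` is integral with unit leading coefficient -/
theorem iterate_of_unitLead (F : K[X]) {d : ℕ} (hd : 2 ≤ d) (B : ℕ) {p : ℕ} (hp : p.Prime)
    (W : ValuationSubring (AlgebraicClosure K)) (hW : W.valuation (p : AlgebraicClosure K) < 1)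
    (hU : UnitLead W.valuation (F.map (algebraMap K (AlgebraicClosure K))) d)
    {δ : K} (hδ : δ ≠ 0) (P : AlgebraicClosure K × AlgebraicClosure K)
    (hP : P ∈ perLE F δ B) : (henon F δ)^[bigM (p ^ (2 * (B * finrank ℚ K)))] P = P := by
  obtain ⟨⟨n, hn, hPn⟩, hPB⟩ := hP
  have hN : finrank ℚ K *
      finrank K (IntermediateField.adjoin K ({P.1, P.2} : Set (AlgebraicClosure K))) ≤
      B * finrank ℚ K := by
    rw [mul_comm]; exact Nat.mul_le_mul hPB le_rfl
  set G := F.map (algebraMap K (AlgebraicClosure K)) with hG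
  have hlead : W.valuation G.leadingCoeff = 1 := by
    rw [leadingCoeff, hU.deg]; exact hU.lead
  have hΔ : (1 : W.ValueGroup) ≤
      max 1 (W.valuation (algebraMap K (AlgebraicClosure K) δ)) := le_max_left _ _
  have hcomp : G.comp (X + C (0 : AlgebraicClosure K)) = G := by rw [C_0, add_zero, comp_X]
  obtain ⟨ρ, hρ⟩ := goodCond_of_coeff W.valuation G
      (algebraMap K (AlgebraicClosure K) δ) hd hU.deg 0 (by
        intro i hi1 hid
        rw [hcomp, hlead, one_pow, one_mul]
        exact (pow_le_one' (hU.int i) _).trans (one_le_pow₀ hΔ)) (by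
        rw [mul_zero, sub_zero, hlead, mul_one]
        refine (pow_le_one' ?_ _).trans (one_le_pow₀ hΔ)
        exact hU.val_eval_le_one (by rw [map_zero]; exact zero_le))
  exact point_period_good W.valuation hp hW hd F δ hδ P hN 0 ρ hρ hn hPn

variable {J : Type*} [Fintype J] [DecidableEq J]

/-- consequences of `¬ Bad` for the coefficients -/
theorem not_Bad (b : Basis J ℚ K) {d : ℕ} (i0 : Fin (d + 2) × J)
    (hi0 : i0.1 ≠ Fin.castSucc (Fin.last d)) {p : ℕ} (hp : p.Prime)
    (hb : ∀ j, (Wof K p).valuation (algebraMap K (AlgebraicClosure K) (b j)) = 1)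
    {x : Fin (d + 2) × J → ℚ} (hx : ¬ Bad b i0 p x) :
    (∀ i, i ≠ i0.1 → (Wof K p).valuation (algebraMap K (AlgebraicClosure K) (entry b x i)) ≤ 1) ∧
    (Wof K p).valuation (algebraMap K (AlgebraicClosure K)
      (entry b x (Fin.castSucc (Fin.last d)))) = 1 ∧
    (p ∣ (x i0).den → ¬ p ^ 2 ∣ (x i0).den →
      (Wof K p).valuation (algebraMap K (AlgebraicClosure K) (entry b x i0.1)) *
        (Wof K p).valuation (p : AlgebraicClosure K) = 1) := by
  unfold Bad at hx
  push Not at hx
  obtain ⟨h1, h2⟩ := hx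
  have h3 : ∀ i, i ≠ i0.1 →
      (Wof K p).valuation (algebraMap K (AlgebraicClosure K) (entry b x i)) ≤ 1 := by
    intro i hi
    refine val_comb_le b hp _ (Wof_lt hp) hb _ fun j => h1 (i, j) ?_
    intro h
    apply hi
    rw [← h]
  refine ⟨h3, le_antisymm (h3 _ hi0.symm) h2, fun h4 h5 => ?_⟩
  refine val_comb_pole b hp _ (Wof_lt hp) hb _ i0.2 (fun j hj => h1 (i0.1, j) ?_) h4 h5
  intro h
  apply hj
  exact (Prod.ext_iff.mp h).2

omit [NumberField K] in
theorem unitLead_of {d : ℕ} (c : Fin (d + 2) → K) (W : ValuationSubring (AlgebraicClosure K))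
    (h1 : ∀ i : Fin (d + 1),
      W.valuation (algebraMap K (AlgebraicClosure K) (c i.castSucc)) ≤ 1)
    (h2 : W.valuation (algebraMap K (AlgebraicClosure K) (c (Fin.castSucc (Fin.last d)))) = 1) :
    UnitLead W.valuation ((polyC c).map (algebraMap K (AlgebraicClosure K))) d := by
  have h0 : c (Fin.castSucc (Fin.last d)) ≠ 0 := by
    intro h
    rw [h, map_zero, map_zero] at h2
    exact zero_ne_one h2
  refine ⟨by rw [natDegree_map]; exact polyC_natDegree c h0, fun i => ?_, ?_⟩
  · rw [coeff_map, polyC_coeff]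
    split_ifs with h
    · exact h1 _
    · rw [map_zero, map_zero]; exact zero_le
  · rw [coeff_map, polyC_coeff_lt c (Nat.lt_succ_self d)]
    exact h2

/-- the vectors for which the conclusion fails -/
def BadMap (b : Basis J ℚ K) {d : ℕ} (B : ℕ) (x : Fin (d + 2) × J → ℚ) : Prop :=
  entry b x (Fin.castSucc (Fin.last d)) ≠ 0 ∧ entry b x (Fin.last (d + 1)) ≠ 0 ∧
    ¬ FewPeriodic B (entry b x)

theorem castSucc_ne_last {d : ℕ} (i : Fin (d + 1)) : (i.castSucc : Fin (d + 2)) ≠
    Fin.last (d + 1) := (Fin.castSucc_lt_last i).ne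

open Classical in
theorem avg_main (b : Basis J ℚ K) (d B : ℕ) (hd : 2 ≤ d) {η : ℝ} (hη : 0 < η) :
    ∃ H₀ : ℕ, ∀ H, H₀ ≤ H →
      (((cube (Fin (d + 2) × J) (ratFin H)).filter (fun x => BadMap b B x)).card : ℝ) ≤
        η * ((cube (Fin (d + 2) × J) (ratFin H)).card : ℝ) := by
  obtain ⟨j0⟩ : Nonempty J := b.index_nonempty
  -- the exceptional primes
  obtain ⟨m1, hm10, hm1⟩ := exists_bad_finset (Finset.univ.image b) (by
    intro x hx
    obtain ⟨j, _, rfl⟩ := mem_image.mp hx
    exact b.ne_zero j)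
  have hbp : ∀ p : ℕ, p.Prime → m1 < p →
      ∀ j, (Wof K p).valuation (algebraMap K (AlgebraicClosure K) (b j)) = 1 := by
    intro p hp hpm j
    refine hm1 p hp (fun h => ?_) (Wof K p) (Wof_lt hp) (b j) (mem_image.mpr ⟨j, mem_univ _, rfl⟩)
    have := Nat.le_of_dvd (Nat.pos_of_ne_zero hm10) h
    omega
  set Cst : ℝ := 12 * ((Fintype.card (Fin (d + 2) × J) : ℝ) + 1) with hCst
  have hCst0 : 0 ≤ Cst := by positivity
  -- the two free coordinates
  set iA : Fin (d + 2) × J := (Fin.last (d + 1), j0) with hiA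
  have hiA1 : iA.1 ≠ Fin.castSucc (Fin.last d) := (castSucc_ne_last (Fin.last d)).symm
  set iB : Fin (d + 2) × J := (Fin.castSucc 0, j0) with hiB
  have hiB1 : iB.1 ≠ Fin.castSucc (Fin.last d) := by
    intro h
    have h2 := Fin.castSucc_injective _ h
    have h3 := congrArg Fin.val h2
    simp at h3
    omega
  -- the auxiliary prime
  obtain ⟨N, hN⟩ := exists_nat_gt (4 * Cst / η)
  obtain ⟨p0, hp0N, hp0⟩ := Nat.exists_infinite_primes (max (m1 + 1) (N + 1))
  have hp0m : m1 < p0 := lt_of_lt_of_le (Nat.lt_succ_self m1) ((le_max_left _ _).trans hp0N)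
  have hp0N' : N + 1 ≤ p0 := (le_max_right _ _).trans hp0N
  have hE1 : ∀ H, p0 ≤ H →
      (((cube (Fin (d + 2) × J) (ratFin H)).filter (fun x => Bad b iA p0 x)).card : ℝ) ≤
        (η / 4) * ((cube (Fin (d + 2) × J) (ratFin H)).card : ℝ) := by
    intro H hH
    refine (Bad_count b iA hiA1 hp0 (hbp p0 hp0 hp0m) hH).trans ?_
    apply mul_le_mul_of_nonneg_right _ (Nat.cast_nonneg _)
    have h1 : (0 : ℝ) < p0 := by exact_mod_cast hp0.pos
    have h2 : 4 * Cst / η < p0 := by
      refine hN.trans ?_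
      exact_mod_cast hp0N'
    rw [div_lt_iff₀ hη] at h2
    rw [mul_one_div, div_le_iff₀ h1]
    linarith
  -- the period bound coming from it
  obtain ⟨M, hM⟩ : ∃ M, M = bigM (p0 ^ (2 * (B * finrank ℚ K))) := ⟨_, rfl⟩
  have hM0 : 0 < M := by rw [hM]; exact bigM_pos _
  have hdM : 1 < d ^ M := Nat.one_lt_pow (by omega) (by omega)
  have hcop : d.Coprime (d ^ M - 1) := by
    have h1 : Nat.Coprime (d ^ M) (d ^ M - 1) := by
      have := (Nat.coprime_self_sub_right (show 1 ≤ d ^ M by omega)).mpr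
        (Nat.coprime_one_right (d ^ M))
      exact this
    exact Nat.Coprime.coprime_dvd_left (dvd_pow_self d (by omega)) h1
  -- first sieve
  obtain ⟨HA, hHA⟩ := cube_sieve iA
    (fun p => p.Prime ∧ p ≡ d [MOD (d ^ M - 1)] ∧ max (d ^ M) m1 < p) (fun p hp => hp.1)
    (fun R => exists_finset_large (by omega) hcop (max (d ^ M) m1) R)
    (fun p x => Bad b iA p x) Cst hCst0
    (fun p _ x t => Bad_update b iA hiA1 p x t)
    (fun p hp H hH => Bad_count b iA hiA1 hp.1
      (hbp p hp.1 (lt_of_le_of_lt (le_max_right _ _) hp.2.2)) hH)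
    (show 0 < η / 4 by positivity)
  -- second sieve
  set m2 : ℕ := max m1 (NumberField.discr K).natAbs with hm2
  obtain ⟨HB, hHB⟩ := cube_sieve iB
    (fun p => p.Prime ∧ p ≡ 1 [MOD 1] ∧ m2 < p) (fun p hp => hp.1)
    (fun R => exists_finset_large one_pos (Nat.coprime_one_right 1) m2 R)
    (fun p x => Bad b iB p x) Cst hCst0
    (fun p _ x t => Bad_update b iB hiB1 p x t)
    (fun p hp H hH => Bad_count b iB hiB1 hp.1
      (hbp p hp.1 (lt_of_le_of_lt (le_max_left _ _) hp.2.2)) hH)
    (show 0 < η / 4 by positivity)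
  refine ⟨max p0 (max HA HB), fun H hH => ?_⟩
  have hH1 : p0 ≤ H := (le_max_left _ _).trans hH
  have hH2 : HA ≤ H := ((le_max_left _ _).trans (le_max_right _ _)).trans hH
  have hH3 : HB ≤ H := ((le_max_right _ _).trans (le_max_right _ _)).trans hH
  set Q := cube (Fin (d + 2) × J) (ratFin H) with hQ
  have hQ0 : (0 : ℝ) ≤ (Q.card : ℝ) := Nat.cast_nonneg _
  set EA : (Fin (d + 2) × J → ℚ) → Prop := fun x => ∀ p,
    (p.Prime ∧ p ≡ d [MOD (d ^ M - 1)] ∧ max (d ^ M) m1 < p) →
      (Bad b iA p x ∨ ¬ (p ∣ (x iA).den ∧ ¬ p ^ 2 ∣ (x iA).den)) with hEA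
  set EB : (Fin (d + 2) × J → ℚ) → Prop := fun x => ∀ p,
    (p.Prime ∧ p ≡ 1 [MOD 1] ∧ m2 < p) →
      (Bad b iB p x ∨ ¬ (p ∣ (x iB).den ∧ ¬ p ^ 2 ∣ (x iB).den)) with hEB
  have hsub : Q.filter (fun x => BadMap b B x) ⊆
      (Q.filter (fun x => Bad b iA p0 x) ∪ Q.filter EA) ∪ Q.filter EB := by
    intro x hx
    rw [mem_filter] at hx
    obtain ⟨hxQ, hcd, hcδ, hbad⟩ := hx
    rw [mem_union, mem_union, mem_filter, mem_filter, mem_filter]
    by_contra hcon
    push Not at hcon
    obtain ⟨⟨hn1, hn2⟩, hn3⟩ := hcon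
    have hn1 := hn1 hxQ
    have hn2 := hn2 hxQ
    have hn3 := hn3 hxQ
    apply hbad
    have hdeg : (polyC (entry b x)).natDegree = d := polyC_natDegree _ hcd
    -- unit leading coefficient at `p0`
    have hint : ∀ p : ℕ, p.Prime → m1 < p → ¬ Bad b iA p x →
        UnitLead (Wof K p).valuation
          ((polyC (entry b x)).map (algebraMap K (AlgebraicClosure K))) d := by
      intro p hp hpm hBp
      obtain ⟨h1, h2, -⟩ := not_Bad b iA hiA1 hp (hbp p hp hpm) hBp
      exact unitLead_of (entry b x) _ (fun i => h1 _ (castSucc_ne_last i)) h2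
    have hU0 := hint p0 hp0 hp0m hn1
    have hiter : ∀ P ∈ perLE (polyC (entry b x)) (entry b x (Fin.last (d + 1))) B,
        (henon (polyC (entry b x)) (entry b x (Fin.last (d + 1))))^[M] P = P :=
      fun P hP => by
        rw [hM]
        exact iterate_of_unitLead _ hd B hp0 _ (Wof_lt hp0) hU0 hcδ P hP
    constructor
    · -- short periods
      simp only [hEA] at hn2
      push Not at hn2
      obtain ⟨p, ⟨hp, hpd, hpm⟩, hBp, hpole, hpole2⟩ := hn2
      have hpm1 : m1 < p := lt_of_le_of_lt (le_max_right _ _) hpm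
      have hdMp : d ^ M < p := lt_of_le_of_lt (le_max_left _ _) hpm
      have hU := hint p hp hpm1 hBp
      obtain ⟨-, -, h3⟩ := not_Bad b iA hiA1 hp (hbp p hp hpm1) hBp
      have h3 := h3 hpole hpole2
      have hdp : d ≤ p := (le_self_pow₀ (by omega) (by omega)).trans hdMp.le
      have hmod : (d ^ M - 1) ∣ (p - d) := (Nat.modEq_iff_dvd' hdp).mp hpd.symm
      apply shortPeriods_of _ (by rw [hdeg]; exact hd)
      intro P hP
      obtain ⟨s, hs0, hs1, hs⟩ := point_twist (polyC (entry b x)) hd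
        (entry b x (Fin.last (d + 1))) hp (Wof K p) (Wof_lt hp) hU h3 hM0 hdMp hmod P (hiter P hP)
      refine ⟨s, hs0, hs1.trans ?_, hs⟩
      rw [mul_comm]
      exact Nat.mul_le_mul hP.2 le_rfl
    · -- large degree
      simp only [hEB] at hn3
      push Not at hn3
      obtain ⟨p, ⟨hp, _, hpm⟩, hBp, hpole, hpole2⟩ := hn3
      have hpm1 : m1 < p := lt_of_le_of_lt (le_max_left _ _) hpm
      have hpm2 : (NumberField.discr K).natAbs < p := lt_of_le_of_lt (le_max_right _ _) hpm
      obtain ⟨h1, h2, h3⟩ := not_Bad b iB hiB1 hp (hbp p hp hpm1) hBp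
      have h3 := h3 hpole hpole2
      intro P hP
      have hdisc : ¬ (p : ℤ) ∣ NumberField.discr K := by
        intro h
        have h4 : p ∣ (NumberField.discr K).natAbs := Int.natCast_dvd.mp h
        have h5 := Nat.le_of_dvd (Nat.pos_of_ne_zero (by
          rw [Int.natAbs_ne_zero]; exact NumberField.discr_ne_zero K)) h4
        omega
      refine deg_ge_of_const_pole (polyC (entry b x)) hd hdeg (entry b x (Fin.last (d + 1))) hp
        (Wof K p) (Wof_lt hp) hdisc ?_ ?_ ?_ ?_ P (hM0) (hiter P hP)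
      · rw [polyC_coeff_lt _ (Nat.succ_pos d)]
        exact h3
      · intro i hi
        rw [polyC_coeff]
        split_ifs with hid
        · apply h1
          intro h
          have h4 := congrArg Fin.val h
          simp [hiB] at h4
          omega
        · rw [map_zero, map_zero]; exact zero_le
      · rw [polyC_coeff_lt _ (Nat.lt_succ_self d)]
        exact h2
      · apply h1
        exact (castSucc_ne_last 0).symm
  have h1 : ((Q.filter (fun x => BadMap b B x)).card : ℝ) ≤
      ((Q.filter (fun x => Bad b iA p0 x)).card : ℝ) + ((Q.filter EA).card : ℝ) +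
        ((Q.filter EB).card : ℝ) := by
    have h2 := (card_le_card hsub).trans (card_union_le _ _)
    have h3 := card_union_le (Q.filter (fun x => Bad b iA p0 x)) (Q.filter EA)
    exact_mod_cast h2.trans (Nat.add_le_add_right h3 _)
  have h2 := hE1 H hH1
  have h3 := hHA H hH2
  have h4 := hHB H hH3
  have h5 : 0 ≤ η * (Q.card : ℝ) := by positivity
  calc ((Q.filter (fun x => BadMap b B x)).card : ℝ)
      ≤ _ := h1
    _ ≤ (η / 4) * (Q.card : ℝ) + (η / 4) * (Q.card : ℝ) + (η / 4) * (Q.card : ℝ) :=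
        add_le_add (add_le_add h2 h3) h4
    _ ≤ η * (Q.card : ℝ) := by linarith

end

end Pool.Agent.H.MP_0e6b5f_nt.H52
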