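import Pool.Agent.H.MP_0e6b5f_nt.H52.Box

/-!
# A sieve for boxes of rational vectors
-/

namespace Pool.Agent.H.MP_0e6b5f_nt.H52

open Finset

theorem sum_sq_le_one (S : Finset ℕ) (hS : ∀ p ∈ S, 2 ≤ p) :
    ∑ p ∈ S, (1 / (p : ℝ)) * (1 / (p : ℝ)) ≤ 1 := by
  have h1 : S ⊆ Icc 2 (S.sup id + 2) := by
    intro p hp
    rw [mem_Icc]
    have : p ≤ S.sup id := le_sup (f := id) hp
    exact ⟨hS p hp, by omega⟩
  calc ∑ p ∈ S, (1 / (p : ℝ)) * (1 / (p : ℝ))
      ≤ ∑ p ∈ Icc 2 (S.sup id + 2), (1 / (p : ℝ)) * (1 / (p : ℝ)) :=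
        sum_le_sum_of_subset_of_nonneg h1 fun _ _ _ => by positivity
    _ = ∑ p ∈ Icc 2 (S.sup id + 2), (1 / (p : ℝ) ^ 2) :=
        sum_congr rfl fun p _ => by rw [one_div, one_div]; ring
    _ ≤ 3 / 4 - 1 / ((S.sup id + 2 : ℕ) : ℝ) := sum_inv_sq (by omega)
    _ ≤ 1 := by
        have : (0 : ℝ) ≤ 1 / ((S.sup id + 2 : ℕ) : ℝ) := by positivity
        linarith

variable {ι : Type*} [Fintype ι] [DecidableEq ι]

open Classical in
/-- If, for each prime `p` of a set `Pr` of primes whose reciprocals have a divergent sum, the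
vectors satisfying `bad p` have proportion `O(1/p)`, then for almost all the vectors `x` there is
`p` in the set dividing the denominator of `x i₀` exactly once and such that `bad p x` fails. -/
theorem cube_sieve (i0 : ι) (Pr : ℕ → Prop) (hPr : ∀ p, Pr p → p.Prime)
    (hlarge : ∀ R : ℝ, ∃ S : Finset ℕ, (∀ p ∈ S, Pr p) ∧ R ≤ ∑ p ∈ S, (1 / (p : ℝ)))
    (bad : ℕ → (ι → ℚ) → Prop) (C : ℝ) (hC : 0 ≤ C)
    (hinv : ∀ p, Pr p → ∀ x t, bad p (Function.update x i0 t) ↔ bad p x)
    (hcount : ∀ p, Pr p → ∀ H, p ≤ H →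
      (((cube ι (ratFin H)).filter (fun x => bad p x)).card : ℝ) ≤
        C * (1 / (p : ℝ)) * ((cube ι (ratFin H)).card : ℝ))
    {η : ℝ} (hη : 0 < η) :
    ∃ H₀ : ℕ, ∀ H, H₀ ≤ H →
      (((cube ι (ratFin H)).filter (fun x => ∀ p, Pr p →
        (bad p x ∨ ¬ (p ∣ (x i0).den ∧ ¬ p ^ 2 ∣ (x i0).den)))).card : ℝ) ≤
        η * ((cube ι (ratFin H)).card : ℝ) := by
  set R : ℝ := 2 * C / η + 1 with hR
  have hR0 : 0 < R := by positivity
  set η' : ℝ := η / 24 with hη'
  have hη'0 : 0 < η' := by positivity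
  obtain ⟨S, hS, hSlarge⟩ := hlarge (R + 4 / η')
  have hSp : ∀ p ∈ S, p.Prime := fun p hp => hPr p (hS p hp)
  -- uniform threshold over the subsets of `S`
  have hthr : ∀ S' ∈ S.powerset, ∃ H₀ : ℕ, 4 / η' ≤ ∑ p ∈ S', (1 / (p : ℝ)) →
      ∀ H : ℕ, H₀ ≤ H →
      (((Ioc 0 H).filter (fun n => ∀ p ∈ S', ¬ (p ∣ n ∧ ¬ p ^ 2 ∣ n))).card : ℝ) ≤
        η' * (H : ℝ) := by
    intro S' hS'
    by_cases hl : 4 / η' ≤ ∑ p ∈ S', (1 / (p : ℝ))
    · obtain ⟨H₀, h⟩ := sieve_density
        (fun p hp => hSp p (mem_powerset.mp hS' hp)) hη'0 hl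
      exact ⟨H₀, fun _ => h⟩
    · exact ⟨0, fun h => absurd h hl⟩
  choose! thr hthr using hthr
  refine ⟨max (S.powerset.sup thr) (max (S.sup id) 1), fun H hH => ?_⟩
  have hH1 : 1 ≤ H := ((le_max_right _ _).trans (le_max_right _ _)).trans hH
  have hHS : ∀ p ∈ S, p ≤ H := fun p hp =>
    (((le_sup (f := id) hp).trans (le_max_left _ _)).trans (le_max_right _ _)).trans hH
  have hHthr : ∀ S' ∈ S.powerset, thr S' ≤ H := fun S' hS' =>
    ((le_sup (f := thr) hS').trans (le_max_left _ _)).trans hH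
  set Q := cube ι (ratFin H) with hQ
  have hQ0 : (0 : ℝ) ≤ (Q.card : ℝ) := Nat.cast_nonneg _
  -- the loss
  set loss : (ι → ℚ) → ℝ := fun x => ∑ p ∈ S, (if bad p x then (1 / (p : ℝ)) else 0) with hloss
  have hloss0 : ∀ x, 0 ≤ loss x := fun x => sum_nonneg fun p _ => by split_ifs <;> positivity
  -- Markov
  have hM : ((Q.filter (fun x => R ≤ loss x)).card : ℝ) ≤ (η / 2) * (Q.card : ℝ) := by
    have h1 : ((Q.filter (fun x => R ≤ loss x)).card : ℝ) * R ≤ ∑ x ∈ Q, loss x := by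
      rw [← nsmul_eq_mul, ← sum_const]
      refine (sum_le_sum (g := loss) fun x hx => (mem_filter.mp hx).2).trans ?_
      exact sum_le_sum_of_subset_of_nonneg (filter_subset _ _) fun x _ _ => hloss0 x
    have h2 : ∑ x ∈ Q, loss x ≤ C * (Q.card : ℝ) := by
      simp only [hloss]
      rw [sum_comm]
      have h3 : ∀ p ∈ S, ∑ x ∈ Q, (if bad p x then (1 / (p : ℝ)) else 0) ≤
          C * (Q.card : ℝ) * ((1 / (p : ℝ)) * (1 / (p : ℝ))) := by
        intro p hp
        rw [← sum_filter, sum_const, nsmul_eq_mul]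
        have h4 := hcount p (hS p hp) H (hHS p hp)
        calc ((Q.filter (fun x => bad p x)).card : ℝ) * (1 / (p : ℝ))
            ≤ (C * (1 / (p : ℝ)) * (Q.card : ℝ)) * (1 / (p : ℝ)) :=
              mul_le_mul_of_nonneg_right h4 (by positivity)
          _ = C * (Q.card : ℝ) * ((1 / (p : ℝ)) * (1 / (p : ℝ))) := by ring
      refine (sum_le_sum h3).trans ?_
      rw [← mul_sum]
      have h5 := sum_sq_le_one S fun p hp => (hSp p hp).two_le
      calc C * (Q.card : ℝ) * ∑ p ∈ S, (1 / (p : ℝ)) * (1 / (p : ℝ))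
          ≤ C * (Q.card : ℝ) * 1 := mul_le_mul_of_nonneg_left h5 (by positivity)
        _ = C * (Q.card : ℝ) := mul_one _
    have h6 : C ≤ (η / 2) * R := by
      rw [hR]
      have : (η / 2) * (2 * C / η + 1) = C + η / 2 := by field_simp
      rw [this]; linarith
    have h7 : ((Q.filter (fun x => R ≤ loss x)).card : ℝ) * R ≤
        ((η / 2) * (Q.card : ℝ)) * R := by
      calc _ ≤ C * (Q.card : ℝ) := h1.trans h2
        _ ≤ ((η / 2) * R) * (Q.card : ℝ) := mul_le_mul_of_nonneg_right h6 hQ0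
        _ = ((η / 2) * (Q.card : ℝ)) * R := by ring
    exact le_of_mul_le_mul_right h7 hR0
  -- the fibres
  set E3 : (ι → ℚ) → Prop := fun x => loss x < R ∧ ∀ p ∈ S,
    (bad p x ∨ ¬ (p ∣ (x i0).den ∧ ¬ p ^ 2 ∣ (x i0).den)) with hE3
  have hF : ((Q.filter E3).card : ℝ) ≤ (η / 2) * (Q.card : ℝ) := by
    have h1 : ∀ x ∈ Q, (((ratFin H).filter (fun t => E3 (Function.update x i0 t))).card : ℝ) ≤
        3 * η' * (H : ℝ) ^ 2 := by
      intro x hx
      have hlinv : ∀ t, loss (Function.update x i0 t) = loss x := by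
        intro t
        simp only [hloss]
        refine sum_congr rfl fun p hp => ?_
        simp only [hinv p (hS p hp) x t]
      by_cases hlx : loss x < R
      · set Sx := S.filter (fun p => ¬ bad p x) with hSx
        have hsum : 4 / η' ≤ ∑ p ∈ Sx, (1 / (p : ℝ)) := by
          have h2 : ∑ p ∈ S, (1 / (p : ℝ)) = loss x + ∑ p ∈ Sx, (1 / (p : ℝ)) := by
            simp only [hloss, hSx]
            rw [sum_filter, ← sum_add_distrib]
            refine sum_congr rfl fun p _ => ?_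
            by_cases hb : bad p x <;> simp [hb]
          rw [h2] at hSlarge
          linarith
        have hmem : Sx ∈ S.powerset := mem_powerset.mpr (filter_subset _ _)
        have h3 := hthr Sx hmem hsum H (hHthr Sx hmem)
        have h4 := card_den_le H ((ratFin H).filter (fun t => E3 (Function.update x i0 t)))
          (filter_subset _ _)
          ((Ioc 0 H).filter (fun n => ∀ p ∈ Sx, ¬ (p ∣ n ∧ ¬ p ^ 2 ∣ n))) (by
            intro t ht
            rw [mem_filter] at ht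
            rw [mem_filter, mem_Ioc]
            refine ⟨⟨t.pos, (mem_ratFin.mp ht.1).2⟩, fun p hp => ?_⟩
            rw [hSx, mem_filter] at hp
            have h5 := ht.2.2 p hp.1
            rw [hinv p (hS p hp.1) x t, Function.update_self] at h5
            exact h5.resolve_left hp.2)
        have h6 : (1 : ℝ) ≤ H := by exact_mod_cast hH1
        calc _ ≤ (2 * (H : ℝ) + 1) * _ := h4
          _ ≤ (3 * (H : ℝ)) * (η' * (H : ℝ)) :=
              mul_le_mul (by linarith) h3 (Nat.cast_nonneg _) (by positivity)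
          _ = 3 * η' * (H : ℝ) ^ 2 := by ring
      · have h2 : (ratFin H).filter (fun t => E3 (Function.update x i0 t)) = ∅ := by
          rw [filter_eq_empty_iff]
          intro t _ ht
          apply hlx
          rw [← hlinv t]
          exact ht.1
        rw [h2, card_empty, Nat.cast_zero]
        positivity
    have h2 := fiber_count (ratFin H) i0 E3 (3 * η' * (H : ℝ) ^ 2) h1
    have h3 := ratFin_card_ge H
    have h4 := ratFin_card_pos hH1
    have h5 : ((Q.filter E3).card : ℝ) * ((ratFin H).card : ℝ) ≤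
        ((η / 2) * (Q.card : ℝ)) * ((ratFin H).card : ℝ) := by
      calc _ ≤ 3 * η' * (H : ℝ) ^ 2 * (Q.card : ℝ) := h2
        _ = ((η / 2) * (Q.card : ℝ)) * ((H : ℝ) ^ 2 / 4) := by rw [hη']; ring
        _ ≤ ((η / 2) * (Q.card : ℝ)) * ((ratFin H).card : ℝ) :=
            mul_le_mul_of_nonneg_left h3 (by positivity)
    exact le_of_mul_le_mul_right h5 h4
  -- conclusion
  have hsub : Q.filter (fun x => ∀ p, Pr p →
        (bad p x ∨ ¬ (p ∣ (x i0).den ∧ ¬ p ^ 2 ∣ (x i0).den))) ⊆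
      Q.filter (fun x => R ≤ loss x) ∪ Q.filter E3 := by
    intro x hx
    rw [mem_filter] at hx
    rw [mem_union, mem_filter, mem_filter]
    rcases le_or_gt R (loss x) with h | h
    · exact Or.inl ⟨hx.1, h⟩
    · exact Or.inr ⟨hx.1, h, fun p hp => hx.2 p (hS p hp)⟩
  have h8 : ((Q.filter (fun x => ∀ p, Pr p →
        (bad p x ∨ ¬ (p ∣ (x i0).den ∧ ¬ p ^ 2 ∣ (x i0).den)))).card : ℝ) ≤
      ((Q.filter (fun x => R ≤ loss x)).card : ℝ) + ((Q.filter E3).card : ℝ) := by
    exact_mod_cast (card_le_card hsub).trans (card_union_le _ _)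
  linarith

end Pool.Agent.H.MP_0e6b5f_nt.H52
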