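import Pool.Agent.H.MP_0e6b5f_nt.H52.DefsTwist

/-!
# The Henon map attached to a vector of elements of a number field
-/

namespace Pool.Agent.H.MP_0e6b5f_nt.H52

open Polynomial Module

/-- the polynomial `c_0 + c_1 y + ... + c_d y^d`; the last entry `c_{d+1}` of `c` is not used
here -/
noncomputable def polyC {K : Type*} [Field K] {d : ℕ} (c : Fin (d + 2) → K) : K[X] :=
  ∑ i : Fin (d + 1), C (c i.castSucc) * X ^ (i : ℕ)

/-- the vectors of `K^{d+2}` all of whose entries have, with respect to the `ℚ`-basis `b` of `K`,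
coordinates of height at most `H` -/
def coefBox {K : Type*} [Field K] [NumberField K] {J : Type*} (b : Basis J ℚ K) (d H : ℕ) :
    Set (Fin (d + 2) → K) :=
  {c | ∀ i j, b.repr (c i) j ∈ ratBox H}

/-- the vectors `c` with `c_d ≠ 0` and `c_{d+1} ≠ 0` for which the Henon map
`(x, y) ↦ (y, c_0 + c_1 y + ... + c_d y^d - c_{d+1} x)` has few periodic points of degree at
most `B` over `K` in the following sense: such points have exact period at most `B [K : ℚ]` and
degree at least `d`, and their number is at most `∑ d ^ s`, `1 ≤ s ≤ B [K : ℚ]` -/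
def FewPeriodic {K : Type*} [Field K] [NumberField K] {d : ℕ} (B : ℕ)
    (c : Fin (d + 2) → K) : Prop :=
  ShortPeriods (polyC c) (c (Fin.last (d + 1))) B ∧
  ∀ P ∈ perLE (polyC c) (c (Fin.last (d + 1))) B,
    d ≤ finrank K (IntermediateField.adjoin K ({P.1, P.2} : Set (AlgebraicClosure K)))

end Pool.Agent.H.MP_0e6b5f_nt.H52
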