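import Mathlib

/-!
# Divergence of the sum of the reciprocals of the primes in an arithmetic progression
-/

namespace Pool.Agent.H.MP_0e6b5f_nt.H52

open ArithmeticFunction vonMangoldt Filter Topology LSeries

variable {q : ℕ} [NeZero q] {a : ZMod q}

open Classical in
/-- `1/n` for the primes `n ≡ a` -/
noncomputable def recip (a : ZMod q) (n : ℕ) : ℝ :=
  if n.Prime ∧ (n : ZMod q) = a then 1 / (n : ℝ) else 0

omit [NeZero q] in
theorem recip_nonneg (a : ZMod q) (n : ℕ) : 0 ≤ recip a n := by
  unfold recip; split_ifs <;> positivity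

omit [NeZero q] in
theorem prime_part_le (a : ZMod q) {x : ℝ} (hx : 1 < x) (n : ℕ) :
    (if n.Prime then residueClass a n else 0) / (n : ℝ) ^ x ≤ (x - 1)⁻¹ * recip a n := by
  unfold recip
  by_cases hp : n.Prime
  · rw [if_pos hp]
    by_cases ha : (n : ZMod q) = a
    · rw [if_pos ⟨hp, ha⟩]
      have h1 : residueClass a n = Real.log n := by
        rw [residueClass, Set.indicator_of_mem (show n ∈ {n : ℕ | (n : ZMod q) = a} from ha)]
        exact vonMangoldt_apply_prime hp
      rw [h1]
      have hn : (0 : ℝ) < n := by exact_mod_cast hp.pos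
      have h2 : Real.log n ≤ (n : ℝ) ^ (x - 1) / (x - 1) :=
        Real.log_le_rpow_div hn.le (by linarith)
      have h3 : (n : ℝ) ^ x = (n : ℝ) ^ (x - 1) * n := by
        rw [← Real.rpow_add_one hn.ne']; congr 1; ring
      have h4 : 0 < (n : ℝ) ^ (x - 1) := Real.rpow_pos_of_pos hn _
      have h5 : 0 < x - 1 := by linarith
      rw [h3, div_le_iff₀ (by positivity)]
      calc Real.log n ≤ (n : ℝ) ^ (x - 1) / (x - 1) := h2
        _ = (x - 1)⁻¹ * (1 / n) * ((n : ℝ) ^ (x - 1) * n) := by
            field_simp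
    · rw [if_neg (fun h => ha h.2)]
      have h1 : residueClass a n = 0 := by
        rw [residueClass, Set.indicator_of_notMem (show n ∉ {n : ℕ | (n : ZMod q) = a} from ha)]
      rw [h1]; simp
  · rw [if_neg hp, if_neg (fun h => hp h.1)]; simp

theorem not_summable_recip (ha : IsUnit a) : ¬ Summable (recip a) := by
  intro hS
  obtain ⟨C, hC⟩ := LSeries_residueClass_lower_bound ha
  set c : ℝ := (q.totient : ℝ)⁻¹ with hc
  have hc0 : 0 < c := inv_pos.mpr (mod_cast q.totient.pos_of_neZero)
  -- tail
  have htail := tendsto_sum_nat_add (recip a)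
  have hev : ∀ᶠ N in atTop, ∑' k, recip a (k + N) < c / 2 :=
    htail.eventually (gt_mem_nhds (by positivity))
  obtain ⟨N, hN⟩ := hev.exists
  set C1 : ℝ := ∑' n : ℕ, (if n.Prime then 0 else residueClass a n) / (n : ℝ) with hC1
  set C2 : ℝ := ∑ n ∈ Finset.range N, (if n.Prime then residueClass a n else 0) / (n : ℝ)
    with hC2
  have hmain : ∀ {x : ℝ}, x ∈ Set.Ioc (1 : ℝ) 2 → c / (x - 1) - C ≤ C1 + C2 +
      (x - 1)⁻¹ * (c / 2) := by
    intro x hx
    refine (hC hx).trans ?_
    have hx1 : 0 < x - 1 := by linarith [hx.1]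
    have hpow : ∀ n : ℕ, 0 < n → (n : ℝ) ≤ (n : ℝ) ^ x := by
      intro n hn
      conv_lhs => rw [← Real.rpow_one (n : ℝ)]
      exact Real.rpow_le_rpow_of_exponent_le (by exact_mod_cast hn) hx.1.le
    have hres : ∀ n, 0 ≤ residueClass a n := residueClass_nonneg a
    have hsum : Summable fun n : ℕ => residueClass a n / (n : ℝ) ^ x :=
      summable_real_of_abscissaOfAbsConv_lt <|
        (abscissaOfAbsConv_residueClass_le_one a).trans_lt <| mod_cast hx.1
    have hA : ∀ n : ℕ, 0 ≤ (if n.Prime then 0 else residueClass a n) / (n : ℝ) ^ x := by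
      intro n
      have := hres n
      split_ifs <;> positivity
    have hB : ∀ n : ℕ, 0 ≤ (if n.Prime then residueClass a n else 0) / (n : ℝ) ^ x := by
      intro n
      have := hres n
      split_ifs <;> positivity
    have hsplit : ∀ n : ℕ, residueClass a n / (n : ℝ) ^ x =
        (if n.Prime then 0 else residueClass a n) / (n : ℝ) ^ x +
        (if n.Prime then residueClass a n else 0) / (n : ℝ) ^ x := by
      intro n
      split_ifs <;> simp
    have hsA : Summable fun n : ℕ => (if n.Prime then 0 else residueClass a n) / (n : ℝ) ^ x :=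
      Summable.of_nonneg_of_le hA (fun n => by rw [hsplit n]; linarith [hB n]) hsum
    have hsB : Summable fun n : ℕ => (if n.Prime then residueClass a n else 0) / (n : ℝ) ^ x :=
      Summable.of_nonneg_of_le hB (fun n => by rw [hsplit n]; linarith [hA n]) hsum
    have e1 : ∑' n, residueClass a n / (n : ℝ) ^ x =
        ∑' n : ℕ, (if n.Prime then 0 else residueClass a n) / (n : ℝ) ^ x +
        ∑' n : ℕ, (if n.Prime then residueClass a n else 0) / (n : ℝ) ^ x := by
      rw [← hsA.tsum_add hsB]
      exact tsum_congr hsplit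
    rw [e1]
    have h1 : ∑' n : ℕ, (if n.Prime then 0 else residueClass a n) / (n : ℝ) ^ x ≤ C1 := by
      refine hsA.tsum_le_tsum (fun n => ?_) (summable_residueClass_non_primes_div a)
      rcases n.eq_zero_or_pos with rfl | hn
      · simp
      · refine div_le_div_of_nonneg_left ?_ (by exact_mod_cast hn) (hpow n hn)
        split_ifs
        · exact le_rfl
        · exact hres n
    have h2 : ∑' n : ℕ, (if n.Prime then residueClass a n else 0) / (n : ℝ) ^ x ≤
        C2 + (x - 1)⁻¹ * (c / 2) := by
      rw [← hsB.sum_add_tsum_nat_add N]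
      refine add_le_add ?_ ?_
      · refine Finset.sum_le_sum fun n _ => ?_
        rcases n.eq_zero_or_pos with rfl | hn
        · simp
        · refine div_le_div_of_nonneg_left ?_ (by exact_mod_cast hn) (hpow n hn)
          split_ifs
          · exact hres n
          · exact le_rfl
      · have hs1 : Summable fun n => (x - 1)⁻¹ * recip a (n + N) :=
          ((summable_nat_add_iff N).mpr hS).mul_left _
        have hs2 : Summable fun n : ℕ =>
            (if (n + N).Prime then residueClass a (n + N) else 0) / ((n + N : ℕ) : ℝ) ^ x :=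
          (summable_nat_add_iff N).mpr hsB
        refine (hs2.tsum_le_tsum (fun n => prime_part_le a hx.1 (n + N)) hs1).trans ?_
        rw [tsum_mul_left]
        exact mul_le_mul_of_nonneg_left hN.le (by positivity)
    linarith
  -- contradiction as `x → 1`
  set T : ℝ := C1 + C2 + C with hT
  have h3 : ∀ {x : ℝ}, x ∈ Set.Ioc (1 : ℝ) 2 → c / 2 ≤ T * (x - 1) := by
    intro x hx
    have hx1 : 0 < x - 1 := by linarith [hx.1]
    have := hmain hx
    have h4 : c / (x - 1) - (x - 1)⁻¹ * (c / 2) = (c / 2) / (x - 1) := by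
      field_simp; ring
    have h5 : (c / 2) / (x - 1) ≤ T := by
      rw [← h4]; linarith
    rwa [div_le_iff₀ hx1] at h5
  have hT1 : c / 2 ≤ T := by
    have := h3 (x := 2) ⟨by norm_num, le_rfl⟩
    linarith
  have hT0 : 0 < T := by linarith
  have h6 := h3 (x := 1 + c / (4 * T)) ⟨by linarith [show 0 < c / (4 * T) by positivity], by
    have : c / (4 * T) ≤ 1 := by
      rw [div_le_one (by positivity)]; linarith
    linarith⟩
  have h7 : T * (1 + c / (4 * T) - 1) = c / 4 := by field_simp; ring
  rw [h7] at h6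
  linarith

/-- For a reduced residue class, the sum of `1/p` over the primes `p > m` of the class is
arbitrarily large. -/
theorem exists_finset_large {q a : ℕ} (hq : 0 < q) (h : a.Coprime q) (m : ℕ) (R : ℝ) :
    ∃ S : Finset ℕ, (∀ p ∈ S, p.Prime ∧ p ≡ a [MOD q] ∧ m < p) ∧
      R ≤ ∑ p ∈ S, (1 / (p : ℝ)) := by
  classical
  have : NeZero q := ⟨hq.ne'⟩
  have ha : IsUnit ((a : ℕ) : ZMod q) := (ZMod.isUnit_iff_coprime a q).mpr h
  have hns := not_summable_recip ha
  have hT := (not_summable_iff_tendsto_nat_atTop_of_nonneg (recip_nonneg (a : ZMod q))).mp hns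
  have hev := (tendsto_atTop.mp hT (R + ∑ n ∈ Finset.range (m + 1), recip (a : ZMod q) n)).and
    (eventually_ge_atTop (m + 1))
  obtain ⟨N, hN, hNm⟩ := hev.exists
  refine ⟨(Finset.range N).filter (fun p => p.Prime ∧ p ≡ a [MOD q] ∧ m < p), ?_, ?_⟩
  · intro p hp
    exact (Finset.mem_filter.mp hp).2
  · have h1 : ∑ n ∈ Finset.range N, recip (a : ZMod q) n ≤
        ∑ n ∈ Finset.range (m + 1), recip (a : ZMod q) n +
        ∑ p ∈ (Finset.range N).filter (fun p => p.Prime ∧ p ≡ a [MOD q] ∧ m < p),
          (1 / (p : ℝ)) := by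
      rw [← Finset.sum_range_add_sum_Ico _ hNm]
      refine add_le_add le_rfl ?_
      have h2 : ∀ n ∈ Finset.Ico (m + 1) N, recip (a : ZMod q) n =
          if n.Prime ∧ n ≡ a [MOD q] ∧ m < n then 1 / (n : ℝ) else 0 := by
        intro n hn
        have hn1 := Finset.mem_Ico.mp hn
        unfold recip
        have : ((n : ZMod q) = (a : ZMod q)) ↔ n ≡ a [MOD q] := ZMod.natCast_eq_natCast_iff n a q
        simp only [this]
        have h3 : m < n := by omega
        simp only [h3, and_true]
      rw [Finset.sum_congr rfl h2, ← Finset.sum_filter]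
      refine Finset.sum_le_sum_of_subset_of_nonneg ?_ (fun _ _ _ => by positivity)
      intro n hn
      rw [Finset.mem_filter] at hn ⊢
      exact ⟨Finset.mem_range.mpr (Finset.mem_Ico.mp hn.1).2, hn.2⟩
    linarith

end Pool.Agent.H.MP_0e6b5f_nt.H52
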