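import Mathlib

/-!
# Integers without a simple prime factor in a given finite set: second moment bound
-/

namespace Pool.Agent.H.MP_0e6b5f_nt.H52

open Finset

/-- indicator of divisibility -/
noncomputable def dv (m n : ℕ) : ℝ := if m ∣ n then 1 else 0

theorem sum_dv (m H : ℕ) : ∑ n ∈ Ioc 0 H, dv m n = ((H / m : ℕ) : ℝ) := by
  unfold dv
  rw [sum_ite, sum_const_zero, add_zero, sum_const, nsmul_eq_mul, mul_one,
    Nat.Ioc_filter_dvd_card_eq_div]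

theorem floor_le (m H : ℕ) : ((H / m : ℕ) : ℝ) ≤ (H : ℝ) * (1 / (m : ℝ)) := by
  rw [mul_one_div]
  exact Nat.cast_div_le

theorem le_floor {m : ℕ} (hm : 0 < m) (H : ℕ) : (H : ℝ) * (1 / (m : ℝ)) - 1 ≤
    ((H / m : ℕ) : ℝ) := by
  have hm' : (0 : ℝ) < m := by exact_mod_cast hm
  have h1 : H < m * (H / m + 1) := Nat.lt_mul_div_succ H hm
  have h2 : (H : ℝ) < m * (((H / m : ℕ) : ℝ) + 1) := by exact_mod_cast h1
  rw [mul_one_div, sub_le_iff_le_add, div_le_iff₀ hm']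
  linarith

/-- indicator of `p` dividing `n` exactly once -/
noncomputable def ex (p n : ℕ) : ℝ := dv p n - dv (p ^ 2) n

theorem ex_eq (p n : ℕ) : ex p n = if p ∣ n ∧ ¬ p ^ 2 ∣ n then 1 else 0 := by
  unfold ex dv
  by_cases h2 : p ^ 2 ∣ n
  · have h1 : p ∣ n := (dvd_pow_self p (by norm_num)).trans h2
    simp [h1, h2]
  · by_cases h1 : p ∣ n
    · simp [h1, h2]
    · simp [h1, h2]

theorem ex_sq (p n : ℕ) : ex p n * ex p n = ex p n := by
  rw [ex_eq]; split_ifs <;> norm_num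

/-- the density of the integers divisible by `p` exactly once -/
noncomputable def wt (p : ℕ) : ℝ := 1 / (p : ℝ) - 1 / ((p ^ 2 : ℕ) : ℝ)

theorem wt_nonneg {p : ℕ} (hp : 0 < p) : 0 ≤ wt p := by
  unfold wt
  rw [sub_nonneg]
  apply one_div_le_one_div_of_le (by exact_mod_cast hp)
  push_cast
  have : (1 : ℝ) ≤ p := by exact_mod_cast hp
  nlinarith

theorem wt_ge {p : ℕ} (hp : 2 ≤ p) : (1 / 2) * (1 / (p : ℝ)) ≤ wt p := by
  unfold wt
  have h0 : (2 : ℝ) ≤ p := by exact_mod_cast hp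
  have h1 : (0 : ℝ) < p := by linarith
  push_cast
  have h2 : 1 / (p : ℝ) ^ 2 ≤ (1 / 2) * (1 / (p : ℝ)) := by
    have : (1 / 2 : ℝ) * (1 / (p : ℝ)) = 1 / (2 * p) := by
      rw [one_div_mul_one_div]
    rw [this]
    apply one_div_le_one_div_of_le (by positivity)
    nlinarith
  linarith

theorem sum_ex_ge {p : ℕ} (hp : 0 < p) (H : ℕ) :
    (H : ℝ) * wt p - 1 ≤ ∑ n ∈ Ioc 0 H, ex p n := by
  unfold ex wt
  rw [sum_sub_distrib, sum_dv, sum_dv]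
  have h1 := le_floor hp H
  have h2 := floor_le (p ^ 2) H
  rw [mul_sub]
  linarith

theorem sum_ex_le {p : ℕ} (hp : 0 < p) (H : ℕ) :
    ∑ n ∈ Ioc 0 H, ex p n ≤ (H : ℝ) * wt p + 1 := by
  unfold ex wt
  rw [sum_sub_distrib, sum_dv, sum_dv]
  have h1 := floor_le p H
  have h2 := le_floor (show 0 < p ^ 2 from pow_pos hp 2) H
  rw [mul_sub]
  linarith

theorem dv_mul {a b : ℕ} (h : a.Coprime b) (n : ℕ) : dv a n * dv b n = dv (a * b) n := by
  unfold dv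
  have : a * b ∣ n ↔ a ∣ n ∧ b ∣ n :=
    ⟨fun h' => ⟨(dvd_mul_right a b).trans h', (dvd_mul_left b a).trans h'⟩,
      fun h' => h.mul_dvd_of_dvd_of_dvd h'.1 h'.2⟩
  by_cases h1 : a ∣ n <;> by_cases h2 : b ∣ n <;> simp [this, h1, h2]

theorem sum_ex_mul_le {p q : ℕ} (hp : p.Prime) (hq : q.Prime) (H : ℕ) :
    ∑ n ∈ Ioc 0 H, ex p n * ex q n ≤
      (H : ℝ) * (wt p * wt q) + 2 + (if p = q then (H : ℝ) * wt p else 0) := by
  by_cases hpq : p = q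
  · subst hpq
    rw [if_pos rfl, sum_congr rfl (fun n _ => ex_sq p n)]
    have h1 := sum_ex_le hp.pos H
    have h2 := wt_nonneg hp.pos
    have h3 : 0 ≤ (H : ℝ) * (wt p * wt p) := by positivity
    linarith
  · rw [if_neg hpq, add_zero]
    have hc : p.Coprime q := (Nat.coprime_primes hp hq).mpr hpq
    have e : ∀ n, ex p n * ex q n = dv (p * q) n - dv (p * q ^ 2) n - dv (p ^ 2 * q) n +
        dv (p ^ 2 * q ^ 2) n := by
      intro n
      rw [← dv_mul hc, ← dv_mul (hc.pow_right 2), ← dv_mul (hc.pow_left 2),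
        ← dv_mul ((hc.pow_left 2).pow_right 2)]
      unfold ex
      ring
    rw [sum_congr rfl (fun n _ => e n), sum_add_distrib, sum_sub_distrib, sum_sub_distrib,
      sum_dv, sum_dv, sum_dv, sum_dv]
    have h1 := floor_le (p * q) H
    have h2 := floor_le (p ^ 2 * q ^ 2) H
    have h3 := le_floor (show 0 < p * q ^ 2 from Nat.mul_pos hp.pos (pow_pos hq.pos 2)) H
    have h4 := le_floor (show 0 < p ^ 2 * q from Nat.mul_pos (pow_pos hp.pos 2) hq.pos) H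
    have h5 : (H : ℝ) * (wt p * wt q) = (H : ℝ) * (1 / ((p * q : ℕ) : ℝ)) -
        (H : ℝ) * (1 / ((p * q ^ 2 : ℕ) : ℝ)) - (H : ℝ) * (1 / ((p ^ 2 * q : ℕ) : ℝ)) +
        (H : ℝ) * (1 / ((p ^ 2 * q ^ 2 : ℕ) : ℝ)) := by
      unfold wt
      push_cast
      simp only [one_div, mul_inv]
      ring
    linarith

/-- the number of integers `n ≤ H` with no simple prime factor in `S` -/
theorem sieve {S : Finset ℕ} (hS : ∀ p ∈ S, p.Prime) {μ : ℝ} (hμ : μ = ∑ p ∈ S, wt p)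
    (H : ℕ) :
    (((Ioc 0 H).filter (fun n => ∀ p ∈ S, ¬ (p ∣ n ∧ ¬ p ^ 2 ∣ n))).card : ℝ) * μ ^ 2 ≤
      (H : ℝ) * μ + 2 * (S.card : ℝ) ^ 2 + 2 * μ * (S.card : ℝ) := by
  classical
  have hμ0 : 0 ≤ μ := by
    rw [hμ]; exact sum_nonneg fun p hp => wt_nonneg (hS p hp).pos
  set A : ℕ → ℝ := fun n => ∑ p ∈ S, ex p n with hA
  have h1 : (((Ioc 0 H).filter (fun n => ∀ p ∈ S, ¬ (p ∣ n ∧ ¬ p ^ 2 ∣ n))).card : ℝ) * μ ^ 2 ≤
      ∑ n ∈ Ioc 0 H, (A n - μ) ^ 2 := by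
    rw [← nsmul_eq_mul, ← sum_const]
    refine (sum_le_sum (g := fun n => (A n - μ) ^ 2) fun n hn => ?_).trans
      (sum_le_sum_of_subset_of_nonneg (filter_subset _ _) fun _ _ _ => sq_nonneg _)
    have h0 : A n = 0 := by
      simp only [hA]
      refine sum_eq_zero fun p hp => ?_
      rw [ex_eq, if_neg ((mem_filter.mp hn).2 p hp)]
    simp only [h0]
    apply le_of_eq; ring
  refine h1.trans ?_
  have h2 : ∑ n ∈ Ioc 0 H, (A n - μ) ^ 2 =
      ∑ n ∈ Ioc 0 H, A n * A n - 2 * μ * ∑ n ∈ Ioc 0 H, A n + (H : ℝ) * μ ^ 2 := by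
    rw [mul_sum, ← sum_sub_distrib]
    have : (H : ℝ) * μ ^ 2 = ∑ n ∈ Ioc 0 H, μ ^ 2 := by
      rw [sum_const, Nat.card_Ioc, Nat.sub_zero, nsmul_eq_mul]
    rw [this, ← sum_add_distrib]
    exact sum_congr rfl fun n _ => by ring
  have h3 : (H : ℝ) * μ - (S.card : ℝ) ≤ ∑ n ∈ Ioc 0 H, A n := by
    simp only [hA]
    rw [sum_comm, hμ, mul_sum]
    have : ∑ p ∈ S, ((H : ℝ) * wt p - 1) = ∑ p ∈ S, (H : ℝ) * wt p - (S.card : ℝ) := by
      rw [sum_sub_distrib, sum_const, nsmul_eq_mul, mul_one]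
    rw [← this]
    exact sum_le_sum fun p hp => sum_ex_ge (hS p hp).pos H
  have h4 : ∑ n ∈ Ioc 0 H, A n * A n ≤ (H : ℝ) * μ ^ 2 + 2 * (S.card : ℝ) ^ 2 +
      (H : ℝ) * μ := by
    have e : ∀ n, A n * A n = ∑ p ∈ S, ∑ q ∈ S, ex p n * ex q n := by
      intro n
      simp only [hA]
      rw [sum_mul_sum]
    rw [sum_congr rfl (fun n _ => e n), sum_comm]
    have h5 : ∀ p ∈ S, ∑ n ∈ Ioc 0 H, ∑ q ∈ S, ex p n * ex q n ≤
        ∑ q ∈ S, ((H : ℝ) * (wt p * wt q) + 2 + (if p = q then (H : ℝ) * wt p else 0)) := by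
      intro p hp
      rw [sum_comm]
      exact sum_le_sum fun q hq => sum_ex_mul_le (hS p hp) (hS q hq) H
    refine (sum_le_sum h5).trans (le_of_eq ?_)
    have h6 : ∀ p ∈ S, ∑ q ∈ S, ((H : ℝ) * (wt p * wt q) + 2 +
        (if p = q then (H : ℝ) * wt p else 0)) =
        (H : ℝ) * wt p * μ + 2 * (S.card : ℝ) + (H : ℝ) * wt p := by
      intro p hp
      rw [sum_add_distrib, sum_add_distrib, sum_const, nsmul_eq_mul, sum_ite_eq, if_pos hp, hμ,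
        mul_sum]
      have : ∑ q ∈ S, (H : ℝ) * (wt p * wt q) = ∑ q ∈ S, (H : ℝ) * wt p * wt q :=
        sum_congr rfl fun q _ => by ring
      rw [this]; ring
    rw [sum_congr rfl h6, sum_add_distrib, sum_add_distrib, sum_const, nsmul_eq_mul, ← sum_mul,
      ← mul_sum, ← hμ]
    ring
  rw [h2]
  have h7 : 2 * μ * ((H : ℝ) * μ - (S.card : ℝ)) ≤ 2 * μ * ∑ n ∈ Ioc 0 H, A n :=
    mul_le_mul_of_nonneg_left h3 (by positivity)
  nlinarith

/-- Density form: if the sum of the reciprocals of the primes of `S` is large, few integers have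
no simple prime factor in `S`. -/
theorem sieve_density {S : Finset ℕ} (hS : ∀ p ∈ S, p.Prime) {η : ℝ} (hη : 0 < η)
    (hlarge : 4 / η ≤ ∑ p ∈ S, (1 / (p : ℝ))) :
    ∃ H₀ : ℕ, ∀ H : ℕ, H₀ ≤ H →
      (((Ioc 0 H).filter (fun n => ∀ p ∈ S, ¬ (p ∣ n ∧ ¬ p ^ 2 ∣ n))).card : ℝ) ≤
        η * (H : ℝ) := by
  set μ : ℝ := ∑ p ∈ S, wt p with hμ
  have h1 : 2 / η ≤ μ := by
    have h2 : (1 / 2) * ∑ p ∈ S, (1 / (p : ℝ)) ≤ μ := by
      rw [hμ, mul_sum]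
      exact sum_le_sum fun p hp => wt_ge (hS p hp).two_le
    have h3 : 2 / η = (1 / 2) * (4 / η) := by ring
    rw [h3]
    linarith
  have hμ0 : 0 < μ := lt_of_lt_of_le (by positivity) h1
  have hη1 : 1 ≤ η * μ / 2 := by
    rw [div_le_iff₀ hη] at h1
    linarith
  set C : ℝ := 2 * (S.card : ℝ) ^ 2 + 2 * μ * (S.card : ℝ) with hC
  have hC0 : 0 ≤ C := by positivity
  obtain ⟨H₀, hH₀⟩ := exists_nat_gt (C / μ)
  refine ⟨H₀, fun H hH => ?_⟩
  have hs := sieve hS hμ H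
  have h4 : C ≤ (H : ℝ) * μ := by
    have : (H₀ : ℝ) ≤ H := by exact_mod_cast hH
    rw [div_lt_iff₀ hμ0] at hH₀
    nlinarith
  have h5 : (((Ioc 0 H).filter (fun n => ∀ p ∈ S, ¬ (p ∣ n ∧ ¬ p ^ 2 ∣ n))).card : ℝ) * μ ^ 2 ≤
      2 * (H : ℝ) * μ := by linarith
  have h6 : 2 * (H : ℝ) * μ ≤ η * (H : ℝ) * μ ^ 2 := by
    have hH0 : (0 : ℝ) ≤ (H : ℝ) * μ := by positivity
    have : 2 * (H : ℝ) * μ * 1 ≤ 2 * (H : ℝ) * μ * (η * μ / 2) :=
      mul_le_mul_of_nonneg_left hη1 (by positivity)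
    nlinarith
  exact le_of_mul_le_mul_right (h5.trans h6) (by positivity)

end Pool.Agent.H.MP_0e6b5f_nt.H52
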