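import Pool.Agent.H.MP_0e6b5f_nt.H52.DefsTwist
import Pool.Agent.H.MP_0e6b5f_nt.H52.Sieve

/-!
# Counting rational numbers of bounded height
-/

namespace Pool.Agent.H.MP_0e6b5f_nt.H52

open Finset

theorem sum_inv_sq {n : ℕ} (hn : 2 ≤ n) :
    ∑ m ∈ Icc 2 n, (1 / (m : ℝ) ^ 2) ≤ 3 / 4 - 1 / (n : ℝ) := by
  induction n, hn using Nat.le_induction with
  | base => norm_num
  | succ n hn ih =>
    rw [Finset.sum_Icc_succ_top (by omega)]
    have h0 : (0 : ℝ) < n := by exact_mod_cast (by omega : 0 < n)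
    have h1 : 1 / ((n + 1 : ℕ) : ℝ) ^ 2 ≤ 1 / (n : ℝ) - 1 / ((n + 1 : ℕ) : ℝ) := by
      push_cast
      rw [div_sub_div _ _ h0.ne' (by positivity), div_le_div_iff₀ (by positivity) (by positivity)]
      nlinarith
    linarith

theorem coprime_pairs (H : ℕ) : (H : ℝ) ^ 2 / 4 ≤
    (((Ioc 0 H ×ˢ Ioc 0 H).filter (fun ab => Nat.Coprime ab.1 ab.2)).card : ℝ) := by
  classical
  have hcompl : ((Ioc 0 H ×ˢ Ioc 0 H).filter (fun ab => ¬ Nat.Coprime ab.1 ab.2)) ⊆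
      (Icc 2 H).biUnion (fun m => (Ioc 0 H).filter (fun a => m ∣ a) ×ˢ
        (Ioc 0 H).filter (fun b => m ∣ b)) := by
    rintro ⟨a, b⟩ hab
    rw [mem_filter, mem_product] at hab
    obtain ⟨⟨ha, hb⟩, hc⟩ := hab
    simp only at ha hb hc
    have ha' := mem_Ioc.mp ha
    have hg0 : 0 < Nat.gcd a b := Nat.gcd_pos_of_pos_left b ha'.1
    have hg1 : Nat.gcd a b ≠ 1 := hc
    have hgH : Nat.gcd a b ≤ H := (Nat.gcd_le_left b ha'.1).trans ha'.2
    rw [mem_biUnion]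
    refine ⟨Nat.gcd a b, mem_Icc.mpr ⟨by omega, hgH⟩, ?_⟩
    rw [mem_product, mem_filter, mem_filter]
    exact ⟨⟨ha, Nat.gcd_dvd_left a b⟩, ⟨hb, Nat.gcd_dvd_right a b⟩⟩
  have h1 : (((Ioc 0 H ×ˢ Ioc 0 H).filter (fun ab => ¬ Nat.Coprime ab.1 ab.2)).card : ℝ) ≤
      (3 / 4) * (H : ℝ) ^ 2 := by
    calc (((Ioc 0 H ×ˢ Ioc 0 H).filter (fun ab => ¬ Nat.Coprime ab.1 ab.2)).card : ℝ)
        ≤ ∑ m ∈ Icc 2 H, (((Ioc 0 H).filter (fun a => m ∣ a) ×ˢ
          (Ioc 0 H).filter (fun b => m ∣ b)).card : ℝ) := by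
          exact_mod_cast (card_le_card hcompl).trans card_biUnion_le
      _ ≤ ∑ m ∈ Icc 2 H, (H : ℝ) ^ 2 * (1 / (m : ℝ) ^ 2) := by
          refine sum_le_sum fun m hm => ?_
          rw [card_product, Nat.Ioc_filter_dvd_card_eq_div]
          have h2 := floor_le m H
          have h3 : (0 : ℝ) ≤ ((H / m : ℕ) : ℝ) := Nat.cast_nonneg _
          push_cast
          calc ((H / m : ℕ) : ℝ) * ((H / m : ℕ) : ℝ)
              ≤ ((H : ℝ) * (1 / (m : ℝ))) * ((H : ℝ) * (1 / (m : ℝ))) :=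
                mul_le_mul h2 h2 h3 (h3.trans h2)
            _ = (H : ℝ) ^ 2 * (1 / (m : ℝ) ^ 2) := by
                rw [one_div, one_div]; ring
      _ = (H : ℝ) ^ 2 * ∑ m ∈ Icc 2 H, (1 / (m : ℝ) ^ 2) := by rw [mul_sum]
      _ ≤ (H : ℝ) ^ 2 * (3 / 4) := by
          refine mul_le_mul_of_nonneg_left ?_ (by positivity)
          rcases Nat.lt_or_ge H 2 with h | h
          · rw [Icc_eq_empty (by omega), sum_empty]; norm_num
          · have := sum_inv_sq h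
            have h4 : (0 : ℝ) ≤ 1 / (H : ℝ) := by positivity
            linarith
      _ = (3 / 4) * (H : ℝ) ^ 2 := by ring
  have h2 := card_filter_add_card_filter_not (s := Ioc 0 H ×ˢ Ioc 0 H)
    (fun ab : ℕ × ℕ => Nat.Coprime ab.1 ab.2)
  rw [card_product, Nat.card_Ioc, Nat.sub_zero] at h2
  have h3 : (((Ioc 0 H ×ˢ Ioc 0 H).filter (fun ab => Nat.Coprime ab.1 ab.2)).card : ℝ) +
      (((Ioc 0 H ×ˢ Ioc 0 H).filter (fun ab => ¬ Nat.Coprime ab.1 ab.2)).card : ℝ) =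
      (H : ℝ) ^ 2 := by
    rw [sq]; exact_mod_cast h2
  linarith

theorem ratBox_sub (H : ℕ) : Set.MapsTo (fun t : ℚ => (t.num, t.den)) (ratBox H)
    ((Icc (-(H : ℤ)) H ×ˢ Ioc 0 H : Finset (ℤ × ℕ)) : Set (ℤ × ℕ)) := by
  rintro t ⟨h1, h2⟩
  rw [mem_coe, mem_product, mem_Icc, mem_Ioc]
  exact ⟨abs_le.mp h1, t.pos, h2⟩

theorem num_den_inj : Function.Injective (fun t : ℚ => (t.num, t.den)) := by
  intro s t h
  simp only [Prod.mk.injEq] at h
  exact Rat.ext h.1 h.2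

theorem ratBox_finite (H : ℕ) : (ratBox H).Finite :=
  Set.Finite.of_injOn (ratBox_sub H) num_den_inj.injOn (finite_toSet _)

theorem ratBox_card_ge (H : ℕ) : (H : ℝ) ^ 2 / 4 ≤ ((ratBox H).ncard : ℝ) := by
  classical
  refine (coprime_pairs H).trans ?_
  have h1 : (((Ioc 0 H ×ˢ Ioc 0 H).filter (fun ab => Nat.Coprime ab.1 ab.2)).card) ≤
      (ratBox H).ncard := by
    rw [← Set.ncard_coe_finset]
    have hnd : ∀ ab ∈ ((Ioc 0 H ×ˢ Ioc 0 H).filter (fun ab => Nat.Coprime ab.1 ab.2)),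
        (((ab.1 : ℤ) : ℚ) / ((ab.2 : ℤ) : ℚ)).num = ab.1 ∧
        ((((ab.1 : ℤ) : ℚ) / ((ab.2 : ℤ) : ℚ)).den : ℤ) = ab.2 := by
      intro ab hab
      rw [mem_filter, mem_product, mem_Ioc, mem_Ioc] at hab
      have h2 : (0 : ℤ) < (ab.2 : ℤ) := by exact_mod_cast hab.1.2.1
      have h3 : Nat.Coprime (ab.1 : ℤ).natAbs (ab.2 : ℤ).natAbs := by
        simpa using hab.2
      exact ⟨Rat.num_div_eq_of_coprime h2 h3, Rat.den_div_eq_of_coprime h2 h3⟩
    refine Set.ncard_le_ncard_of_injOn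
      (fun ab : ℕ × ℕ => ((ab.1 : ℤ) : ℚ) / ((ab.2 : ℤ) : ℚ)) ?_ ?_ (ratBox_finite H)
    · intro ab hab
      have h4 := hnd ab (mem_coe.mp hab)
      rw [mem_coe, mem_filter, mem_product, mem_Ioc, mem_Ioc] at hab
      refine ⟨?_, ?_⟩
      · rw [h4.1, abs_of_nonneg (by positivity)]
        exact_mod_cast hab.1.1.2
      · have : ((((ab.1 : ℤ) : ℚ) / ((ab.2 : ℤ) : ℚ)).den : ℤ) ≤ H := by
          rw [h4.2]; exact_mod_cast hab.1.2.2
        exact_mod_cast this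
    · intro ab hab cd hcd h
      have h4 := hnd ab (mem_coe.mp hab)
      have h5 := hnd cd (mem_coe.mp hcd)
      simp only at h
      rw [h] at h4
      have h6 : (ab.1 : ℤ) = cd.1 := by rw [← h4.1, h5.1]
      have h7 : (ab.2 : ℤ) = cd.2 := by rw [← h4.2, h5.2]
      exact Prod.ext (by exact_mod_cast h6) (by exact_mod_cast h7)
  exact_mod_cast h1

/-- the number of rational numbers of height at most `H` whose denominator lies in a given set -/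
theorem ncard_den_le (H : ℕ) (T : Set ℚ) (hT : T ⊆ ratBox H) (D : Finset ℕ)
    (hD : ∀ t ∈ T, t.den ∈ D) : (T.ncard : ℝ) ≤ (2 * (H : ℝ) + 1) * (D.card : ℝ) := by
  classical
  have h1 : T.ncard ≤ (Icc (-(H : ℤ)) H ×ˢ D : Finset (ℤ × ℕ)).card := by
    rw [← Set.ncard_coe_finset]
    refine Set.ncard_le_ncard_of_injOn (fun t : ℚ => (t.num, t.den)) ?_ num_den_inj.injOn
      (finite_toSet _)
    intro t ht
    have h2 := ratBox_sub H (hT ht)
    rw [mem_coe, mem_product] at h2 ⊢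
    exact ⟨h2.1, hD t ht⟩
  have h3 : ((Icc (-(H : ℤ)) H ×ˢ D : Finset (ℤ × ℕ)).card : ℝ) =
      (2 * (H : ℝ) + 1) * (D.card : ℝ) := by
    rw [card_product, Int.card_Icc]
    have : ((H : ℤ) + 1 - -(H : ℤ)).toNat = 2 * H + 1 := by omega
    rw [this]
    push_cast
    ring
  rw [← h3]
  exact_mod_cast h1

end Pool.Agent.H.MP_0e6b5f_nt.H52
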