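import Pool.Agent.H.MP_0e6b5f_nt.H52.Glob
import Pool.Agent.H.MP_0e6b5f_nt.H52.Div
import Pool.Agent.H.MP_0e6b5f_nt.H52.RatCount

/-!
# Almost all twists of a Henon map have only short periods in bounded degree
-/

namespace Pool.Agent.H.MP_0e6b5f_nt.H52

open Polynomial Function Module Filter Topology

section

variable {K : Type*} [Field K] [NumberField K]

omit [NumberField K] in
theorem encard_short (F : K[X]) {d : ℕ} (hF : F.natDegree = d) (hd : 2 ≤ d) (δ : K) (N : ℕ)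
    (T : Set (AlgebraicClosure K × AlgebraicClosure K))
    (hT : ∀ P ∈ T, ∃ s, 1 ≤ s ∧ s ≤ N ∧ (henon F δ)^[s] P = P) :
    T.encard ≤ ∑ s ∈ Finset.Icc 1 N, d ^ s := by
  induction N generalizing T with
  | zero =>
    have : T = ∅ := by
      rw [Set.eq_empty_iff_forall_notMem]
      intro P hP
      obtain ⟨s, h1, h2, _⟩ := hT P hP
      omega
    rw [this]; simp
  | succ N ih =>
    rw [Finset.sum_Icc_succ_top (by omega)]
    have hsub : T ⊆ {P ∈ T | ∃ s, 1 ≤ s ∧ s ≤ N ∧ (henon F δ)^[s] P = P} ∪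
        {P | (henon F δ)^[N + 1] P = P} := by
      intro P hP
      obtain ⟨s, h1, h2, h3⟩ := hT P hP
      rcases Nat.lt_or_ge s (N + 1) with h | h
      · exact Or.inl ⟨hP, s, h1, by omega, h3⟩
      · have : s = N + 1 := by omega
        rw [this] at h3
        exact Or.inr h3
    refine (Set.encard_le_encard hsub).trans ((Set.encard_union_le _ _).trans ?_)
    push_cast
    refine add_le_add ?_ ?_
    · have := ih {P ∈ T | ∃ s, 1 ≤ s ∧ s ≤ N ∧ (henon F δ)^[s] P = P} (fun P hP => hP.2)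
      exact_mod_cast this
    · have := encard_le_of_iterate (F := F) (δ := δ) hd hF (Nat.succ_pos N)
        (T := {P | (henon F δ)^[N + 1] P = P}) (fun P hP => hP)
      exact_mod_cast this

theorem shortPeriods_of (F : K[X]) (hF : 2 ≤ F.natDegree) (δ : K) (B : ℕ)
    (h : ∀ P ∈ perLE F δ B, ∃ s, 0 < s ∧ s ≤ B * finrank ℚ K ∧ (henon F δ)^[s] P = P) :
    ShortPeriods F δ B :=
  ⟨h, by
    have := encard_short F rfl hF δ (B * finrank ℚ K) (perLE F δ B) h
    exact_mod_cast this⟩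

theorem twist_density (F : K[X]) (hF : 2 ≤ F.natDegree) (δ c : K) (hδ : δ ≠ 0) (B : ℕ) :
    Tendsto (fun H : ℕ => (({t ∈ ratBox H | ¬ ShortPeriods F ((t : K) * δ + c) B}).ncard : ℝ) /
      ((ratBox H).ncard : ℝ)) atTop (𝓝 0) := by
  classical
  obtain ⟨q, m, hq, hcop, hgood⟩ := twist_good F rfl hF δ c hδ B
  rw [Metric.tendsto_atTop]
  intro ε hε
  set η : ℝ := ε / 16 with hη
  have hη0 : 0 < η := by positivity
  obtain ⟨S, hS, hSlarge⟩ := exists_finset_large hq hcop m (4 / η)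
  obtain ⟨H₀, hH₀⟩ := sieve_density (fun p hp => (hS p hp).1) hη0 hSlarge
  refine ⟨max H₀ 1, fun H hH => ?_⟩
  have hH1 : 1 ≤ H := (le_max_right _ _).trans hH
  have hH1' : (1 : ℝ) ≤ H := by exact_mod_cast hH1
  set D : Finset ℕ := (Finset.Ioc 0 H).filter (fun n => ∀ p ∈ S, ¬ (p ∣ n ∧ ¬ p ^ 2 ∣ n)) with hD
  have h1 : (({t ∈ ratBox H | ¬ ShortPeriods F ((t : K) * δ + c) B}).ncard : ℝ) ≤
      (2 * (H : ℝ) + 1) * (D.card : ℝ) := by
    apply ncard_den_le H _ (fun t ht => ht.1) D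
    rintro t ⟨⟨ht1, ht2⟩, ht3⟩
    rw [hD, Finset.mem_filter, Finset.mem_Ioc]
    refine ⟨⟨t.pos, ht2⟩, fun p hp hcon => ht3 ?_⟩
    apply shortPeriods_of F hF
    exact hgood p (hS p hp).1 (hS p hp).2.1 (hS p hp).2.2 t hcon.1 hcon.2
  have h2 : (D.card : ℝ) ≤ η * (H : ℝ) := hH₀ H ((le_max_left _ _).trans hH)
  have h3 := ratBox_card_ge H
  have h4 : 0 < ((ratBox H).ncard : ℝ) := lt_of_lt_of_le (by positivity) h3
  have h5 : 0 ≤ (({t ∈ ratBox H | ¬ ShortPeriods F ((t : K) * δ + c) B}).ncard : ℝ) /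
      ((ratBox H).ncard : ℝ) := by positivity
  rw [Real.dist_eq, sub_zero, abs_of_nonneg h5, div_lt_iff₀ h4]
  calc (({t ∈ ratBox H | ¬ ShortPeriods F ((t : K) * δ + c) B}).ncard : ℝ)
      ≤ (2 * (H : ℝ) + 1) * (D.card : ℝ) := h1
    _ ≤ (3 * (H : ℝ)) * (η * (H : ℝ)) := by
        apply mul_le_mul (by linarith) h2 (Nat.cast_nonneg _) (by positivity)
    _ = (3 / 4) * ε * ((H : ℝ) ^ 2 / 4) := by rw [hη]; ring
    _ < ε * ((H : ℝ) ^ 2 / 4) := by
        apply mul_lt_mul_of_pos_right _ (by positivity)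
        linarith
    _ ≤ ε * ((ratBox H).ncard : ℝ) := mul_le_mul_of_nonneg_left h3 hε.le

end

end Pool.Agent.H.MP_0e6b5f_nt.H52
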