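import Pool.Agent.H.MP_0e6b5f_nt.H52.ConstPole
import Pool.Agent.H.MP_0e6b5f_nt.H52.CubeSieve
import Pool.Agent.H.MP_0e6b5f_nt.H52.DefsAvg
import Pool.Agent.H.MP_0e6b5f_nt.H52.TwistMain

/-!
# Valuations of linear combinations of a basis, and counting
-/

namespace Pool.Agent.H.MP_0e6b5f_nt.H52

open Polynomial Module Finset

section Poly

variable {K : Type*} [Field K] {d : ℕ} (c : Fin (d + 2) → K)

theorem polyC_coeff (i : ℕ) : (polyC c).coeff i =
    if h : i < d + 1 then c (Fin.castSucc ⟨i, h⟩) else 0 := by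
  unfold polyC
  rw [finsetSum_coeff]
  simp only [coeff_C_mul, coeff_X_pow]
  split_ifs with h
  · rw [Finset.sum_eq_single (⟨i, h⟩ : Fin (d + 1))]
    · simp
    · intro j _ hj
      rw [if_neg, mul_zero]
      intro h2
      apply hj
      exact Fin.ext h2.symm
    · intro h2; exact absurd (Finset.mem_univ _) h2
  · apply Finset.sum_eq_zero
    intro j _
    rw [if_neg, mul_zero]
    have := j.2
    omega

theorem polyC_coeff_lt {i : ℕ} (h : i < d + 1) :
    (polyC c).coeff i = c (Fin.castSucc ⟨i, h⟩) := by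
  rw [polyC_coeff, dif_pos h]

theorem polyC_natDegree (h : c (Fin.castSucc (Fin.last d)) ≠ 0) : (polyC c).natDegree = d := by
  apply le_antisymm
  · rw [natDegree_le_iff_coeff_eq_zero]
    intro i hi
    rw [polyC_coeff, dif_neg (by omega)]
  · apply le_natDegree_of_ne_zero
    rw [polyC_coeff_lt c (Nat.lt_succ_self d)]
    exact h

end Poly

section Comb

variable {K : Type*} [Field K] [NumberField K] {J : Type*} [Fintype J] [DecidableEq J]

/-- the element of `K` with given coordinates -/
noncomputable def comb (b : Basis J ℚ K) (y : J → ℚ) : K := ∑ j, (y j : K) * b j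

omit [DecidableEq J] in
theorem algebraMap_comb (b : Basis J ℚ K) (y : J → ℚ) :
    algebraMap K (AlgebraicClosure K) (comb b y) =
      ∑ j, (y j : AlgebraicClosure K) * algebraMap K (AlgebraicClosure K) (b j) := by
  unfold comb
  rw [map_sum]
  exact Finset.sum_congr rfl fun j _ => by rw [map_mul, map_ratCast]

omit [DecidableEq J] in
theorem val_comb_le (b : Basis J ℚ K) {p : ℕ} (hp : p.Prime)
    (W : ValuationSubring (AlgebraicClosure K)) (hW : W.valuation (p : AlgebraicClosure K) < 1)
    (hb : ∀ j, W.valuation (algebraMap K (AlgebraicClosure K) (b j)) = 1) (y : J → ℚ)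
    (hy : ∀ j, ¬ p ∣ (y j).den) :
    W.valuation (algebraMap K (AlgebraicClosure K) (comb b y)) ≤ 1 := by
  rw [algebraMap_comb]
  refine W.valuation.map_sum_le fun j _ => ?_
  rw [map_mul, hb, mul_one]
  exact val_no_pole W.valuation hp hW (hy j)

theorem val_comb_pole (b : Basis J ℚ K) {p : ℕ} (hp : p.Prime)
    (W : ValuationSubring (AlgebraicClosure K)) (hW : W.valuation (p : AlgebraicClosure K) < 1)
    (hb : ∀ j, W.valuation (algebraMap K (AlgebraicClosure K) (b j)) = 1) (y : J → ℚ) (j0 : J)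
    (hy : ∀ j, j ≠ j0 → ¬ p ∣ (y j).den) (h1 : p ∣ (y j0).den) (h2 : ¬ p ^ 2 ∣ (y j0).den) :
    W.valuation (algebraMap K (AlgebraicClosure K) (comb b y)) *
      W.valuation (p : AlgebraicClosure K) = 1 := by
  rw [algebraMap_comb, ← Finset.add_sum_erase _ _ (Finset.mem_univ j0)]
  have h3 : W.valuation ((y j0 : AlgebraicClosure K) *
      algebraMap K (AlgebraicClosure K) (b j0)) * W.valuation (p : AlgebraicClosure K) = 1 := by
    rw [map_mul, hb, mul_one]
    exact val_simple_pole W.valuation hp hW h1 h2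
  have h4 : W.valuation (∑ j ∈ Finset.univ.erase j0, (y j : AlgebraicClosure K) *
      algebraMap K (AlgebraicClosure K) (b j)) ≤ 1 := by
    refine W.valuation.map_sum_le fun j hj => ?_
    rw [map_mul, hb, mul_one]
    exact val_no_pole W.valuation hp hW (hy j (Finset.ne_of_mem_erase hj))
  have h5 : 1 < W.valuation ((y j0 : AlgebraicClosure K) *
      algebraMap K (AlgebraicClosure K) (b j0)) := by
    by_contra hle
    push Not at hle
    have := mul_le_mul' hle (le_refl (W.valuation (p : AlgebraicClosure K)))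
    rw [h3, one_mul] at this
    exact absurd this (not_le.mpr hW)
  rw [Valuation.map_add_eq_of_lt_left _ (h4.trans_lt h5)]
  exact h3

theorem dvd_of_val_lt {E : Type*} [Field E] [CharZero E] {Γ₀ : Type*}
    [LinearOrderedCommGroupWithZero Γ₀] (w : Valuation E Γ₀) {p : ℕ} (hp : p.Prime)
    (hw : w (p : E) < 1) (s t : ℚ) (h : w ((s : E) - (t : E)) < 1) :
    (p : ℤ) ∣ s.num * (t.den : ℤ) - t.num * (s.den : ℤ) := by
  by_contra hcon
  have h1 := val_int_eq_one w hp hw hcon
  have h2 : ((s.num * (t.den : ℤ) - t.num * (s.den : ℤ) : ℤ) : E) =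
      ((s : E) - (t : E)) * (((s.den : ℤ) * (t.den : ℤ) : ℤ) : E) := by
    have hs : s * (s.den : ℚ) = s.num := Rat.mul_den_eq_num s
    have ht : t * (t.den : ℚ) = t.num := Rat.mul_den_eq_num t
    have h3 : ((s.num * (t.den : ℤ) - t.num * (s.den : ℤ) : ℤ) : ℚ) =
        (s - t) * (((s.den : ℤ) * (t.den : ℤ) : ℤ) : ℚ) := by
      push_cast
      rw [← hs, ← ht]; ring
    have h4 := congrArg (fun z : ℚ => (z : E)) h3
    simp only [Rat.cast_intCast, Rat.cast_mul, Rat.cast_sub] at h4
    exact h4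
  rw [h2, map_mul] at h1
  have h5 : w ((s : E) - (t : E)) * w (((s.den : ℤ) * (t.den : ℤ) : ℤ) : E) < 1 := by
    calc _ ≤ w ((s : E) - (t : E)) * 1 := mul_le_mul' le_rfl (val_int_le_one w _)
      _ < 1 := by rwa [mul_one]
  rw [h1] at h5
  exact lt_irrefl _ h5

theorem comb_update_sub (b : Basis J ℚ K) (y : J → ℚ) (j0 : J) (s t : ℚ) :
    comb b (Function.update y j0 s) - comb b (Function.update y j0 t) =
      ((s : K) - (t : K)) * b j0 := by
  unfold comb
  rw [← Finset.sum_sub_distrib, Finset.sum_eq_single j0]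
  · simp only [Function.update_self]; ring
  · intro j _ hj
    simp only [Function.update_of_ne hj, sub_self]
  · intro h; exact absurd (Finset.mem_univ _) h

end Comb

section Bad

variable {K : Type*} [Field K] [NumberField K] {J : Type*} [Fintype J] [DecidableEq J]

open Classical in
/-- a place above `p` -/
noncomputable def Wof (K : Type*) [Field K] [NumberField K] (p : ℕ) :
    ValuationSubring (AlgebraicClosure K) :=
  if h : p.Prime then (exists_valuation_above (K := K) h).choose else ⊤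

theorem Wof_lt {p : ℕ} (hp : p.Prime) :
    (Wof K p).valuation (p : AlgebraicClosure K) < 1 := by
  unfold Wof
  rw [dif_pos hp]
  exact (exists_valuation_above (K := K) hp).choose_spec

/-- the `i`-th entry of the vector with coordinates `x` -/
noncomputable def entry (b : Basis J ℚ K) {d : ℕ} (x : Fin (d + 2) × J → ℚ) (i : Fin (d + 2)) : K :=
  comb b (fun j => x (i, j))

/-- the exceptional vectors at `p`; the coordinate `i0` is left free -/
def Bad (b : Basis J ℚ K) {d : ℕ} (i0 : Fin (d + 2) × J) (p : ℕ) (x : Fin (d + 2) × J → ℚ) :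
    Prop :=
  (∃ i, i ≠ i0 ∧ p ∣ (x i).den) ∨
    (Wof K p).valuation (algebraMap K (AlgebraicClosure K)
      (entry b x (Fin.castSucc (Fin.last d)))) < 1

theorem Bad_update (b : Basis J ℚ K) {d : ℕ} (i0 : Fin (d + 2) × J)
    (hi0 : i0.1 ≠ Fin.castSucc (Fin.last d)) (p : ℕ) (x : Fin (d + 2) × J → ℚ) (t : ℚ) :
    Bad b i0 p (Function.update x i0 t) ↔ Bad b i0 p x := by
  unfold Bad
  have h1 : ∀ i, i ≠ i0 → Function.update x i0 t i = x i := fun i hi =>
    Function.update_of_ne hi t x
  have h2 : entry b (Function.update x i0 t) (Fin.castSucc (Fin.last d)) =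
      entry b x (Fin.castSucc (Fin.last d)) := by
    unfold entry
    congr 1
    funext j
    apply h1
    intro h
    apply hi0
    rw [← h]
  rw [h2]
  apply or_congr_left
  constructor
  · rintro ⟨i, hi, h⟩
    rw [h1 i hi] at h
    exact ⟨i, hi, h⟩
  · rintro ⟨i, hi, h⟩
    exact ⟨i, hi, by rw [h1 i hi]; exact h⟩

theorem card_of_fiber {ι : Type*} [Fintype ι] [DecidableEq ι] {H : ℕ} (hH : 1 ≤ H) (i : ι)
    (q : (ι → ℚ) → Prop) [DecidablePred q] {r : ℝ} (hr : 0 ≤ r)
    (h : ∀ x ∈ cube ι (ratFin H), (((ratFin H).filter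
      (fun t => q (Function.update x i t))).card : ℝ) ≤ 3 * (H : ℝ) ^ 2 * r) :
    (((cube ι (ratFin H)).filter q).card : ℝ) ≤ 12 * r * ((cube ι (ratFin H)).card : ℝ) := by
  have h1 := fiber_count (ratFin H) i q _ h
  have h3 := ratFin_card_ge H
  have h4 := ratFin_card_pos hH
  have hQ0 : (0 : ℝ) ≤ ((cube ι (ratFin H)).card : ℝ) := Nat.cast_nonneg _
  have h5 : (((cube ι (ratFin H)).filter q).card : ℝ) * ((ratFin H).card : ℝ) ≤
      (12 * r * ((cube ι (ratFin H)).card : ℝ)) * ((ratFin H).card : ℝ) := by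
    calc _ ≤ 3 * (H : ℝ) ^ 2 * r * ((cube ι (ratFin H)).card : ℝ) := h1
      _ = (12 * r * ((cube ι (ratFin H)).card : ℝ)) * ((H : ℝ) ^ 2 / 4) := by ring
      _ ≤ _ := mul_le_mul_of_nonneg_left h3 (by positivity)
  exact le_of_mul_le_mul_right h5 h4

open Classical in
theorem Bad_count (b : Basis J ℚ K) {d : ℕ} (i0 : Fin (d + 2) × J)
    (hi0 : i0.1 ≠ Fin.castSucc (Fin.last d)) {p : ℕ} (hp : p.Prime)
    (hb : ∀ j, (Wof K p).valuation (algebraMap K (AlgebraicClosure K) (b j)) = 1)
    {H : ℕ} (hH : p ≤ H) :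
    (((cube (Fin (d + 2) × J) (ratFin H)).filter (fun x => Bad b i0 p x)).card : ℝ) ≤
      (12 * ((Fintype.card (Fin (d + 2) × J) : ℝ) + 1)) * (1 / (p : ℝ)) *
        ((cube (Fin (d + 2) × J) (ratFin H)).card : ℝ) := by
  have hH1 : 1 ≤ H := hp.one_lt.le.trans hH
  have hr : (0 : ℝ) ≤ 1 / (p : ℝ) := by positivity
  set Q := cube (Fin (d + 2) × J) (ratFin H) with hQ
  set q1 : Fin (d + 2) × J → (Fin (d + 2) × J → ℚ) → Prop := fun i x => p ∣ (x i).den with hq1
  set q2 : (Fin (d + 2) × J → ℚ) → Prop := fun x => (∀ i, i ≠ i0 → ¬ p ∣ (x i).den) ∧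
    (Wof K p).valuation (algebraMap K (AlgebraicClosure K)
      (entry b x (Fin.castSucc (Fin.last d)))) < 1 with hq2
  have hsub : Q.filter (fun x => Bad b i0 p x) ⊆
      (Finset.univ.biUnion (fun i => Q.filter (q1 i))) ∪ Q.filter q2 := by
    intro x hx
    rw [mem_filter] at hx
    rw [mem_union, mem_biUnion, mem_filter]
    by_cases h : ∃ i, i ≠ i0 ∧ p ∣ (x i).den
    · obtain ⟨i, _, hi⟩ := h
      exact Or.inl ⟨i, mem_univ _, mem_filter.mpr ⟨hx.1, hi⟩⟩
    · refine Or.inr ⟨hx.1, ?_, ?_⟩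
      · intro i hi hcon
        exact h ⟨i, hi, hcon⟩
      · rcases hx.2 with h2 | h2
        · exact absurd h2 h
        · exact h2
  have h1 : ∀ i, ((Q.filter (q1 i)).card : ℝ) ≤ 12 * (1 / (p : ℝ)) * (Q.card : ℝ) := by
    intro i
    refine card_of_fiber hH1 i (q1 i) hr fun x _ => ?_
    refine card_pole_le hH1 p _ (filter_subset _ _) fun t ht => ?_
    have := (mem_filter.mp ht).2
    simp only [hq1, Function.update_self] at this
    exact this
  obtain ⟨j0⟩ : Nonempty J := b.index_nonempty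
  have h2 : ((Q.filter q2).card : ℝ) ≤ 12 * (1 / (p : ℝ)) * (Q.card : ℝ) := by
    set i1 : Fin (d + 2) × J := (Fin.castSucc (Fin.last d), j0) with hi1
    have hne : i1 ≠ i0 := by
      intro h
      apply hi0
      rw [← h]
    refine card_of_fiber hH1 i1 q2 hr fun x _ => ?_
    have hent : ∀ t : ℚ, entry b (Function.update x i1 t) (Fin.castSucc (Fin.last d)) =
        comb b (Function.update (fun j => x (Fin.castSucc (Fin.last d), j)) j0 t) := by
      intro t
      unfold entry
      congr 1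
      funext j
      by_cases hj : j = j0
      · subst hj
        rw [hi1, Function.update_self, Function.update_self]
      · rw [Function.update_of_ne hj, Function.update_of_ne]
        intro h
        apply hj
        exact (Prod.ext_iff.mp h).2
    refine card_class_le hp hH _ (filter_subset _ _) (fun t ht => ?_) (fun s hs t ht => ?_)
    · have h3 := (mem_filter.mp ht).2.1 i1 hne
      rwa [Function.update_self] at h3
    · have h3 := (mem_filter.mp hs).2.2
      have h4 := (mem_filter.mp ht).2.2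
      rw [hent] at h3 h4
      apply dvd_of_val_lt (Wof K p).valuation hp (Wof_lt hp)
      have h5 := (Wof K p).valuation.map_sub_lt h3 h4
      rw [← map_sub, comb_update_sub, map_mul, map_mul, hb, mul_one, map_sub, map_ratCast,
        map_ratCast] at h5
      exact h5
  have h3 : ((Q.filter (fun x => Bad b i0 p x)).card : ℝ) ≤
      ∑ i : Fin (d + 2) × J, ((Q.filter (q1 i)).card : ℝ) + ((Q.filter q2).card : ℝ) := by
    have h4 := (card_le_card hsub).trans (card_union_le _ _)
    have h5 : (Finset.univ.biUnion (fun i => Q.filter (q1 i))).card ≤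
        ∑ i : Fin (d + 2) × J, (Q.filter (q1 i)).card := card_biUnion_le
    exact_mod_cast h4.trans (Nat.add_le_add_right h5 _)
  have h6 : ∑ i : Fin (d + 2) × J, ((Q.filter (q1 i)).card : ℝ) ≤
      (Fintype.card (Fin (d + 2) × J) : ℝ) * (12 * (1 / (p : ℝ)) * (Q.card : ℝ)) := by
    calc _ ≤ ∑ i : Fin (d + 2) × J, (12 * (1 / (p : ℝ)) * (Q.card : ℝ)) :=
          sum_le_sum fun i _ => h1 i
      _ = _ := by rw [sum_const, nsmul_eq_mul, card_univ]
  calc _ ≤ _ := h3
    _ ≤ (Fintype.card (Fin (d + 2) × J) : ℝ) * (12 * (1 / (p : ℝ)) * (Q.card : ℝ)) +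
        12 * (1 / (p : ℝ)) * (Q.card : ℝ) := add_le_add h6 h2
    _ = _ := by ring

end Bad

end Pool.Agent.H.MP_0e6b5f_nt.H52
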