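import Pool.Agent.H.MP_0e6b5f_nt.H52.RatCount

/-!
# Counting in boxes of rational vectors
-/

namespace Pool.Agent.H.MP_0e6b5f_nt.H52

open Finset

section Fiber

variable {ι : Type*} [Fintype ι] [DecidableEq ι] {α : Type*} [DecidableEq α]

/-- the cube `R ^ ι` -/
def cube (ι : Type*) [Fintype ι] [DecidableEq ι] {α : Type*} (R : Finset α) : Finset (ι → α) :=
  Fintype.piFinset (fun _ => R)

omit [DecidableEq α] in
theorem mem_cube {R : Finset α} {x : ι → α} : x ∈ cube ι R ↔ ∀ i, x i ∈ R := by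
  rw [cube, Fintype.mem_piFinset]

omit [DecidableEq α] in
theorem update_mem_cube {R : Finset α} {x : ι → α} (hx : x ∈ cube ι R) {i : ι} {t : α}
    (ht : t ∈ R) : Function.update x i t ∈ cube ι R := by
  rw [mem_cube] at hx ⊢
  intro j
  by_cases h : j = i
  · subst h; rwa [Function.update_self]
  · rw [Function.update_of_ne h]; exact hx j

omit [DecidableEq α] in
/-- counting along the fibres of one coordinate -/
theorem fiber_count (R : Finset α) (i : ι) (p : (ι → α) → Prop) [DecidablePred p] (θ : ℝ)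
    (h : ∀ x ∈ cube ι R, ((R.filter (fun t => p (Function.update x i t))).card : ℝ) ≤ θ) :
    (((cube ι R).filter p).card : ℝ) * (R.card : ℝ) ≤ θ * ((cube ι R).card : ℝ) := by
  have h1 : ((cube ι R).filter p).card * R.card =
      ∑ x ∈ cube ι R, (R.filter (fun t => p (Function.update x i t))).card := by
    rw [← card_product, ← card_sigma]
    refine card_bij' (fun bs _ => (⟨Function.update bs.1 i bs.2, bs.1 i⟩ : Σ _ : ι → α, α))
      (fun xt _ => (Function.update xt.1 i xt.2, xt.1 i)) ?_ ?_ ?_ ?_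
    · rintro ⟨b, s⟩ hbs
      rw [mem_product, mem_filter] at hbs
      obtain ⟨⟨hb, hpb⟩, hs⟩ := hbs
      rw [mem_sigma, mem_filter]
      refine ⟨update_mem_cube hb hs, mem_cube.mp hb i, ?_⟩
      simp only [Function.update_idem, Function.update_eq_self]
      exact hpb
    · rintro ⟨x, t⟩ hxt
      rw [mem_sigma, mem_filter] at hxt
      obtain ⟨hx, ht, hp⟩ := hxt
      rw [mem_product, mem_filter]
      exact ⟨⟨update_mem_cube hx ht, hp⟩, mem_cube.mp hx i⟩
    · rintro ⟨b, s⟩ _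
      simp
    · rintro ⟨x, t⟩ _
      simp
  have h2 : (((cube ι R).filter p).card : ℝ) * (R.card : ℝ) =
      ∑ x ∈ cube ι R, ((R.filter (fun t => p (Function.update x i t))).card : ℝ) := by
    exact_mod_cast h1
  rw [h2]
  calc ∑ x ∈ cube ι R, ((R.filter (fun t => p (Function.update x i t))).card : ℝ)
      ≤ ∑ x ∈ cube ι R, θ := sum_le_sum h
    _ = θ * ((cube ι R).card : ℝ) := by rw [sum_const, nsmul_eq_mul, mul_comm]

end Fiber

open Classical in
/-- the rationals of height at most `H`, as a finite set -/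
noncomputable def ratFin (H : ℕ) : Finset ℚ := (ratBox_finite H).toFinset

theorem mem_ratFin {H : ℕ} {t : ℚ} : t ∈ ratFin H ↔ |t.num| ≤ (H : ℤ) ∧ t.den ≤ H := by
  rw [ratFin, Set.Finite.mem_toFinset]; rfl

theorem ratFin_card_ge (H : ℕ) : (H : ℝ) ^ 2 / 4 ≤ ((ratFin H).card : ℝ) := by
  have := ratBox_card_ge H
  rwa [Set.ncard_eq_toFinset_card _ (ratBox_finite H)] at this

theorem ratFin_card_pos {H : ℕ} (hH : 1 ≤ H) : 0 < ((ratFin H).card : ℝ) := by
  have h1 : (1 : ℝ) ≤ H := by exact_mod_cast hH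
  exact lt_of_lt_of_le (by positivity) (ratFin_card_ge H)

/-- denominators in a given set -/
theorem card_den_le (H : ℕ) (T : Finset ℚ) (hT : T ⊆ ratFin H) (D : Finset ℕ)
    (hD : ∀ t ∈ T, t.den ∈ D) : (T.card : ℝ) ≤ (2 * (H : ℝ) + 1) * (D.card : ℝ) := by
  have h1 := ncard_den_le H (T : Set ℚ) (fun t ht => (mem_ratFin.mp (hT ht))) D
    (fun t ht => hD t ht)
  rwa [Set.ncard_coe_finset] at h1

/-- rationals with `p` in the denominator -/
theorem card_pole_le {H : ℕ} (hH : 1 ≤ H) (p : ℕ) (T : Finset ℚ) (hT : T ⊆ ratFin H)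
    (h : ∀ t ∈ T, p ∣ t.den) : (T.card : ℝ) ≤ 3 * (H : ℝ) ^ 2 * (1 / (p : ℝ)) := by
  have h1 := card_den_le H T hT ((Ioc 0 H).filter (fun n => p ∣ n)) (fun t ht => by
    rw [mem_filter, mem_Ioc]
    exact ⟨⟨t.pos, (mem_ratFin.mp (hT ht)).2⟩, h t ht⟩)
  rw [Nat.Ioc_filter_dvd_card_eq_div] at h1
  have h2 := floor_le p H
  have h3 : (1 : ℝ) ≤ H := by exact_mod_cast hH
  calc (T.card : ℝ) ≤ (2 * (H : ℝ) + 1) * ((H / p : ℕ) : ℝ) := h1
    _ ≤ (3 * (H : ℝ)) * ((H : ℝ) * (1 / (p : ℝ))) :=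
        mul_le_mul (by linarith) h2 (Nat.cast_nonneg _) (by positivity)
    _ = 3 * (H : ℝ) ^ 2 * (1 / (p : ℝ)) := by ring

/-- rationals in one residue class mod `p` -/
theorem card_class_le {H p : ℕ} (hp : p.Prime) (hH : p ≤ H) (T : Finset ℚ) (hT : T ⊆ ratFin H)
    (h0 : ∀ t ∈ T, ¬ p ∣ t.den)
    (h : ∀ s ∈ T, ∀ t ∈ T, (p : ℤ) ∣ s.num * (t.den : ℤ) - t.num * (s.den : ℤ)) :
    (T.card : ℝ) ≤ 3 * (H : ℝ) ^ 2 * (1 / (p : ℝ)) := by
  have hp0 : (0 : ℤ) < p := by exact_mod_cast hp.pos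
  have h1 : T.card ≤ (range (2 * H / p + 1) ×ˢ Ioc 0 H).card := by
    refine card_le_card_of_injOn (fun t => (((t.num + H) / p).toNat, t.den)) ?_ ?_
    · intro t ht
      have h2 := mem_ratFin.mp (hT ht)
      have h3 := abs_le.mp h2.1
      rw [mem_coe, mem_product, mem_range, mem_Ioc]
      refine ⟨?_, t.pos, h2.2⟩
      have h4 : 0 ≤ (t.num + H) / (p : ℤ) := Int.ediv_nonneg (by linarith [h3.1]) hp0.le
      have h5 : (t.num + H) / (p : ℤ) ≤ (2 * H : ℤ) / p :=
        Int.ediv_le_ediv hp0 (by linarith [h3.2])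
      have h6 : ((((t.num + H) / (p : ℤ)).toNat : ℕ) : ℤ) < ((2 * H / p + 1 : ℕ) : ℤ) := by
        rw [Int.toNat_of_nonneg h4]
        push_cast
        omega
      exact_mod_cast h6
    · intro s hs t ht hst
      simp only [Prod.mk.injEq] at hst
      obtain ⟨h2, h3⟩ := hst
      have h4 := mem_ratFin.mp (hT (mem_coe.mp hs))
      have h4' := abs_le.mp h4.1
      have h5 := mem_ratFin.mp (hT (mem_coe.mp ht))
      have h5' := abs_le.mp h5.1
      have h6 : (p : ℤ) ∣ (s.num - t.num) := by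
        have h7 := h s hs t ht
        rw [← h3, ← sub_mul] at h7
        rcases (Nat.prime_iff_prime_int.mp hp).dvd_or_dvd h7 with h8 | h8
        · exact h8
        · exfalso
          exact h0 s hs (by exact_mod_cast h8)
      have h9 : (s.num + H) / (p : ℤ) = (t.num + H) / (p : ℤ) := by
        have e1 : 0 ≤ (s.num + H) / (p : ℤ) := Int.ediv_nonneg (by linarith [h4'.1]) hp0.le
        have e2 : 0 ≤ (t.num + H) / (p : ℤ) := Int.ediv_nonneg (by linarith [h5'.1]) hp0.le
        rw [← Int.toNat_of_nonneg e1, ← Int.toNat_of_nonneg e2, h2]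
      have h10 : (s.num + H) % (p : ℤ) = (t.num + H) % (p : ℤ) := by
        apply Int.ModEq.add_right
        exact (Int.modEq_iff_dvd.mpr (by
          have : t.num - s.num = -(s.num - t.num) := by ring
          rw [this]; exact (dvd_neg.mpr h6)))
      have h11 : s.num + H = t.num + H := by
        rw [← Int.mul_ediv_add_emod (s.num + H) p, h9, h10, Int.mul_ediv_add_emod]
      exact Rat.ext (by linarith) h3
  rw [card_product, card_range, Nat.card_Ioc, Nat.sub_zero] at h1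
  have h2 : (T.card : ℝ) ≤ (((2 * H / p : ℕ) : ℝ) + 1) * (H : ℝ) := by
    exact_mod_cast h1
  have h3 := floor_le p (2 * H)
  have hpR : (0 : ℝ) < p := by exact_mod_cast hp.pos
  have h4 : (1 : ℝ) ≤ (H : ℝ) * (1 / (p : ℝ)) := by
    rw [mul_one_div, le_div_iff₀ hpR, one_mul]; exact_mod_cast hH
  calc (T.card : ℝ) ≤ (((2 * H / p : ℕ) : ℝ) + 1) * (H : ℝ) := h2
    _ ≤ (((2 * H : ℕ) : ℝ) * (1 / (p : ℝ)) + (H : ℝ) * (1 / (p : ℝ))) * (H : ℝ) := by
        apply mul_le_mul_of_nonneg_right _ (Nat.cast_nonneg _)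
        linarith
    _ = 3 * (H : ℝ) ^ 2 * (1 / (p : ℝ)) := by push_cast; ring

end Pool.Agent.H.MP_0e6b5f_nt.H52
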