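import Pool.Agent.H.MP_0e6b5f_nt.H52.Unram

/-!
# Places at which the constant term has a simple pole
-/

namespace Pool.Agent.H.MP_0e6b5f_nt.H52

open Polynomial Function Module

section Ram

variable {K E : Type*} [Field K] [Field E] [Algebra K E] {Γ₀ : Type*}
  [LinearOrderedCommGroupWithZero Γ₀]

/-- the valuation of an element of degree `m` over `K` has a power of exponent at most `m` in the
value group of `K` -/
theorem ram_exponent_K (v : Valuation E Γ₀) {π : Γ₀} (hp0 : π ≠ 0)
    (hK : ∀ r : K, r ≠ 0 → ∃ j : ℤ, v (algebraMap K E r) = π ^ j)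
    {x : E} (hx : x ≠ 0) (hint : IsIntegral K x) :
    ∃ e : ℕ, 1 ≤ e ∧ e ≤ (minpoly K x).natDegree ∧ ∃ j : ℤ, v x ^ e = π ^ j := by
  set P := minpoly K x with hP
  set m := P.natDegree with hm
  set t : ℕ → E := fun i => algebraMap K E (P.coeff i) * x ^ i with ht
  have hsum : ∑ i ∈ Finset.range (m + 1), t i = 0 := by
    have := minpoly.aeval K x
    rw [aeval_eq_sum_range] at this
    simp only [Algebra.smul_def] at this
    exact this
  have hvx : v x ≠ 0 := (map_ne_zero v).mpr hx
  have htop : t m ≠ 0 := by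
    have h1 : P.coeff m = 1 := minpoly.monic hint
    simp only [ht, h1, map_one, one_mul]
    exact pow_ne_zero _ hx
  obtain ⟨i0, hi0, hmax⟩ := Finset.exists_max_image (Finset.range (m + 1)) (fun i => v (t i))
    ⟨m, Finset.mem_range.mpr (Nat.lt_succ_self m)⟩
  have hpos : v (t i0) ≠ 0 := by
    have h1 : v (t m) ≤ v (t i0) := hmax m (Finset.mem_range.mpr (Nat.lt_succ_self m))
    intro h2
    rw [h2] at h1
    exact (map_ne_zero v).mpr htop (le_antisymm h1 zero_le)
  -- another index attains the maximum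
  obtain ⟨i1, hi1, hne, heq⟩ : ∃ i1 ∈ Finset.range (m + 1), i1 ≠ i0 ∧ v (t i1) = v (t i0) := by
    by_contra hcon
    push Not at hcon
    have h1 : v (∑ i ∈ (Finset.range (m + 1)).erase i0, t i) < v (t i0) := by
      apply v.map_sum_lt hpos
      intro i hi
      rw [Finset.mem_erase] at hi
      exact lt_of_le_of_ne (hmax i hi.2) (hcon i hi.2 hi.1)
    have h2 : ∑ i ∈ (Finset.range (m + 1)).erase i0, t i = - t i0 := by
      rw [← Finset.add_sum_erase _ _ hi0] at hsum
      exact eq_neg_of_add_eq_zero_right hsum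
    rw [h2, Valuation.map_neg] at h1
    exact lt_irrefl _ h1
  -- the two coefficients are nonzero
  have hc : ∀ i, v (t i) = v (t i0) → P.coeff i ≠ 0 := by
    intro i hi h0
    apply hpos
    rw [← hi]
    simp [ht, h0]
  have key : ∀ i j, i < j → v (t i) = v (t i0) → v (t j) = v (t i0) → j ≤ m →
      ∃ e : ℕ, 1 ≤ e ∧ e ≤ m ∧ ∃ k : ℤ, v x ^ e = π ^ k := by
    intro i j hij hi hj hjm
    obtain ⟨a, ha⟩ := hK _ (hc i hi)
    obtain ⟨b, hb⟩ := hK _ (hc j hj)
    refine ⟨j - i, by omega, by omega, a - b, ?_⟩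
    have h1 : π ^ a * v x ^ i = π ^ b * v x ^ j := by
      have h2 := hi.trans hj.symm
      simp only [ht, map_mul, map_pow] at h2
      rwa [ha, hb] at h2
    have hj' : v x ^ j = v x ^ (j - i) * v x ^ i := by rw [← pow_add]; congr 1; omega
    rw [hj', ← mul_assoc] at h1
    have h2 := mul_right_cancel₀ (pow_ne_zero i hvx) h1
    rw [zpow_sub₀ hp0, h2, mul_comm, mul_div_assoc, div_self (zpow_ne_zero _ hp0), mul_one]
  have hi0' : i0 ≤ m := Nat.lt_succ_iff.mp (Finset.mem_range.mp hi0)
  have hi1' : i1 ≤ m := Nat.lt_succ_iff.mp (Finset.mem_range.mp hi1)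
  rcases lt_or_gt_of_ne hne with h | h
  · exact key i1 i0 h heq rfl hi0'
  · exact key i0 i1 h rfl heq hi1'

/-- no element of degree less than `e` over `K` can have `|x|^e = |π|⁻¹` -/
theorem not_tot_ram_K (v : Valuation E Γ₀) {π : Γ₀} (hp0 : π ≠ 0) (hp1 : π < 1)
    (hK : ∀ r : K, r ≠ 0 → ∃ j : ℤ, v (algebraMap K E r) = π ^ j)
    {x : E} (hint : IsIntegral K x) {e : ℕ}
    (he : (minpoly K x).natDegree < e) : v x ^ e * π ≠ 1 := by
  intro hcon
  have hcon' : v x ^ e = π⁻¹ := eq_inv_of_mul_eq_one_left hcon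
  have hx : x ≠ 0 := by
    rintro rfl
    rw [map_zero, zero_pow (by omega)] at hcon'
    exact inv_ne_zero hp0 hcon'.symm
  obtain ⟨f, hf1, hf2, j, hj⟩ := ram_exponent_K v hp0 hK hx hint
  have h1 : π ^ (-(f : ℤ)) = π ^ (j * e) := by
    rw [zpow_neg, zpow_natCast, ← inv_pow, ← hcon', ← pow_mul, mul_comm e f, pow_mul, hj,
      zpow_mul, zpow_natCast]
  have hinj : Injective (fun z : ℤ => π ^ z) := by
    have hpos : 0 < π := zero_lt_iff.mpr hp0
    exact (zpow_right_strictAnti₀ hpos hp1).injective
  have h2 : -(f : ℤ) = j * e := hinj h1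
  have h3 : (e : ℤ) ∣ (f : ℤ) := by
    refine ⟨-j, ?_⟩
    linear_combination -h2
  have h4 : e ∣ f := by exact_mod_cast h3
  have := Nat.le_of_dvd (by omega) h4
  omega

end Ram

section Orbit

variable {L : Type*} [Field L] {Γ₀ : Type*} [LinearOrderedCommGroupWithZero Γ₀]

/-- the size of the orbits when the constant term is the only nonintegral coefficient -/
theorem const_pole_size (v : Valuation L Γ₀) (F : L[X]) {d : ℕ} (hd : 2 ≤ d)
    (hdeg : F.natDegree = d) (hint : ∀ i, 1 ≤ i → v (F.coeff i) ≤ 1) (hlead : v (F.coeff d) = 1)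
    (h0 : 1 < v (F.coeff 0)) {δ : L} (hδ : v δ ≤ 1) (x : ℕ → L)
    (hrec : ∀ k, F.eval (x (k + 1)) = x (k + 2) + δ * x k) {n : ℕ} (hn : 0 < n)
    (hper : ∀ k, x (k + n) = x k) (k : ℕ) : v (x k) ^ d = v (F.coeff 0) := by
  set A := v (F.coeff 0) with hA
  obtain ⟨m, hm⟩ := exists_max_periodic (fun k => v (x k)) hn (fun k => by simp only [hper k])
  set ρ := v (x (m + 1)) with hρ
  replace hm : ∀ k, v (x k) ≤ ρ := hm
  have hA0 : 0 < A := zero_lt_one.trans h0
  have hevle : ∀ k, v (F.eval (x (k + 1))) ≤ ρ := by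
    intro k
    rw [hrec]
    refine (v.map_add _ _).trans (max_le (hm _) ?_)
    rw [map_mul]
    calc v δ * v (x k) ≤ 1 * ρ := mul_le_mul' hδ (hm _)
      _ = ρ := one_mul _
  have hsplit : ∀ y : L, F.eval y = ∑ i ∈ Finset.range d, F.coeff i * y ^ i +
      F.coeff d * y ^ d := by
    intro y
    rw [eval_eq_sum_range, hdeg, Finset.sum_range_succ]
  have hρA : ρ ^ d ≤ A := by
    by_contra hcon
    push Not at hcon
    have hρ1 : 1 < ρ := by
      by_contra h
      push Not at h
      exact absurd (h0.trans hcon) (not_lt.mpr (pow_le_one' h d))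
    have h1 : v (∑ i ∈ Finset.range d, F.coeff i * x (m + 1) ^ i) < ρ ^ d := by
      refine v.map_sum_lt (hA0.trans hcon).ne' fun i hi => ?_
      have hid := Finset.mem_range.mp hi
      rw [map_mul, map_pow, ← hρ]
      rcases Nat.eq_zero_or_pos i with rfl | hi0
      · rw [pow_zero, mul_one]; exact hcon
      · calc v (F.coeff i) * ρ ^ i ≤ 1 * ρ ^ i := mul_le_mul' (hint i hi0) le_rfl
          _ = ρ ^ i := one_mul _
          _ < ρ ^ d := pow_lt_pow_right₀ hρ1 hid
    have h2 : v (F.coeff d * x (m + 1) ^ d) = ρ ^ d := by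
      rw [map_mul, map_pow, hlead, one_mul]
    have h3 : v (F.eval (x (m + 1))) = ρ ^ d := by
      rw [hsplit, Valuation.map_add_eq_of_lt_right _ (by rw [h2]; exact h1), h2]
    have h4 := hevle m
    rw [h3] at h4
    exact absurd h4 (not_le.mpr (lt_self_pow₀ hρ1 (by omega)))
  have hge : ∀ k, A ≤ v (x (k + 1)) ^ d := by
    intro k
    by_contra hcon
    push Not at hcon
    have h1 : v (F.eval (x (k + 1))) = A := by
      rw [eval_eq_sum_range, hdeg, Finset.sum_range_succ', pow_zero, mul_one]
      have h2 : v (∑ i ∈ Finset.range d, F.coeff (i + 1) * x (k + 1) ^ (i + 1)) < A := by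
        refine v.map_sum_lt hA0.ne' fun i hi => ?_
        have hid := Finset.mem_range.mp hi
        rw [map_mul, map_pow]
        calc v (F.coeff (i + 1)) * v (x (k + 1)) ^ (i + 1)
            ≤ 1 * v (x (k + 1)) ^ (i + 1) := mul_le_mul' (hint _ (by omega)) le_rfl
          _ = v (x (k + 1)) ^ (i + 1) := one_mul _
          _ < A := by
              rcases le_or_gt (v (x (k + 1))) 1 with h3 | h3
              · exact (pow_le_one' h3 _).trans_lt h0
              · exact (pow_le_pow_right₀ h3.le (by omega)).trans_lt hcon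
      rw [Valuation.map_add_eq_of_lt_right _ h2]
    have h2 := hevle k
    rw [h1] at h2
    have h3 : A ^ d ≤ A := (pow_le_pow_left₀ zero_le h2 d).trans hρA
    exact absurd h3 (not_le.mpr (lt_self_pow₀ h0 (by omega)))
  have h5 := hge (k + n - 1)
  have h6 : k + n - 1 + 1 = k + n := by omega
  rw [h6, hper] at h5
  exact le_antisymm ((pow_le_pow_left₀ zero_le (hm k) d).trans hρA) h5

end Orbit

section Global

variable {K : Type*} [Field K] [NumberField K]

/-- if the constant term has a simple pole at a place unramified over `ℚ`, at which everything else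
is integral, then every periodic point has degree at least `d` -/
theorem deg_ge_of_const_pole (F : K[X]) {d : ℕ} (hd : 2 ≤ d) (hF : F.natDegree = d) (δ : K)
    {p : ℕ} (hp : p.Prime) (W : ValuationSubring (AlgebraicClosure K))
    (hW : W.valuation (p : AlgebraicClosure K) < 1) (hdisc : ¬ (p : ℤ) ∣ NumberField.discr K)
    (h0 : W.valuation (algebraMap K (AlgebraicClosure K) (F.coeff 0)) *
      W.valuation (p : AlgebraicClosure K) = 1)
    (hint : ∀ i, 1 ≤ i → W.valuation (algebraMap K (AlgebraicClosure K) (F.coeff i)) ≤ 1)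
    (hlead : W.valuation (algebraMap K (AlgebraicClosure K) (F.coeff d)) = 1)
    (hδ : W.valuation (algebraMap K (AlgebraicClosure K) δ) ≤ 1)
    (P : AlgebraicClosure K × AlgebraicClosure K) {n : ℕ} (hn : 0 < n)
    (hP : (henon F δ)^[n] P = P) :
    d ≤ finrank K (IntermediateField.adjoin K ({P.1, P.2} : Set (AlgebraicClosure K))) := by
  set w := W.valuation with hw
  have hp0 : w (p : AlgebraicClosure K) ≠ 0 := by
    rw [Ne, map_eq_zero]; exact_mod_cast hp.ne_zero
  have h01 : 1 < w (algebraMap K (AlgebraicClosure K) (F.coeff 0)) := by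
    by_contra hle
    push Not at hle
    have := mul_le_mul' hle (le_refl (w (p : AlgebraicClosure K)))
    rw [h0, one_mul] at this
    exact absurd this (not_le.mpr hW)
  rw [henon_eq_hm] at hP
  set G := F.map (algebraMap K (AlgebraicClosure K)) with hG
  set ε := algebraMap K (AlgebraicClosure K) δ with hε
  set x : ℕ → AlgebraicClosure K := fun k => ((hm G ε)^[k] P).1 with hx
  have hrec : ∀ k, G.eval (x (k + 1)) = x (k + 2) + ε * x k := by
    intro k
    have := hm_rec G ε P k
    simp only [hx]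
    rw [this]; ring
  have hper : ∀ k, x (k + n) = x k := fun k => by
    simp only [hx]; rw [hm_periodic hP]
  have hsize := const_pole_size w G hd (by rw [hG, natDegree_map]; exact hF)
    (fun i hi => by rw [hG, coeff_map]; exact hint i hi) (by rw [hG, coeff_map]; exact hlead)
    (by rw [hG, coeff_map]; exact h01) hδ x hrec hn hper 0
  have hx0 : x 0 = P.1 := rfl
  rw [hx0, hG, coeff_map] at hsize
  have hint' : IsIntegral K P.1 := Algebra.IsIntegral.isIntegral P.1
  have h1 : P.1 ∈ IntermediateField.adjoin K ({P.1, P.2} : Set (AlgebraicClosure K)) :=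
    IntermediateField.subset_adjoin K _ (by simp)
  have hfd : FiniteDimensional K
      (IntermediateField.adjoin K ({P.1, P.2} : Set (AlgebraicClosure K))) := by
    apply IntermediateField.finiteDimensional_adjoin
    intro x _
    exact Algebra.IsIntegral.isIntegral x
  have h2 : (minpoly K P.1).natDegree ≤
      finrank K (IntermediateField.adjoin K ({P.1, P.2} : Set (AlgebraicClosure K))) := by
    have h3 := minpoly.natDegree_le (A := K)
      (⟨P.1, h1⟩ : IntermediateField.adjoin K ({P.1, P.2} : Set (AlgebraicClosure K)))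
    have h4 : minpoly K (⟨P.1, h1⟩ :
        IntermediateField.adjoin K ({P.1, P.2} : Set (AlgebraicClosure K))) = minpoly K P.1 :=
      (minpoly.algebraMap_eq (algebraMap
        (IntermediateField.adjoin K ({P.1, P.2} : Set (AlgebraicClosure K)))
        (AlgebraicClosure K)).injective _).symm
    rwa [h4] at h3
  refine le_trans ?_ h2
  by_contra hcon
  push Not at hcon
  refine not_tot_ram_K w hp0 hW (fun r hr => val_pow_of_unram W hp hW hdisc r hr) hint' hcon ?_
  rw [hsize]
  exact h0

end Global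

end Pool.Agent.H.MP_0e6b5f_nt.H52
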