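import Pool.Agent.H.MP_0e6b5f_nt.Defs

/-!
# Rational numbers of bounded height, and the conclusion of uniform boundedness
-/

namespace Pool.Agent.H.MP_0e6b5f_nt.H52

open Polynomial Module

/-- the rational numbers of height at most `H` -/
def ratBox (H : ℕ) : Set ℚ := {t | |t.num| ≤ (H : ℤ) ∧ t.den ≤ H}

/-- every periodic point `P` of the Henon map `(x, y) ↦ (y, F(y) - δ x)` with `[K(P) : K] ≤ B` has
exact period at most `B [K : ℚ]`, and the number of these points is at most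
`∑ d ^ s`, `1 ≤ s ≤ B [K : ℚ]`, where `d = deg F` -/
def ShortPeriods {K : Type*} [Field K] [NumberField K] (F : K[X]) (δ : K) (B : ℕ) : Prop :=
  (∀ P ∈ perLE F δ B, ∃ s, 1 ≤ s ∧ s ≤ B * finrank ℚ K ∧ (henon F δ)^[s] P = P) ∧
  (perLE F δ B).encard ≤ ∑ s ∈ Finset.Icc 1 (B * finrank ℚ K), F.natDegree ^ s

end Pool.Agent.H.MP_0e6b5f_nt.H52
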