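import Pool.Agent.H.MP_0e6b5f_nt.H52.Loc2

/-!
# Orbits of a Henon map at a place where the Jacobian has a simple pole: the period bound
-/

namespace Pool.Agent.H.MP_0e6b5f_nt.H52

open Polynomial Function Module

section

variable {L : Type*} [Field L] {Γ₀ : Type*} [LinearOrderedCommGroupWithZero Γ₀]

theorem digits_inj (v : Valuation L Γ₀) {π : L} (hπ0 : π ≠ 0) (hπ : v π < 1)
    (s : IsLocalRing.ResidueField v.valuationSubring → v.valuationSubring)
    (hs : ∀ c, IsLocalRing.residue v.valuationSubring (s c) = c) :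
    ∀ (m : ℕ) (c c' : ℕ → IsLocalRing.ResidueField v.valuationSubring),
      v (∑ j ∈ Finset.range m, ((s (c j) : L) - (s (c' j) : L)) * π ^ j) ≤ v π ^ m →
      ∀ j, j < m → c j = c' j := by
  intro m
  induction m with
  | zero => intro c c' _ j hj; exact absurd hj (Nat.not_lt_zero _)
  | succ m ih =>
    intro c c' h j hj
    have hint : ∀ a : v.valuationSubring, v (a : L) ≤ 1 := fun a => a.2
    have hdiff : ∀ i, v ((s (c i) : L) - (s (c' i) : L)) ≤ 1 := fun i =>
      (v.map_sub _ _).trans (max_le (hint _) (hint _))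
    have e : ∑ j ∈ Finset.range (m + 1), ((s (c j) : L) - (s (c' j) : L)) * π ^ j =
        ((s (c 0) : L) - (s (c' 0) : L)) +
        π * ∑ j ∈ Finset.range m, ((s (c (j + 1)) : L) - (s (c' (j + 1)) : L)) * π ^ j := by
      rw [Finset.sum_range_succ', Finset.mul_sum, pow_zero, mul_one, add_comm]
      congr 1
      exact Finset.sum_congr rfl fun i _ => by ring
    have hvπ : 0 < v π := zero_lt_iff.mpr ((map_ne_zero v).mpr hπ0)
    have hS : v (∑ j ∈ Finset.range m, ((s (c (j + 1)) : L) - (s (c' (j + 1)) : L)) * π ^ j)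
        ≤ 1 := by
      refine v.map_sum_le fun i _ => ?_
      rw [map_mul, map_pow]
      exact mul_le_one' (hdiff _) (pow_le_one' hπ.le _)
    have h0 : v ((s (c 0) : L) - (s (c' 0) : L)) < 1 := by
      have e2 : ((s (c 0) : L) - (s (c' 0) : L)) =
          (∑ j ∈ Finset.range (m + 1), ((s (c j) : L) - (s (c' j) : L)) * π ^ j) -
          π * ∑ j ∈ Finset.range m, ((s (c (j + 1)) : L) - (s (c' (j + 1)) : L)) * π ^ j := by
        rw [e]; ring
      rw [e2]
      refine v.map_sub_lt ?_ ?_
      · refine h.trans_lt ?_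
        exact pow_lt_one₀ zero_le hπ (by omega)
      · rw [map_mul]
        calc _ ≤ v π * 1 := mul_le_mul' le_rfl hS
          _ < 1 := by rwa [mul_one]
    have hc0 : c 0 = c' 0 := by
      have h1 : red v (s (c 0) : L) = red v (s (c' 0) : L) := by
        rw [red_eq_iff v (hint _) (hint _)]; exact h0
      rw [red_of_le v (hint _), red_of_le v (hint _)] at h1
      have h2 : ∀ a : v.valuationSubring, (⟨(a : L), hint a⟩ : v.valuationSubring) = a :=
        fun a => rfl
      rw [h2, h2, hs, hs] at h1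
      exact h1
    rcases Nat.eq_zero_or_pos j with rfl | hj0
    · exact hc0
    obtain ⟨i, rfl⟩ : ∃ i, j = i + 1 := ⟨j - 1, by omega⟩
    refine ih (fun k => c (k + 1)) (fun k => c' (k + 1)) ?_ i (by omega)
    rw [e, hc0, sub_self, zero_add, map_mul, pow_succ'] at h
    exact le_of_mul_le_mul_left h hvπ

theorem ram_card [CharZero L] [Algebra ℚ L] [FiniteDimensional ℚ L] (v : Valuation L Γ₀)
    {p : ℕ} (hp : p.Prime) {π : L} (hπ0 : π ≠ 0) (hπ : v π < 1) {m : ℕ}
    (hm : v π ^ m = v (p : L)) :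
    Nat.card (IsLocalRing.ResidueField v.valuationSubring) ^ m ≤ p ^ (finrank ℚ L) := by
  classical
  obtain ⟨hfin, hcard⟩ := quot_p_card (v.valuationSubring.subtype) Subtype.val_injective hp
  refine le_trans ?_ hcard
  have hlift : ∀ c : IsLocalRing.ResidueField v.valuationSubring,
      ∃ r : v.valuationSubring, IsLocalRing.residue v.valuationSubring r = c :=
    fun c => IsLocalRing.residue_surjective c
  choose s hs using hlift
  set πR : v.valuationSubring := ⟨π, hπ.le⟩ with hπR
  let ext : (Fin m → IsLocalRing.ResidueField v.valuationSubring) → ℕ →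
      IsLocalRing.ResidueField v.valuationSubring := fun c j => if h : j < m then c ⟨j, h⟩ else 0
  have hinj : Function.Injective
      (fun c : Fin m → IsLocalRing.ResidueField v.valuationSubring =>
        Ideal.Quotient.mk (Ideal.span {(p : v.valuationSubring)})
          (∑ j ∈ Finset.range m, s (ext c j) * πR ^ j)) := by
    intro c c' hcc
    simp only at hcc
    rw [Ideal.Quotient.mk_eq_mk_iff_sub_mem, Ideal.mem_span_singleton] at hcc
    obtain ⟨r, hr⟩ := hcc
    have h1 : v (∑ j ∈ Finset.range m, ((s (ext c j) : L) - (s (ext c' j) : L)) * π ^ j) ≤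
        v π ^ m := by
      have h2 : ∑ j ∈ Finset.range m, ((s (ext c j) : L) - (s (ext c' j) : L)) * π ^ j =
          (p : L) * (r : L) := by
        have h3 := congrArg (v.valuationSubring.subtype) hr
        rw [map_sub, map_sum, map_sum, map_mul, map_natCast] at h3
        rw [ValuationSubring.subtype_apply] at h3
        rw [← h3, ← Finset.sum_sub_distrib]
        refine Finset.sum_congr rfl fun i _ => ?_
        rw [map_mul, map_mul, map_pow]
        simp only [ValuationSubring.subtype_apply, hπR]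
        ring
      rw [h2, map_mul, hm]
      calc v (p : L) * v (r : L) ≤ v (p : L) * 1 := mul_le_mul' le_rfl r.2
        _ = v (p : L) := mul_one _
    have h4 := digits_inj v hπ0 hπ s hs m (ext c) (ext c') h1
    funext i
    have h5 := h4 i i.2
    simp only [ext, i.2, dif_pos] at h5
    exact h5
  have h6 := Nat.card_le_card_of_injective _ hinj
  rw [Nat.card_fun, Nat.card_fin] at h6
  exact h6

/-- **Local period bound.** Let `p` be a prime with `p ≡ d mod (d^n - 1)`, `p > d^n`, let `F` have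
degree `d ≥ 2`, integral coefficients and unit leading coefficient, and let `δ` have the absolute
value of `1/p`. Then every point `P` with `f^n(P) = P` over a field of degree `N` over `ℚ` has
exact period at most `N`. -/
theorem local_twist [CharZero L] [Algebra ℚ L] [FiniteDimensional ℚ L] (v : Valuation L Γ₀)
    {p : ℕ} (hp : p.Prime) (hpv : v (p : L) < 1) {d n : ℕ} (hd : 2 ≤ d) (hn : 0 < n)
    (hpn : d ^ n < p) (hmod : (d ^ n - 1) ∣ (p - d)) (F : L[X]) (δ : L)
    (hF : UnitLead v F d) (hδ : v δ * v (p : L) = 1) (P : L × L)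
    (hP : (hm F δ)^[n] P = P) :
    ∃ s, 0 < s ∧ s ≤ finrank ℚ L ∧ (hm F δ)^[s] P = P := by
  have hp0 : v (p : L) ≠ 0 := by
    intro h; rw [h, mul_zero] at hδ; exact zero_ne_one hδ
  have hδ0 : δ ≠ 0 := by
    rintro rfl; rw [map_zero, zero_mul] at hδ; exact zero_ne_one hδ
  have hvε : v δ⁻¹ = v (p : L) := by
    rw [map_inv₀]; exact (eq_inv_of_mul_eq_one_right hδ).symm
  have hfp : 0 < finrank ℚ L := finrank_pos
  set Q := P.swap with hQ
  have hQn : (hm (C δ⁻¹ * F) δ⁻¹)^[n] Q = Q := hm_inv_fix F δ hδ0 hP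
  set x : ℕ → L := fun k => ((hm (C δ⁻¹ * F) δ⁻¹)^[k] Q).1 with hx
  have hxQ : ∀ k, (hm (C δ⁻¹ * F) δ⁻¹)^[k] Q = (x k, x (k + 1)) := fun k => hm_seq _ _ Q k
  have hrec : ∀ k, x (k + 2) = δ⁻¹ * (F.eval (x (k + 1)) - x k) := by
    intro k
    have := hm_rec (C δ⁻¹ * F) δ⁻¹ Q k
    simp only [hx]
    rw [this, eval_mul, eval_C]; ring
  have hper : ∀ k, x (k + n) = x k := fun k => by
    simp only [hx]; rw [hm_periodic hQn]
  have hback : ∀ s, (∀ k, x (k + s) = x k) → (hm F δ)^[s] P = P := by
    intro s hs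
    rw [← hm_inv_fix_iff F δ hδ0, ← hQ, hxQ]
    have h0 := hxQ 0
    rw [iterate_zero, id_eq, zero_add] at h0
    conv_rhs => rw [h0]
    have h1 := hs 0
    have h2 := hs 1
    rw [zero_add] at h1
    rw [add_comm 1 s] at h2
    rw [h1, h2]
  have hε1 : v δ⁻¹ < 1 := by rw [hvε]; exact hpv
  rcases size_dichotomy hF hd hrec hn hper with hsmall | hlarge
  · refine ⟨1, one_pos, hfp, hback 1 fun k => ?_⟩
    exact const_of_integral hF hε1 hrec hn hper hsmall k
  · have H : Large v F d δ⁻¹ x n :=
      ⟨hF, hd, hε1, hrec, hn, hper, fun k => (hlarge k).1, fun k => (hlarge k).2⟩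
    obtain ⟨hfk, hchar, f, hf1, _, hcard⟩ := residue_card v hp hpv
    have hdp : d ≤ p := (le_self_pow₀ (by omega) (by omega)).trans hpn.le
    refine ⟨f * (d - 1), Nat.mul_pos hf1 (by omega), ?_, hback _ fun k => ?_⟩
    · have hπ0 : (x 0)⁻¹ ≠ 0 := inv_ne_zero (H.ne 0)
      have hπ : v (x 0)⁻¹ < 1 := by
        rw [map_inv₀]
        exact inv_lt_one_of_one_lt₀ (H.large 0)
      have hm : v (x 0)⁻¹ ^ (d - 1) = v (p : L) := by
        rw [map_inv₀, inv_pow, ← hvε]
        exact (eq_inv_of_mul_eq_one_left (H.size 0)).symm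
      have h1 := ram_card v hp hπ0 hπ hm
      rw [hcard, ← pow_mul] at h1
      exact (Nat.pow_le_pow_iff_right hp.one_lt).mp h1
    · exact H.eq_shift (p := p) hpn (f * (d - 1)) (H.red_shift hdp hmod hcard) k

end

end Pool.Agent.H.MP_0e6b5f_nt.H52
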