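import Pool.Agent.H.MP_0e6b5f_nt.LocalPlace
import Pool.Agent.H.MP_0e6b5f_nt.DensRam
import Pool.Agent.H.MP_0e6b5f_nt.H52.Loc3

/-!
# Twists of a Henon map by a rational number with a simple pole at a suitable prime
-/

namespace Pool.Agent.H.MP_0e6b5f_nt.H52

open Polynomial Function Module

theorem val_le_one_of_integral {E : Type*} [Field E] {Γ₀ : Type*}
    [LinearOrderedCommGroupWithZero Γ₀] (v : Valuation E Γ₀) {z : E} (hz : IsIntegral ℤ z) :
    v z ≤ 1 := by
  have h1 : IsIntegral v.integer z := hz.tower_top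
  exact (Valuation.integer.integers v).mem_of_integral h1

section

variable {K : Type*} [Field K] [NumberField K]

/-- a nonzero element of a number field is a unit above almost all primes -/
theorem exists_bad (x : K) (hx : x ≠ 0) : ∃ m : ℕ, m ≠ 0 ∧ ∀ p : ℕ, p.Prime → ¬ p ∣ m →
    ∀ W : ValuationSubring (AlgebraicClosure K), W.valuation (p : AlgebraicClosure K) < 1 →
      W.valuation (algebraMap K (AlgebraicClosure K) x) = 1 := by
  have halg : ∀ z : K, IsAlgebraic ℤ z := fun z =>
    (IsFractionRing.isAlgebraic_iff ℤ ℚ K).mpr (Algebra.IsAlgebraic.isAlgebraic z)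
  obtain ⟨y, hy0, hy⟩ := (halg x).exists_integral_multiple
  obtain ⟨y', hy0', hy'⟩ := (halg x⁻¹).exists_integral_multiple
  refine ⟨(y * y').natAbs, ?_, ?_⟩
  · rw [Ne, Int.natAbs_eq_zero]; exact mul_ne_zero hy0 hy0'
  · intro p hp hpm W hW
    have hdvd : ¬ (p : ℤ) ∣ y * y' := by
      intro h; apply hpm
      exact Int.natCast_dvd.mp h
    have h1 : ¬ (p : ℤ) ∣ y := fun h => hdvd (h.mul_right _)
    have h2 : ¬ (p : ℤ) ∣ y' := fun h => hdvd (h.mul_left _)
    have key : ∀ (z : K) (c : ℤ), ¬ (p : ℤ) ∣ c → IsIntegral ℤ (c • z) →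
        W.valuation (algebraMap K (AlgebraicClosure K) z) ≤ 1 := by
      intro z c hc hint
      have h3 : W.valuation (algebraMap K (AlgebraicClosure K) (c • z)) ≤ 1 :=
        val_le_one_of_integral W.valuation (hint.map (algebraMap K (AlgebraicClosure K)).toIntAlgHom)
      rw [zsmul_eq_mul, map_mul, map_intCast, map_mul, val_int_eq_one W.valuation hp hW hc,
        one_mul] at h3
      exact h3
    apply le_antisymm (key x y h1 hy)
    have h4 := key x⁻¹ y' h2 hy'
    rw [map_inv₀, map_inv₀] at h4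
    have h5 : 0 < W.valuation (algebraMap K (AlgebraicClosure K) x) := by
      rw [zero_lt_iff, Ne, map_eq_zero, map_eq_zero]; exact hx
    exact (inv_le_one₀ h5).mp h4

theorem exists_bad_finset (T : Finset K) (hT : ∀ x ∈ T, x ≠ 0) : ∃ m : ℕ, m ≠ 0 ∧
    ∀ p : ℕ, p.Prime → ¬ p ∣ m →
    ∀ W : ValuationSubring (AlgebraicClosure K), W.valuation (p : AlgebraicClosure K) < 1 →
      ∀ x ∈ T, W.valuation (algebraMap K (AlgebraicClosure K) x) = 1 := by
  classical
  induction T using Finset.induction_on with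
  | empty => exact ⟨1, one_ne_zero, fun _ _ _ _ _ x hx => absurd hx (Finset.notMem_empty x)⟩
  | insert a T ha ih =>
    obtain ⟨m, hm0, hm⟩ := ih fun x hx => hT x (Finset.mem_insert_of_mem hx)
    obtain ⟨m', hm0', hm'⟩ := exists_bad a (hT a (Finset.mem_insert_self a T))
    refine ⟨m' * m, mul_ne_zero hm0' hm0, fun p hp hpm W hW x hx => ?_⟩
    rcases Finset.mem_insert.mp hx with rfl | hx
    · exact hm' p hp (fun h => hpm (h.mul_right _)) W hW
    · exact hm p hp (fun h => hpm (h.mul_left _)) W hW x hx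

/-- the coefficients of `F` are integral and the leading one is a unit above almost all primes -/
theorem exists_good_poly (F : K[X]) {d : ℕ} (hF : F.natDegree = d) (hd : 0 < d) (δ : K)
    (hδ : δ ≠ 0) : ∃ m : ℕ, m ≠ 0 ∧ ∀ p : ℕ, p.Prime → ¬ p ∣ m →
    ∀ W : ValuationSubring (AlgebraicClosure K), W.valuation (p : AlgebraicClosure K) < 1 →
      UnitLead W.valuation (F.map (algebraMap K (AlgebraicClosure K))) d ∧
      W.valuation (algebraMap K (AlgebraicClosure K) δ) = 1 := by
  classical
  have hF0 : F ≠ 0 := by rintro rfl; rw [natDegree_zero] at hF; omega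
  obtain ⟨m, hm0, hm⟩ := exists_bad_finset
    (insert δ ((Finset.range (d + 1)).image F.coeff |>.filter (· ≠ 0))) (by
      intro x hx
      rcases Finset.mem_insert.mp hx with rfl | hx
      · exact hδ
      · exact (Finset.mem_filter.mp hx).2)
  refine ⟨m, hm0, fun p hp hpm W hW => ?_⟩
  have h1 := hm p hp hpm W hW
  have hc : ∀ i, F.coeff i ≠ 0 →
      W.valuation (algebraMap K (AlgebraicClosure K) (F.coeff i)) = 1 := by
    intro i hi
    apply h1
    apply Finset.mem_insert_of_mem
    rw [Finset.mem_filter, Finset.mem_image]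
    refine ⟨⟨i, Finset.mem_range.mpr ?_, rfl⟩, hi⟩
    have := le_natDegree_of_ne_zero hi
    omega
  refine ⟨⟨by rw [natDegree_map]; exact hF, fun i => ?_, ?_⟩, h1 δ (Finset.mem_insert_self _ _)⟩
  · rw [coeff_map]
    by_cases hi : F.coeff i = 0
    · rw [hi, map_zero, map_zero]; exact zero_le
    · exact (hc i hi).le
  · rw [coeff_map]
    apply hc
    rw [← hF, coeff_natDegree, Ne, leadingCoeff_eq_zero]
    exact hF0

/-- for a given `F` one iterate fixes all the periodic points of bounded degree, whatever the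
Jacobian -/
theorem exists_uniform_iterate (F : K[X]) {d : ℕ} (hF : F.natDegree = d) (hd : 2 ≤ d) (B : ℕ) :
    ∃ M : ℕ, 0 < M ∧ ∀ δ : K, δ ≠ 0 → ∀ P ∈ perLE F δ B, (henon F δ)^[M] P = P := by
  obtain ⟨m, hm0, hm⟩ := exists_good_poly F hF (by omega) (1 : K) one_ne_zero
  obtain ⟨p, hpm, hp⟩ := Nat.exists_infinite_primes (m + 1)
  obtain ⟨W, hW⟩ := exists_valuation_above (K := K) hp
  have hpm' : ¬ p ∣ m := fun h => by
    have := Nat.le_of_dvd (Nat.pos_of_ne_zero hm0) h
    omega
  obtain ⟨hU, -⟩ := hm p hp hpm' W hW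
  refine ⟨bigM (p ^ (2 * (B * finrank ℚ K))), bigM_pos _, ?_⟩
  rintro δ hδ P ⟨⟨n, hn, hPn⟩, hPB⟩
  have hN : finrank ℚ K *
      finrank K (IntermediateField.adjoin K ({P.1, P.2} : Set (AlgebraicClosure K))) ≤
      B * finrank ℚ K := by
    rw [mul_comm]; exact Nat.mul_le_mul hPB le_rfl
  set G := F.map (algebraMap K (AlgebraicClosure K)) with hG
  have hlead : W.valuation G.leadingCoeff = 1 := by
    rw [leadingCoeff, hU.deg]; exact hU.lead
  have hΔ : (1 : W.ValueGroup) ≤
      max 1 (W.valuation (algebraMap K (AlgebraicClosure K) δ)) := le_max_left _ _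
  have hcomp : G.comp (X + C (0 : AlgebraicClosure K)) = G := by rw [C_0, add_zero, comp_X]
  obtain ⟨ρ, hρ⟩ := goodCond_of_coeff W.valuation G
      (algebraMap K (AlgebraicClosure K) δ) hd hU.deg 0 (by
        intro i hi1 hid
        rw [hcomp, hlead, one_pow, one_mul]
        exact (pow_le_one' (hU.int i) _).trans (one_le_pow₀ hΔ)) (by
        rw [mul_zero, sub_zero, hlead, mul_one]
        refine (pow_le_one' ?_ _).trans (one_le_pow₀ hΔ)
        exact hU.val_eval_le_one (by rw [map_zero]; exact zero_le))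
  exact point_period_good W.valuation hp hW hd F δ hδ P hN 0 ρ hρ hn hPn

/-- descent of a point to the field generated by its coordinates, in the situation of
`local_twist` -/
theorem point_twist (F : K[X]) {d n : ℕ} (hd : 2 ≤ d) (δ : K)
    {p : ℕ} (hp : p.Prime) (W : ValuationSubring (AlgebraicClosure K))
    (hW : W.valuation (p : AlgebraicClosure K) < 1)
    (hF : UnitLead W.valuation (F.map (algebraMap K (AlgebraicClosure K))) d)
    (hδ : W.valuation (algebraMap K (AlgebraicClosure K) δ) *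
      W.valuation (p : AlgebraicClosure K) = 1) (hn : 0 < n) (hpn : d ^ n < p)
    (hmod : (d ^ n - 1) ∣ (p - d)) (P : AlgebraicClosure K × AlgebraicClosure K)
    (hP : (henon F δ)^[n] P = P) :
    ∃ s, 0 < s ∧ s ≤ finrank ℚ K *
      finrank K (IntermediateField.adjoin K ({P.1, P.2} : Set (AlgebraicClosure K))) ∧
      (henon F δ)^[s] P = P := by
  set L := IntermediateField.adjoin K ({P.1, P.2} : Set (AlgebraicClosure K)) with hL
  have hfd : FiniteDimensional K L := by
    apply IntermediateField.finiteDimensional_adjoin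
    intro x _
    exact Algebra.IsIntegral.isIntegral x
  have hcz : CharZero L := charZero_of_injective_algebraMap (algebraMap K L).injective
  have hfdQ : FiniteDimensional ℚ L := FiniteDimensional.trans ℚ K L
  have h1 : P.1 ∈ L := IntermediateField.subset_adjoin K _ (by simp)
  have h2 : P.2 ∈ L := IntermediateField.subset_adjoin K _ (by simp)
  set Q : L × L := (⟨P.1, h1⟩, ⟨P.2, h2⟩) with hQ
  have hc := hm_map (algebraMap L (AlgebraicClosure K)) (F.map (algebraMap K L))
    (algebraMap K L δ)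
  rw [Polynomial.map_map, ← IsScalarTower.algebraMap_eq K L (AlgebraicClosure K),
    ← IsScalarTower.algebraMap_apply K L (AlgebraicClosure K), ← henon_eq_hm] at hc
  have hinj : Injective (Prod.map (algebraMap L (AlgebraicClosure K))
      (algebraMap L (AlgebraicClosure K))) :=
    (algebraMap L (AlgebraicClosure K)).injective.prodMap
      (algebraMap L (AlgebraicClosure K)).injective
  have hPQ : P = Prod.map (algebraMap L (AlgebraicClosure K))
      (algebraMap L (AlgebraicClosure K)) Q := rfl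
  rw [hPQ, Semiconj.iterate_eq hc hinj] at hP
  set v := W.valuation.comap (algebraMap L (AlgebraicClosure K)) with hv
  have hpv : v (p : L) = W.valuation (p : AlgebraicClosure K) := by
    rw [hv, Valuation.comap_apply, map_natCast]
  have hcv : ∀ z : K, v (algebraMap K L z) =
      W.valuation (algebraMap K (AlgebraicClosure K) z) := by
    intro z
    rw [hv, Valuation.comap_apply, ← IsScalarTower.algebraMap_apply]
  have hU : UnitLead v (F.map (algebraMap K L)) d := by
    refine ⟨?_, fun i => ?_, ?_⟩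
    · rw [natDegree_map]
      have := hF.deg
      rwa [natDegree_map] at this
    · rw [coeff_map, hcv, ← coeff_map]; exact hF.int i
    · rw [coeff_map, hcv, ← coeff_map]; exact hF.lead
  obtain ⟨s, hs0, hs1, hs⟩ := local_twist v hp (by rw [hpv]; exact hW) hd hn hpn hmod
    (F.map (algebraMap K L)) (algebraMap K L δ) hU (by rw [hcv, hpv]; exact hδ) Q hP
  refine ⟨s, hs0, ?_, ?_⟩
  · rw [Module.finrank_mul_finrank ℚ K L]; exact hs1
  · rw [hPQ, Semiconj.iterate_eq hc hinj]; exact hs

/-- valuation of a rational number with a simple pole at `p` -/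
theorem val_simple_pole {E : Type*} [Field E] [CharZero E] {Γ₀ : Type*}
    [LinearOrderedCommGroupWithZero Γ₀] (w : Valuation E Γ₀) {p : ℕ} (hp : p.Prime)
    (hw : w (p : E) < 1) {t : ℚ} (hpt : p ∣ t.den) (hpt2 : ¬ p ^ 2 ∣ t.den) :
    w (t : E) * w (p : E) = 1 := by
  obtain ⟨c, hc⟩ := hpt
  have hpc : ¬ (p : ℤ) ∣ (c : ℤ) := by
    intro h
    have h1 : p ∣ c := by exact_mod_cast h
    apply hpt2
    rw [hc, pow_two]
    exact Nat.mul_dvd_mul_left p h1
  have hpnum : ¬ (p : ℤ) ∣ t.num := by
    intro h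
    have h1 : p ∣ t.num.natAbs := Int.natCast_dvd.mp h
    have h2 : p ∣ t.den := by rw [hc]; exact dvd_mul_right p c
    have h3 := Nat.dvd_gcd h1 h2
    have h4 : Nat.gcd t.num.natAbs t.den = 1 := t.reduced
    rw [h4] at h3
    exact hp.one_lt.ne' (Nat.dvd_one.mp h3)
  have e2 : (t : E) * (p : E) * ((c : ℤ) : E) = ((t.num : ℤ) : E) := by
    have h5 : t * (t.den : ℚ) = t.num := Rat.mul_den_eq_num t
    rw [hc] at h5
    push_cast at h5
    have h6 : ((t * ((p : ℚ) * (c : ℚ)) : ℚ) : E) = ((t.num : ℚ) : E) := by rw [h5]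
    push_cast at h6
    rw [Int.cast_natCast, mul_assoc]
    exact h6
  have h7 := congrArg w e2
  rw [map_mul, map_mul, val_int_eq_one w hp hw hpc, val_int_eq_one w hp hw hpnum, mul_one] at h7
  exact h7

/-- a rational number without a pole at `p` is integral at `p` -/
theorem val_no_pole {E : Type*} [Field E] [CharZero E] {Γ₀ : Type*}
    [LinearOrderedCommGroupWithZero Γ₀] (w : Valuation E Γ₀) {p : ℕ} (hp : p.Prime)
    (hw : w (p : E) < 1) {t : ℚ} (hpt : ¬ p ∣ t.den) : w (t : E) ≤ 1 := by
  have e2 : (t : E) * ((t.den : ℤ) : E) = ((t.num : ℤ) : E) := by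
    have h5 : t * (t.den : ℚ) = t.num := Rat.mul_den_eq_num t
    have h6 : ((t * (t.den : ℚ) : ℚ) : E) = ((t.num : ℚ) : E) := by rw [h5]
    push_cast at h6
    rw [Int.cast_natCast]
    exact h6
  have h7 := congrArg w e2
  rw [map_mul, val_int_eq_one w hp hw (by exact_mod_cast hpt), mul_one] at h7
  rw [h7]
  exact val_int_le_one w _

/-- **Lines of Jacobians with a simple pole at a suitable prime.** -/
theorem twist_good (F : K[X]) {d : ℕ} (hF : F.natDegree = d) (hd : 2 ≤ d) (δ c : K) (hδ : δ ≠ 0)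
    (B : ℕ) : ∃ q m : ℕ, 0 < q ∧ d.Coprime q ∧ ∀ p : ℕ, p.Prime → p ≡ d [MOD q] → m < p →
      ∀ t : ℚ, p ∣ t.den → ¬ p ^ 2 ∣ t.den → ∀ P ∈ perLE F ((t : K) * δ + c) B,
        ∃ s, 0 < s ∧ s ≤ B * finrank ℚ K ∧ (henon F ((t : K) * δ + c))^[s] P = P := by
  obtain ⟨M, hM0, hM⟩ := exists_uniform_iterate F hF hd B
  obtain ⟨m1, hm10, hm1⟩ := exists_good_poly F hF (by omega) δ hδ
  obtain ⟨m2, hm20, hm2⟩ : ∃ m : ℕ, m ≠ 0 ∧ ∀ p : ℕ, p.Prime → ¬ p ∣ m →
    ∀ W : ValuationSubring (AlgebraicClosure K), W.valuation (p : AlgebraicClosure K) < 1 →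
      W.valuation (algebraMap K (AlgebraicClosure K) c) ≤ 1 := by
    by_cases hc : c = 0
    · refine ⟨1, one_ne_zero, fun p _ _ W _ => ?_⟩
      rw [hc, map_zero, map_zero]; exact zero_le
    · obtain ⟨m, h0, h⟩ := exists_bad c hc
      exact ⟨m, h0, fun p hp hpm W hW => (h p hp hpm W hW).le⟩
  have hdM : 1 < d ^ M := Nat.one_lt_pow (by omega) (by omega)
  refine ⟨d ^ M - 1, max (d ^ M) (m1 * m2), by omega, ?_, ?_⟩
  · have h1 : Nat.Coprime (d ^ M) (d ^ M - 1) := by
      have := (Nat.coprime_self_sub_right (show 1 ≤ d ^ M by omega)).mpr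
        (Nat.coprime_one_right (d ^ M))
      exact this
    exact Nat.Coprime.coprime_dvd_left (dvd_pow_self d (by omega)) h1
  · intro p hp hpd hmp t hpt hpt2 P hP
    obtain ⟨W, hW⟩ := exists_valuation_above (K := K) hp
    have hdMp : d ^ M < p := lt_of_le_of_lt (le_max_left _ _) hmp
    have hpm' : ¬ p ∣ m1 * m2 := fun h => by
      have := Nat.le_of_dvd (Nat.pos_of_ne_zero (mul_ne_zero hm10 hm20)) h
      have := lt_of_le_of_lt (le_max_right (d ^ M) (m1 * m2)) hmp
      omega
    obtain ⟨hU, hδ1⟩ := hm1 p hp (fun h => hpm' (h.mul_right _)) W hW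
    have hc1 := hm2 p hp (fun h => hpm' (h.mul_left _)) W hW
    have hdp : d ≤ p := (le_self_pow₀ (by omega) (by omega)).trans hdMp.le
    have hmod : (d ^ M - 1) ∣ (p - d) := (Nat.modEq_iff_dvd' hdp).mp hpd.symm
    have hp0 : W.valuation (p : AlgebraicClosure K) ≠ 0 := by
      rw [Ne, map_eq_zero]; exact_mod_cast hp.ne_zero
    have hvt : W.valuation (algebraMap K (AlgebraicClosure K) (t : K)) *
        W.valuation (p : AlgebraicClosure K) = 1 := by
      rw [map_ratCast]
      exact val_simple_pole W.valuation hp hW hpt hpt2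
    have hvtδ : W.valuation (algebraMap K (AlgebraicClosure K) ((t : K) * δ)) *
        W.valuation (p : AlgebraicClosure K) = 1 := by
      rw [map_mul, map_mul, hδ1, mul_one]; exact hvt
    have h1lt : 1 < W.valuation (algebraMap K (AlgebraicClosure K) ((t : K) * δ)) := by
      by_contra hle
      push Not at hle
      have := mul_le_mul' hle (le_refl (W.valuation (p : AlgebraicClosure K)))
      rw [hvtδ, one_mul] at this
      exact absurd this (not_le.mpr hW)
    have hδ' : W.valuation (algebraMap K (AlgebraicClosure K) ((t : K) * δ + c)) *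
        W.valuation (p : AlgebraicClosure K) = 1 := by
      rw [map_add, Valuation.map_add_eq_of_lt_left _ (hc1.trans_lt h1lt)]
      exact hvtδ
    have ht0 : (t : K) * δ + c ≠ 0 := by
      intro h
      rw [h, map_zero, map_zero, zero_mul] at hδ'
      exact zero_ne_one hδ'
    obtain ⟨s, hs0, hs1, hs⟩ := point_twist F hd ((t : K) * δ + c) hp W hW hU hδ' hM0 hdMp hmod P
      (hM _ ht0 P hP)
    refine ⟨s, hs0, hs1.trans ?_, hs⟩
    rw [mul_comm]
    exact Nat.mul_le_mul hP.2 le_rfl

end

end Pool.Agent.H.MP_0e6b5f_nt.H52
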