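import Pool.Agent.H.MP_0e6b5f_nt.Global

/-!
# Orbits of a Henon map at a place where the Jacobian has a simple pole: size of the orbit
-/

namespace Pool.Agent.H.MP_0e6b5f_nt.H52

open Polynomial Function Module

section

variable {L : Type*} [Field L] {Γ₀ : Type*} [LinearOrderedCommGroupWithZero Γ₀]

/-- `F` has degree `d`, `v`-integral coefficients and a unit as leading coefficient -/
structure UnitLead (v : Valuation L Γ₀) (F : L[X]) (d : ℕ) : Prop where
  deg : F.natDegree = d
  int : ∀ i, v (F.coeff i) ≤ 1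
  lead : v (F.coeff d) = 1

theorem UnitLead.sub_lead_lt {v : Valuation L Γ₀} {F : L[X]} {d : ℕ} (h : UnitLead v F d)
    {x : L} (hx : 1 < v x) : v (F.eval x - F.coeff d * x ^ d) < v x ^ d := by
  rw [eval_eq_sum_range, h.deg, Finset.sum_range_succ, add_sub_cancel_right]
  have hpos : 0 < v x := zero_lt_one.trans hx
  refine v.map_sum_lt (pow_pos hpos _).ne' fun i hi => ?_
  have hi' := Finset.mem_range.mp hi
  rw [map_mul, map_pow]
  calc v (F.coeff i) * v x ^ i ≤ 1 * v x ^ i := mul_le_mul' (h.int i) le_rfl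
    _ = v x ^ i := one_mul _
    _ < v x ^ d := pow_lt_pow_right₀ hx hi'

theorem UnitLead.val_lead {v : Valuation L Γ₀} {F : L[X]} {d : ℕ} (h : UnitLead v F d)
    (x : L) : v (F.coeff d * x ^ d) = v x ^ d := by
  rw [map_mul, map_pow, h.lead, one_mul]

theorem UnitLead.val_eval {v : Valuation L Γ₀} {F : L[X]} {d : ℕ} (h : UnitLead v F d)
    {x : L} (hx : 1 < v x) : v (F.eval x) = v x ^ d := by
  have h1 := h.sub_lead_lt hx
  have h2 : F.eval x = (F.eval x - F.coeff d * x ^ d) + F.coeff d * x ^ d := by ring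
  rw [h2, Valuation.map_add_eq_of_lt_right _ (by rw [h.val_lead]; exact h1), h.val_lead]

theorem UnitLead.val_eval_le_one {v : Valuation L Γ₀} {F : L[X]} {d : ℕ} (h : UnitLead v F d)
    {x : L} (hx : v x ≤ 1) : v (F.eval x) ≤ 1 := by
  rw [eval_eq_sum_range]
  refine v.map_sum_le fun i _ => ?_
  rw [map_mul, map_pow]
  exact mul_le_one' (h.int i) (pow_le_one' hx i)

theorem UnitLead.val_eval_sub_le {v : Valuation L Γ₀} {F : L[X]} {d : ℕ} (h : UnitLead v F d)
    {x y : L} (hx : v x ≤ 1) (hy : v y ≤ 1) : v (F.eval x - F.eval y) ≤ v (x - y) := by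
  rw [eval_eq_sum_range, eval_eq_sum_range, ← Finset.sum_sub_distrib]
  refine v.map_sum_le fun i _ => ?_
  rw [← mul_sub, map_mul]
  rcases Nat.eq_zero_or_pos i with rfl | hi
  · simp
  obtain ⟨j, rfl⟩ : ∃ j, i = j + 1 := ⟨i - 1, by omega⟩
  calc v (F.coeff (j + 1)) * v (x ^ (j + 1) - y ^ (j + 1))
      ≤ 1 * ((max (v x) (v y)) ^ j * v (x - y)) :=
        mul_le_mul' (h.int _) (val_pow_sub_pow_le v x y j)
    _ ≤ 1 * (1 * v (x - y)) := by
        refine mul_le_mul' le_rfl (mul_le_mul' (pow_le_one' (max_le hx hy) j) le_rfl)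
    _ = v (x - y) := by rw [one_mul, one_mul]

/-- linearisation in the large range -/
theorem UnitLead.lin {v : Valuation L Γ₀} {F : L[X]} {d : ℕ} (h : UnitLead v F d) (hd : 0 < d)
    {x y : L} (hx : 1 < v x) (hxy : v (y - x) < v x) (hne : y ≠ x) :
    v (F.eval y - F.eval x - (d : L) * (F.coeff d * x ^ (d - 1)) * (y - x)) <
      v x ^ (d - 1) * v (y - x) := by
  have hvx : 0 < v x := zero_lt_one.trans hx
  have hvy : v y = v x := by
    have : y = (y - x) + x := by ring
    rw [this, Valuation.map_add_eq_of_lt_right _ hxy]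
  have he : 0 < v (y - x) := zero_lt_iff.mpr ((map_ne_zero v).mpr (sub_ne_zero.mpr hne))
  have hT : v x ^ (d - 1) * v (y - x) ≠ 0 := (mul_pos (pow_pos hvx _) he).ne'
  rw [eval_eq_sum_range, eval_eq_sum_range, h.deg, Finset.sum_range_succ,
    Finset.sum_range_succ]
  have e : ∑ i ∈ Finset.range d, F.coeff i * y ^ i + F.coeff d * y ^ d -
      (∑ i ∈ Finset.range d, F.coeff i * x ^ i + F.coeff d * x ^ d) -
      (d : L) * (F.coeff d * x ^ (d - 1)) * (y - x) =
      ∑ i ∈ Finset.range d, F.coeff i * (y ^ i - x ^ i) +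
      F.coeff d * (y ^ d - x ^ d - (d : L) * x ^ (d - 1) * (y - x)) := by
    have : ∑ i ∈ Finset.range d, F.coeff i * (y ^ i - x ^ i) =
        ∑ i ∈ Finset.range d, F.coeff i * y ^ i - ∑ i ∈ Finset.range d, F.coeff i * x ^ i := by
      rw [← Finset.sum_sub_distrib]
      exact Finset.sum_congr rfl fun i _ => by ring
    rw [this]; ring
  rw [e]
  refine v.map_add_lt ?_ ?_
  · refine v.map_sum_lt hT fun i hi => ?_
    have hi' := Finset.mem_range.mp hi
    rcases Nat.eq_zero_or_pos i with rfl | hi0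
    · simp only [pow_zero, sub_self, mul_zero, map_zero]
      exact zero_lt_iff.mpr hT
    obtain ⟨j, rfl⟩ : ∃ j, i = j + 1 := ⟨i - 1, by omega⟩
    rw [map_mul]
    calc v (F.coeff (j + 1)) * v (y ^ (j + 1) - x ^ (j + 1))
        ≤ 1 * ((max (v y) (v x)) ^ j * v (y - x)) :=
          mul_le_mul' (h.int _) (val_pow_sub_pow_le v y x j)
      _ = v x ^ j * v (y - x) := by rw [one_mul, hvy, max_self]
      _ < v x ^ (d - 1) * v (y - x) := by
          apply mul_lt_mul_of_pos_right _ he
          exact pow_lt_pow_right₀ hx (by omega)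
  · rw [map_mul, h.lead, one_mul]
    have h1 := Commute.geom_sum₂_mul (Commute.all y x) d
    have e2 : y ^ d - x ^ d - (d : L) * x ^ (d - 1) * (y - x) =
        (∑ i ∈ Finset.range d, (y ^ i - x ^ i) * x ^ (d - 1 - i)) * (y - x) := by
      rw [← h1]
      have : (d : L) * x ^ (d - 1) = ∑ i ∈ Finset.range d, x ^ i * x ^ (d - 1 - i) := by
        rw [Finset.sum_congr rfl (g := fun _ => x ^ (d - 1))]
        · rw [Finset.sum_const, Finset.card_range, nsmul_eq_mul]
        · intro i hi
          have hi' := Finset.mem_range.mp hi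
          rw [← pow_add]
          congr 1
          omega
      rw [this, ← sub_mul, ← Finset.sum_sub_distrib]
      congr 1
      exact Finset.sum_congr rfl fun i _ => by ring
    rw [e2, map_mul]
    apply mul_lt_mul_of_pos_right _ he
    refine v.map_sum_lt (pow_pos hvx _).ne' fun i hi => ?_
    have hi' := Finset.mem_range.mp hi
    rcases Nat.eq_zero_or_pos i with rfl | hi0
    · simp only [pow_zero, sub_self, zero_mul, map_zero]
      exact pow_pos hvx _
    obtain ⟨j, rfl⟩ : ∃ j, i = j + 1 := ⟨i - 1, by omega⟩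
    rw [map_mul, map_pow]
    calc v (y ^ (j + 1) - x ^ (j + 1)) * v x ^ (d - 1 - (j + 1))
        ≤ ((max (v y) (v x)) ^ j * v (y - x)) * v x ^ (d - 1 - (j + 1)) :=
          mul_le_mul' (val_pow_sub_pow_le v y x j) le_rfl
      _ = v x ^ j * v (y - x) * v x ^ (d - 1 - (j + 1)) := by rw [hvy, max_self]
      _ < v x ^ j * v x * v x ^ (d - 1 - (j + 1)) := by
          apply mul_lt_mul_of_pos_right _ (pow_pos hvx _)
          exact mul_lt_mul_of_pos_left hxy (pow_pos hvx _)
      _ = v x ^ (d - 1) := by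
          rw [← pow_succ, ← pow_add]
          congr 1
          omega

theorem exists_max2 {α : Type*} [LinearOrder α] (g : ℕ → α) {n : ℕ} (hn : 0 < n)
    (hg : ∀ k, g (k + n) = g k) : ∃ m, ∀ k, g k ≤ g (m + 2) := by
  obtain ⟨m, hm⟩ := exists_max_periodic (fun k => g (k + 1)) hn (fun k => by
    have : k + n + 1 = (k + 1) + n := by ring
    simp only [this, hg])
  refine ⟨m, fun k => ?_⟩
  have h1 := hm (k + n - 1)
  have h2 : k + n - 1 + 1 = k + n := by omega
  simp only [h2, hg] at h1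
  exact h1

theorem contraction {g : ℕ → Γ₀} {n : ℕ} (hn : 0 < n) (hper : ∀ k, g (k + n) = g k) {c : Γ₀}
    (hc : c < 1) (h : ∀ k, g (k + 2) ≤ c * max (g (k + 1)) (g k)) (k : ℕ) : g k = 0 := by
  obtain ⟨m, hm⟩ := exists_max2 g hn hper
  have h1 : g (m + 2) ≤ c * g (m + 2) := (h m).trans (mul_le_mul' le_rfl (max_le (hm _) (hm _)))
  have h2 : g (m + 2) = 0 := by
    by_contra hne
    have hpos : 0 < g (m + 2) := zero_lt_iff.mpr hne
    have h3 : c * g (m + 2) < 1 * g (m + 2) := mul_lt_mul_of_pos_right hc hpos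
    rw [one_mul] at h3
    exact absurd h1 (not_le.mpr h3)
  have := hm k
  rw [h2] at this
  exact le_antisymm this zero_le

/-- a reversed orbit: `x (k+2) = ε (F (x (k+1)) - x k)` with `ε` small -/
theorem size_dichotomy {v : Valuation L Γ₀} {F : L[X]} {d : ℕ} (h : UnitLead v F d)
    (hd : 2 ≤ d) {ε : L} {x : ℕ → L}
    (hrec : ∀ k, x (k + 2) = ε * (F.eval (x (k + 1)) - x k)) {n : ℕ} (hn : 0 < n)
    (hper : ∀ k, x (k + n) = x k) :
    (∀ k, v (x k) ≤ 1) ∨ (∀ k, 1 < v (x k) ∧ v ε * v (x k) ^ (d - 1) = 1) := by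
  obtain ⟨m, hm⟩ := exists_max2 (fun k => v (x k)) hn (fun k => by simp only [hper k])
  set ρ := v (x (m + 2)) with hρ
  replace hm : ∀ k, v (x k) ≤ ρ := hm
  rcases le_or_gt ρ 1 with hρ1 | hρ1
  · exact Or.inl fun k => (hm k).trans hρ1
  right
  have hρ0 : 0 < ρ := zero_lt_one.trans hρ1
  -- one step from a maximal index
  have hstep : ∀ k, v (x (k + 1)) = ρ → v (x (k + 2)) = v ε * ρ ^ d := by
    intro k hk
    have h1 : v (F.eval (x (k + 1))) = ρ ^ d := by
      rw [h.val_eval (by rw [hk]; exact hρ1), hk]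
    have h2 : v (x k) < v (F.eval (x (k + 1))) := by
      rw [h1]
      refine (hm k).trans_lt ?_
      exact lt_self_pow₀ hρ1 (by omega)
    rw [hrec, map_mul, Valuation.map_sub_eq_of_lt_left _ h2, h1]
  have hle : v ε * ρ ^ (d - 1) ≤ 1 := by
    have h1 := hstep (m + 1) rfl
    have h2 := hm (m + 1 + 2)
    rw [h1] at h2
    have h3 : ρ ^ d = ρ ^ (d - 1) * ρ := by rw [← pow_succ]; congr 1; omega
    rw [h3, ← mul_assoc] at h2
    exact le_of_mul_le_mul_right (by rwa [one_mul]) hρ0
  have hge : 1 ≤ v ε * ρ ^ (d - 1) := by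
    have h1 : v (x (m + 2)) ≤ v ε * ρ ^ d := by
      rw [hrec, map_mul]
      refine mul_le_mul' le_rfl ?_
      refine (v.map_sub _ _).trans (max_le ?_ ?_)
      · rcases le_or_gt (v (x (m + 1))) 1 with h2 | h2
        · exact (h.val_eval_le_one h2).trans (one_le_pow₀ hρ1.le)
        · rw [h.val_eval h2]
          exact pow_le_pow_left₀ zero_le (hm _) _
      · exact (hm _).trans (le_self_pow₀ hρ1.le (by omega))
    rw [← hρ] at h1
    have h3 : ρ ^ d = ρ ^ (d - 1) * ρ := by rw [← pow_succ]; congr 1; omega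
    rw [h3, ← mul_assoc] at h1
    exact le_of_mul_le_mul_right (by rwa [one_mul]) hρ0
  have heq : v ε * ρ ^ (d - 1) = 1 := le_antisymm hle hge
  have hall : ∀ j, v (x (m + 2 + j)) = ρ := by
    intro j
    induction j with
    | zero => rfl
    | succ j ih =>
      have h1 := hstep (m + 1 + j) (by rw [← ih]; congr 2; ring)
      have h2 : m + 2 + (j + 1) = m + 1 + j + 2 := by ring
      rw [h2, h1]
      have h3 : ρ ^ d = ρ ^ (d - 1) * ρ := by rw [← pow_succ]; congr 1; omega
      rw [h3, ← mul_assoc, heq, one_mul]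
  have hperm : ∀ j k, x (k + j * n) = x k := by
    intro j
    induction j with
    | zero => intro k; simp
    | succ j ih => intro k; rw [Nat.succ_mul, ← add_assoc, hper, ih]
  intro k
  have h1 : v (x k) = ρ := by
    have h2 := hall (k + (m + 2) * n - (m + 2))
    have h3 : m + 2 ≤ (m + 2) * n := Nat.le_mul_of_pos_right _ hn
    have h4 : m + 2 + (k + (m + 2) * n - (m + 2)) = k + (m + 2) * n := by omega
    rw [h4, hperm] at h2
    exact h2
  rw [h1]
  exact ⟨hρ1, heq⟩

/-- in the integral range the orbit is constant -/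
theorem const_of_integral {v : Valuation L Γ₀} {F : L[X]} {d : ℕ} (h : UnitLead v F d)
    {ε : L} (hε : v ε < 1) {x : ℕ → L}
    (hrec : ∀ k, x (k + 2) = ε * (F.eval (x (k + 1)) - x k)) {n : ℕ} (hn : 0 < n)
    (hper : ∀ k, x (k + n) = x k) (hint : ∀ k, v (x k) ≤ 1) (k : ℕ) : x (k + 1) = x k := by
  have h1 := contraction (g := fun k => v (x (k + 1) - x k)) hn (fun k => by
    have e : k + n + 1 = (k + 1) + n := by ring
    simp only [e, hper]) hε (fun k => ?_) k
  · exact sub_eq_zero.mp ((map_eq_zero v).mp h1)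
  · have e : x (k + 2 + 1) - x (k + 2) =
        ε * ((F.eval (x (k + 2)) - F.eval (x (k + 1))) - (x (k + 1) - x k)) := by
      rw [hrec (k + 1), hrec k]; ring
    simp only [e, map_mul]
    refine mul_le_mul' le_rfl ?_
    refine (v.map_sub _ _).trans (max_le_max ?_ le_rfl)
    have := h.val_eval_sub_le (hint (k + 2)) (hint (k + 1))
    simpa using this

end

end Pool.Agent.H.MP_0e6b5f_nt.H52
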