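import Pool.Agent.H.MP_0e6b5f_nt.H52.Loc1

/-!
# Orbits of a Henon map at a place where the Jacobian has a simple pole: residues of the ratios
-/

namespace Pool.Agent.H.MP_0e6b5f_nt.H52

open Polynomial Function Module

section

variable {L : Type*} [Field L] {Γ₀ : Type*} [LinearOrderedCommGroupWithZero Γ₀]

open Classical in
/-- the reduction map of `v`, extended by `0` outside the valuation ring -/
noncomputable def red (v : Valuation L Γ₀) (z : L) :
    IsLocalRing.ResidueField v.valuationSubring :=
  if h : v z ≤ 1 then IsLocalRing.residue v.valuationSubring ⟨z, h⟩ else 0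

theorem red_of_le (v : Valuation L Γ₀) {z : L} (h : v z ≤ 1) :
    red v z = IsLocalRing.residue v.valuationSubring ⟨z, h⟩ := by
  rw [red, dif_pos h]

theorem red_mul (v : Valuation L Γ₀) {a b : L} (ha : v a ≤ 1) (hb : v b ≤ 1) :
    red v (a * b) = red v a * red v b := by
  have hab : v (a * b) ≤ 1 := by rw [map_mul]; exact mul_le_one' ha hb
  rw [red_of_le v ha, red_of_le v hb, red_of_le v hab, ← map_mul]
  rfl

theorem red_sub (v : Valuation L Γ₀) {a b : L} (ha : v a ≤ 1) (hb : v b ≤ 1) :
    red v (a - b) = red v a - red v b := by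
  have hab : v (a - b) ≤ 1 := (v.map_sub _ _).trans (max_le ha hb)
  rw [red_of_le v ha, red_of_le v hb, red_of_le v hab, ← map_sub]
  rfl

theorem red_one (v : Valuation L Γ₀) : red v (1 : L) = 1 := by
  have h1 : v (1 : L) ≤ 1 := by rw [map_one]
  rw [red_of_le v h1, ← map_one (IsLocalRing.residue v.valuationSubring)]
  rfl

theorem red_natCast (v : Valuation L Γ₀) (n : ℕ) (h : v (n : L) ≤ 1) :
    red v (n : L) = (n : IsLocalRing.ResidueField v.valuationSubring) := by
  rw [red_of_le v h, ← map_natCast (IsLocalRing.residue v.valuationSubring)]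
  rfl

theorem red_eq_zero_iff (v : Valuation L Γ₀) {a : L} (ha : v a ≤ 1) :
    red v a = 0 ↔ v a < 1 := by
  rw [red_of_le v ha, IsLocalRing.residue_eq_zero_iff, ValuationSubring.valuation_lt_one_iff]
  exact v.isEquiv_valuation_valuationSubring.lt_one_iff_lt_one.symm

theorem red_eq_iff (v : Valuation L Γ₀) {a b : L} (ha : v a ≤ 1) (hb : v b ≤ 1) :
    red v a = red v b ↔ v (a - b) < 1 := by
  have hab : v (a - b) ≤ 1 := (v.map_sub _ _).trans (max_le ha hb)
  rw [← sub_eq_zero, ← red_sub v ha hb, red_eq_zero_iff v hab]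

theorem red_pow (v : Valuation L Γ₀) {a : L} (ha : v a ≤ 1) (n : ℕ) :
    red v (a ^ n) = red v a ^ n := by
  induction n with
  | zero => rw [pow_zero, pow_zero, red_one]
  | succ n ih =>
    rw [pow_succ, pow_succ, red_mul v (by rw [map_pow]; exact pow_le_one' ha n) ha, ih]

theorem red_prod (v : Valuation L Γ₀) {f : ℕ → L} (hf : ∀ i, v (f i) ≤ 1) (s : ℕ) :
    red v (∏ i ∈ Finset.range s, f i) = ∏ i ∈ Finset.range s, red v (f i) := by
  have hle : ∀ s, v (∏ i ∈ Finset.range s, f i) ≤ 1 := by
    intro s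
    induction s with
    | zero => simp
    | succ s ih =>
      rw [Finset.prod_range_succ, map_mul]
      exact mul_le_one' ih (hf s)
  induction s with
  | zero => simp [red_one]
  | succ s ih => rw [Finset.prod_range_succ, Finset.prod_range_succ, red_mul v (hle s) (hf s), ih]

theorem prod_ratio (x : ℕ → L) (h0 : ∀ k, x k ≠ 0) (k s : ℕ) :
    ∏ i ∈ Finset.range s, (x (k + i + 1) / x (k + i)) = x (k + s) / x k := by
  induction s with
  | zero => simp [div_self (h0 k)]
  | succ s ih =>
    rw [Finset.prod_range_succ, ih, ← add_assoc, div_mul_div_comm, mul_comm (x (k + s)),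
      mul_div_mul_right _ _ (h0 (k + s))]

/-- the data of a large reversed orbit -/
structure Large (v : Valuation L Γ₀) (F : L[X]) (d : ℕ) (ε : L) (x : ℕ → L) (n : ℕ) : Prop where
  unit : UnitLead v F d
  two : 2 ≤ d
  small : v ε < 1
  rec' : ∀ k, x (k + 2) = ε * (F.eval (x (k + 1)) - x k)
  pos : 0 < n
  per : ∀ k, x (k + n) = x k
  large : ∀ k, 1 < v (x k)
  size : ∀ k, v ε * v (x k) ^ (d - 1) = 1

variable {v : Valuation L Γ₀} {F : L[X]} {d : ℕ} {ε : L} {x : ℕ → L} {n : ℕ}

theorem Large.val_eq (H : Large v F d ε x n) (i j : ℕ) : v (x i) = v (x j) := by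
  have hd := H.two
  have h1 := (H.size i).trans (H.size j).symm
  have hε : v ε ≠ 0 := by
    intro h
    have := H.size 0
    rw [h, zero_mul] at this
    exact zero_ne_one this
  have h2 := mul_left_cancel₀ hε h1
  exact pow_left_injective₀' (by omega : d - 1 ≠ 0) h2
where
  pow_left_injective₀' {k : ℕ} (hk : k ≠ 0) {a b : Γ₀} (h : a ^ k = b ^ k) : a = b :=
    le_antisymm ((pow_le_pow_iff_left₀ zero_le zero_le hk).mp h.le)
      ((pow_le_pow_iff_left₀ zero_le zero_le hk).mp h.ge)

theorem Large.ne (H : Large v F d ε x n) (k : ℕ) : x k ≠ 0 := by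
  intro h
  have := H.large k
  rw [h, map_zero] at this
  exact absurd this (not_lt.mpr zero_le)

theorem Large.val_ratio (H : Large v F d ε x n) (k : ℕ) : v (x (k + 1) / x k) = 1 := by
  rw [map_div₀, H.val_eq (k + 1) k, div_self ((map_ne_zero v).mpr (H.ne k))]

/-- residue of the ratio -/
noncomputable def zeta (v : Valuation L Γ₀) (x : ℕ → L) (k : ℕ) :
    IsLocalRing.ResidueField v.valuationSubring := red v (x (k + 1) / x k)

/-- the multiplier -/
theorem Large.val_w (H : Large v F d ε x n) (k : ℕ) :
    v (ε * (F.coeff d * x k ^ (d - 1))) = 1 := by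
  rw [map_mul, map_mul, H.unit.lead, one_mul, map_pow, H.size]

theorem Large.zeta_ne (H : Large v F d ε x n) (k : ℕ) : zeta v x k ≠ 0 := by
  rw [zeta, Ne, red_eq_zero_iff v (H.val_ratio k).le, H.val_ratio k]
  exact lt_irrefl _

theorem Large.zeta_per (H : Large v F d ε x n) (k : ℕ) : zeta v x (k + n) = zeta v x k := by
  have e : k + n + 1 = (k + 1) + n := by ring
  rw [zeta, zeta, e, H.per, H.per]

theorem Large.zeta_eq_w' (H : Large v F d ε x n) (k : ℕ) :
    zeta v x (k + 1) = red v (ε * (F.coeff d * x (k + 1) ^ (d - 1))) := by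
  have hd := H.two
  rw [zeta, red_eq_iff v (H.val_ratio _).le (H.val_w _).le]
  have e : x (k + 1 + 1) / x (k + 1) - ε * (F.coeff d * x (k + 1) ^ (d - 1)) =
      ε * ((F.eval (x (k + 1)) - F.coeff d * x (k + 1) ^ d) - x k) / x (k + 1) := by
    have h1 : x (k + 1) ^ d = x (k + 1) ^ (d - 1) * x (k + 1) := by
      rw [← pow_succ]; congr 1; omega
    have h2 := H.rec' k
    have h3 : x (k + 1 + 1) = x (k + 2) := rfl
    rw [h3, h2, h1]
    field_simp [H.ne (k + 1)]
    ring
  rw [e, map_div₀, map_mul]
  have hpos : 0 < v (x (k + 1)) := zero_lt_iff.mpr ((map_ne_zero v).mpr (H.ne _))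
  have hε : 0 < v ε := by
    rw [zero_lt_iff]
    intro h
    have := H.size 0
    rw [h, zero_mul] at this
    exact zero_ne_one this
  rw [div_lt_one₀ hpos]
  have h3 : v (F.eval (x (k + 1)) - F.coeff d * x (k + 1) ^ d - x k) < v (x (k + 1)) ^ d := by
    refine v.map_sub_lt (H.unit.sub_lead_lt (H.large _)) ?_
    rw [H.val_eq k (k + 1)]
    exact lt_self_pow₀ (H.large _) (by omega)
  calc v ε * v (F.eval (x (k + 1)) - F.coeff d * x (k + 1) ^ d - x k)
      < v ε * v (x (k + 1)) ^ d := mul_lt_mul_of_pos_left h3 hε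
    _ = v ε * v (x (k + 1)) ^ (d - 1) * v (x (k + 1)) := by
        rw [mul_assoc, ← pow_succ]
        congr 2
        omega
    _ = v (x (k + 1)) := by rw [H.size, one_mul]

theorem Large.zeta_eq_w (H : Large v F d ε x n) (k : ℕ) :
    zeta v x k = red v (ε * (F.coeff d * x k ^ (d - 1))) := by
  have hn := H.pos
  have h1 := H.zeta_eq_w' (k + n - 1)
  have h2 : k + n - 1 + 1 = k + n := by omega
  rw [h2, H.zeta_per, H.per] at h1
  exact h1

theorem Large.zeta_succ (H : Large v F d ε x n) (k : ℕ) :
    zeta v x (k + 1) = zeta v x k ^ d := by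
  have hd := H.two
  rw [H.zeta_eq_w (k + 1)]
  have e : ε * (F.coeff d * x (k + 1) ^ (d - 1)) =
      (ε * (F.coeff d * x k ^ (d - 1))) * (x (k + 1) / x k) ^ (d - 1) := by
    rw [div_pow]
    have := pow_ne_zero (d - 1) (H.ne k)
    field_simp
  rw [e, red_mul v (H.val_w k).le (by rw [map_pow, H.val_ratio, one_pow]),
    red_pow v (H.val_ratio k).le, ← H.zeta_eq_w k]
  have : red v (x (k + 1) / x k) = zeta v x k := rfl
  rw [this, ← pow_succ']
  congr 1
  omega

theorem Large.zeta_add (H : Large v F d ε x n) (k j : ℕ) :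
    zeta v x (k + j) = zeta v x k ^ (d ^ j) := by
  induction j with
  | zero => simp
  | succ j ih => rw [← add_assoc, H.zeta_succ, ih, ← pow_mul, pow_succ]

theorem Large.zeta_order (H : Large v F d ε x n) (k : ℕ) : zeta v x k ^ (d ^ n - 1) = 1 := by
  have hd := H.two
  have h1 := H.zeta_add k n
  rw [H.zeta_per] at h1
  have h2 : d ^ n = (d ^ n - 1) + 1 := by
    have : 0 < d ^ n := pow_pos (by omega) _
    omega
  rw [h2, pow_succ] at h1
  exact (mul_eq_right₀ (H.zeta_ne k)).mp h1.symm

theorem Large.zeta_frob (H : Large v F d ε x n) {p : ℕ} (hdp : d ≤ p)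
    (hmod : (d ^ n - 1) ∣ (p - d)) (k : ℕ) :
    zeta v x (k + 1) = zeta v x k ^ p := by
  obtain ⟨c, hc⟩ := hmod
  have h1 : p = d + (d ^ n - 1) * c := by omega
  rw [h1, pow_add, pow_mul, H.zeta_order, one_pow, mul_one, H.zeta_succ]

theorem Large.zeta_frob_add (H : Large v F d ε x n) {p : ℕ} (hdp : d ≤ p)
    (hmod : (d ^ n - 1) ∣ (p - d)) (k j : ℕ) :
    zeta v x (k + j) = zeta v x k ^ (p ^ j) := by
  induction j with
  | zero => simp
  | succ j ih => rw [← add_assoc, H.zeta_frob hdp hmod, ih, ← pow_mul, pow_succ]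

theorem Large.zeta_f (H : Large v F d ε x n) {p : ℕ} (hdp : d ≤ p)
    (hmod : (d ^ n - 1) ∣ (p - d)) {f : ℕ}
    [Finite (IsLocalRing.ResidueField v.valuationSubring)]
    (hf : Nat.card (IsLocalRing.ResidueField v.valuationSubring) = p ^ f) (k : ℕ) :
    zeta v x (k + f) = zeta v x k := by
  have := Fintype.ofFinite (IsLocalRing.ResidueField v.valuationSubring)
  rw [H.zeta_frob_add hdp hmod, ← hf, Nat.card_eq_fintype_card]
  exact FiniteField.pow_card _

theorem Large.prod_zeta (H : Large v F d ε x n) (k s : ℕ) :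
    ∏ i ∈ Finset.range s, zeta v x (k + i) = red v (x (k + s) / x k) := by
  rw [← prod_ratio x H.ne k s, red_prod v (fun i => (H.val_ratio (k + i)).le)]
  rfl

theorem prod_period {M : Type*} [CommMonoid M] (g : ℕ → M) {f : ℕ}
    (hg : ∀ k, g (k + f) = g k) (m : ℕ) :
    ∏ i ∈ Finset.range (f * m), g i = (∏ i ∈ Finset.range f, g i) ^ m := by
  induction m with
  | zero => simp
  | succ m ih =>
    rw [Nat.mul_succ, Finset.prod_range_add, ih, pow_succ]
    congr 1
    refine Finset.prod_congr rfl fun i _ => ?_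
    have : ∀ j, g (f * j + i) = g i := by
      intro j
      induction j with
      | zero => simp
      | succ j ihj =>
        have e : f * (j + 1) + i = (f * j + i) + f := by ring
        rw [e, hg, ihj]
    exact this m

theorem Large.red_shift (H : Large v F d ε x n) {p : ℕ} (hdp : d ≤ p)
    (hmod : (d ^ n - 1) ∣ (p - d)) {f : ℕ}
    [Finite (IsLocalRing.ResidueField v.valuationSubring)]
    (hf : Nat.card (IsLocalRing.ResidueField v.valuationSubring) = p ^ f) (k : ℕ) :
    red v (x (k + f * (d - 1)) / x k) = 1 := by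
  have hd := H.two
  rw [← H.prod_zeta]
  have hper : ∀ i, (fun i => zeta v x (k + i)) (i + f) = (fun i => zeta v x (k + i)) i := by
    intro i
    simp only [← add_assoc]
    exact H.zeta_f hdp hmod hf (k + i)
  have h1 : ∏ i ∈ Finset.range (f * (d - 1)), zeta v x (k + i) =
      (∏ i ∈ Finset.range f, zeta v x (k + i)) ^ (d - 1) :=
    prod_period (fun i => zeta v x (k + i)) hper (d - 1)
  rw [h1]
  have h2 : ∏ i ∈ Finset.range f, zeta v x (k + i) =
      zeta v x k ^ (∑ i ∈ Finset.range f, d ^ i) := by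
    rw [← Finset.prod_pow_eq_pow_sum]
    exact Finset.prod_congr rfl fun i _ => H.zeta_add k i
  rw [h2, ← pow_mul]
  have h3 : (∑ i ∈ Finset.range f, d ^ i) * (d - 1) + 1 = d ^ f := by
    have := geom_sum_mul_add (d - 1) f
    have e : d - 1 + 1 = d := by omega
    rw [e] at this
    exact this
  have h4 : zeta v x k ^ ((∑ i ∈ Finset.range f, d ^ i) * (d - 1) + 1) = zeta v x k := by
    rw [h3, ← H.zeta_add, H.zeta_f hdp hmod hf]
  rw [pow_succ] at h4
  exact (mul_eq_right₀ (H.zeta_ne k)).mp h4

/-- uniqueness of the orbit with given residues of ratios -/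
theorem Large.eq_shift (H : Large v F d ε x n) {p : ℕ}
    [CharP (IsLocalRing.ResidueField v.valuationSubring) p] (hp : d ^ n < p) (s : ℕ)
    (hs : ∀ k, red v (x (k + s) / x k) = 1) (k : ℕ) : x (k + s) = x k := by
  have hd := H.two
  have hn := H.pos
  have hdp : d < p := lt_of_le_of_lt (le_self_pow₀ (by omega) (by omega)) hp
  have hvs : ∀ k, v (x (k + s) / x k) = 1 := by
    intro k
    rw [map_div₀, H.val_eq (k + s) k, div_self ((map_ne_zero v).mpr (H.ne k))]
  have hclose : ∀ k, v (x (k + s) - x k) < v (x k) := by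
    intro k
    have h1 : red v (x (k + s) / x k) = red v (1 : L) := by rw [hs, red_one]
    rw [red_eq_iff v (hvs k).le (by rw [map_one])] at h1
    have e : x (k + s) - x k = (x (k + s) / x k - 1) * x k := by
      field_simp [H.ne k]
    rw [e, map_mul]
    have hpos : 0 < v (x k) := zero_lt_iff.mpr ((map_ne_zero v).mpr (H.ne _))
    calc v (x (k + s) / x k - 1) * v (x k) < 1 * v (x k) := mul_lt_mul_of_pos_right h1 hpos
      _ = v (x k) := one_mul _
  -- `d` is a unit
  have hvd : v (d : L) = 1 := by
    have h1 : v (d : L) ≤ 1 := by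
      have : ∀ m : ℕ, v (m : L) ≤ 1 := by
        intro m
        induction m with
        | zero => simp
        | succ m ih =>
          push_cast
          exact (v.map_add _ _).trans (max_le ih (by rw [map_one]))
      exact this d
    refine le_antisymm h1 ?_
    by_contra hlt
    push Not at hlt
    rw [← red_eq_zero_iff v h1, red_natCast v d h1, CharP.cast_eq_zero_iff _ p] at hlt
    exact absurd (Nat.le_of_dvd (by omega) hlt) (by omega)
  set e : ℕ → L := fun k => x (k + s) - x k with he
  have heper : ∀ k, e (k + n) = e k := by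
    intro k
    have h1 : k + n + s = (k + s) + n := by ring
    simp only [he, h1, H.per]
  obtain ⟨m, hm⟩ := exists_max2 (fun k => v (e k)) hn (fun k => by simp only [heper k])
  set E := v (e (m + 2)) with hE
  replace hm : ∀ k, v (e k) ≤ E := hm
  by_contra hne
  have hE0 : 0 < E := by
    rw [zero_lt_iff]
    intro h
    have h1 := hm k
    rw [h] at h1
    exact hne (sub_eq_zero.mp ((map_eq_zero v).mp (le_antisymm h1 zero_le)))
  -- the multiplier `w`
  set w : ℕ → L := fun k => ε * (F.coeff d * x k ^ (d - 1)) with hw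
  have hstep : ∀ k, v (e (k + 1)) = E → v (e (k + 2) - (d : L) * w (k + 1) * e (k + 1)) < E := by
    intro k hk
    have hek : x (k + 1 + s) ≠ x (k + 1) := by
      intro h
      have : e (k + 1) = 0 := by simp only [he, h, sub_self]
      rw [this, map_zero] at hk
      exact hE0.ne hk
    have h1 := H.unit.lin (by omega) (H.large (k + 1)) (hclose (k + 1)) hek
    have h2 : e (k + 2) - (d : L) * w (k + 1) * e (k + 1) =
        ε * (F.eval (x (k + 1 + s)) - F.eval (x (k + 1)) -
          (d : L) * (F.coeff d * x (k + 1) ^ (d - 1)) * (x (k + 1 + s) - x (k + 1))) -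
          ε * e k := by
      have h3 := H.rec' (k + s)
      have h4 := H.rec' k
      have h5 : k + 2 + s = k + s + 2 := by ring
      have h6 : k + 1 + s = k + s + 1 := by ring
      simp only [he, hw, h5, h6]
      rw [h3, h4]
      ring
    rw [h2]
    have hε : 0 < v ε := by
      rw [zero_lt_iff]
      intro h
      have := H.size 0
      rw [h, zero_mul] at this
      exact zero_ne_one this
    refine v.map_sub_lt ?_ ?_
    · rw [map_mul]
      calc _ < v ε * (v (x (k + 1)) ^ (d - 1) * v (x (k + 1 + s) - x (k + 1))) :=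
            mul_lt_mul_of_pos_left h1 hε
        _ = (v ε * v (x (k + 1)) ^ (d - 1)) * v (e (k + 1)) := by rw [mul_assoc]
        _ = E := by rw [H.size, hk, one_mul]
    · rw [map_mul]
      calc v ε * v (e k) ≤ v ε * E := mul_le_mul' le_rfl (hm k)
        _ < 1 * E := mul_lt_mul_of_pos_right H.small hE0
        _ = E := one_mul _
  have hnext : ∀ k, v (e (k + 1)) = E → v (e (k + 2)) = E := by
    intro k hk
    have h1 := hstep k hk
    have h2 : v ((d : L) * w (k + 1) * e (k + 1)) = E := by
      rw [map_mul, map_mul, hvd, one_mul, hk]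
      simp only [hw]
      rw [H.val_w, one_mul]
    have h3 : e (k + 2) = (e (k + 2) - (d : L) * w (k + 1) * e (k + 1)) +
      (d : L) * w (k + 1) * e (k + 1) := by ring
    rw [h3, Valuation.map_add_eq_of_lt_right _ (by rw [h2]; exact h1), h2]
  have hall' : ∀ j, v (e (m + 2 + j)) = E := by
    intro j
    induction j with
    | zero => rfl
    | succ j ih =>
      have h1 := hnext (m + 1 + j) (by rw [← ih]; congr 2; ring)
      rw [← h1]
      congr 2
      ring
  have hperm : ∀ j k, e (k + j * n) = e k := by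
    intro j
    induction j with
    | zero => intro k; simp
    | succ j ih => intro k; rw [Nat.succ_mul, ← add_assoc, heper, ih]
  have hall : ∀ k, v (e k) = E := by
    intro k
    have h2 := hall' (k + (m + 2) * n - (m + 2))
    have h3 : m + 2 ≤ (m + 2) * n := Nat.le_mul_of_pos_right _ hn
    have h4 : m + 2 + (k + (m + 2) * n - (m + 2)) = k + (m + 2) * n := by omega
    rw [h4, hperm] at h2
    exact h2
  have hene : ∀ k, e k ≠ 0 := by
    intro k h
    have := hall k
    rw [h, map_zero] at this
    exact hE0.ne this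
  have hratio : ∀ k, v (e (k + 1) / e k) = 1 := by
    intro k
    rw [map_div₀, hall, hall, div_self hE0.ne']
  have hr' : ∀ k, red v (e (k + 1 + 1) / e (k + 1)) = (d : _) * zeta v x (k + 1) := by
    intro k
    have hvw : v ((d : L) * w (k + 1)) = 1 := by
      rw [map_mul, hvd, one_mul]
      exact H.val_w (k + 1)
    have h1 : red v (e (k + 1 + 1) / e (k + 1)) = red v ((d : L) * w (k + 1)) := by
      rw [red_eq_iff v (hratio _).le hvw.le]
      have h2 : e (k + 1 + 1) / e (k + 1) - (d : L) * w (k + 1) =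
          (e (k + 2) - (d : L) * w (k + 1) * e (k + 1)) / e (k + 1) := by
        have := hene (k + 1)
        field_simp
      rw [h2, map_div₀, hall, div_lt_one₀ hE0]
      exact hstep k (hall _)
    rw [h1, red_mul v hvd.le (H.val_w (k + 1)).le, red_natCast v d hvd.le, H.zeta_eq_w (k + 1)]
  have hr : ∀ k, red v (e (k + 1) / e k) = (d : _) * zeta v x k := by
    intro k
    have h1 := hr' (k + n - 1)
    have h2 : k + n - 1 + 1 = k + n := by omega
    have h3 : k + n + 1 = (k + 1) + n := by ring
    rw [h2, h3, heper, heper, H.zeta_per] at h1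
    exact h1
  have hprod : ∏ i ∈ Finset.range n, red v (e (0 + i + 1) / e (0 + i)) = 1 := by
    rw [← red_prod v (fun i => (hratio (0 + i)).le), prod_ratio e hene 0 n, heper,
      div_self (hene 0), red_one]
  have hprod2 : ∏ i ∈ Finset.range n, zeta v x (0 + i) = 1 := by
    rw [H.prod_zeta, H.per, div_self (H.ne 0), red_one]
  rw [Finset.prod_congr rfl (fun i _ => hr (0 + i)), Finset.prod_mul_distrib, hprod2, mul_one,
    Finset.prod_const, Finset.card_range] at hprod
  have hcast : ((d ^ n - 1 : ℕ) : IsLocalRing.ResidueField v.valuationSubring) = 0 := by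
    have h1 : 1 ≤ d ^ n := Nat.one_le_pow _ _ (by omega)
    rw [Nat.cast_sub h1, Nat.cast_pow, hprod, Nat.cast_one, sub_self]
  rw [CharP.cast_eq_zero_iff _ p] at hcast
  have h1 : 1 < d ^ n := Nat.one_lt_pow (by omega) (by omega)
  have := Nat.le_of_dvd (by omega) hcast
  omega

end

end Pool.Agent.H.MP_0e6b5f_nt.H52
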