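import Pool.Agent.H.MP_0e6b5f_nt.H52.Glob

/-!
# Places unramified over the rationals
-/

namespace Pool.Agent.H.MP_0e6b5f_nt.H52

open Module NumberField

section

variable {K : Type*} [Field K] [NumberField K]

omit [NumberField K] in
theorem val_ringOfIntegers (W : ValuationSubring (AlgebraicClosure K)) (x : 𝓞 K) :
    W.valuation (algebraMap K (AlgebraicClosure K) (x : K)) ≤ 1 :=
  val_le_one_of_integral W.valuation
    ((NumberField.RingOfIntegers.isIntegral_coe x).map
      (algebraMap K (AlgebraicClosure K)).toIntAlgHom)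

/-- the prime ideal cut out by a place -/
def placeIdeal (W : ValuationSubring (AlgebraicClosure K)) : Ideal (𝓞 K) where
  carrier := {x | W.valuation (algebraMap K (AlgebraicClosure K) (x : K)) < 1}
  add_mem' := by
    intro a b ha hb
    have : ((a + b : 𝓞 K) : K) = (a : K) + (b : K) := rfl
    rw [Set.mem_ofPred_eq, this, map_add]
    exact W.valuation.map_add_lt ha hb
  zero_mem' := by
    have : ((0 : 𝓞 K) : K) = 0 := rfl
    rw [Set.mem_ofPred_eq, this, map_zero, map_zero]
    exact zero_lt_one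
  smul_mem' := by
    intro c x hx
    have : ((c • x : 𝓞 K) : K) = (c : K) * (x : K) := rfl
    rw [Set.mem_ofPred_eq, this, map_mul, map_mul]
    exact (mul_le_mul' (val_ringOfIntegers W c) le_rfl).trans_lt (by rw [one_mul]; exact hx)

theorem mem_placeIdeal (W : ValuationSubring (AlgebraicClosure K)) (x : 𝓞 K) :
    x ∈ placeIdeal W ↔ W.valuation (algebraMap K (AlgebraicClosure K) (x : K)) < 1 := Iff.rfl

instance placeIdeal_prime (W : ValuationSubring (AlgebraicClosure K)) :
    (placeIdeal W).IsPrime := by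
  constructor
  · rw [Ideal.ne_top_iff_one, mem_placeIdeal]
    have : ((1 : 𝓞 K) : K) = 1 := rfl
    rw [this, map_one, map_one]
    exact lt_irrefl _
  · intro x y hxy
    rw [mem_placeIdeal] at hxy
    have : ((x * y : 𝓞 K) : K) = (x : K) * (y : K) := rfl
    rw [this, map_mul, map_mul] at hxy
    by_contra hcon
    push Not at hcon
    obtain ⟨hx, hy⟩ := hcon
    rw [mem_placeIdeal, not_lt] at hx hy
    have := mul_le_mul' hx hy
    rw [one_mul] at this
    exact absurd hxy (not_lt.mpr this)

/-- if `p` does not divide the discriminant, `p` generates the place locally -/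
theorem exists_mul_eq (W : ValuationSubring (AlgebraicClosure K)) {p : ℕ} (hp : p.Prime)
    (hW : W.valuation (p : AlgebraicClosure K) < 1) (hd : ¬ (p : ℤ) ∣ discr K) (x : 𝓞 K)
    (hx : x ∈ placeIdeal W) : ∃ s y : 𝓞 K, s ∉ placeIdeal W ∧ s * x = (p : 𝓞 K) * y := by
  have hpp : Prime (p : ℤ) := Nat.prime_iff_prime_int.mp hp
  have hpP : ((p : ℤ) : 𝓞 K) ∈ placeIdeal W := by
    rw [mem_placeIdeal]
    have : (((p : ℤ) : 𝓞 K) : K) = ((p : ℕ) : K) := by simp
    rw [this, map_natCast]; exact hW
  have hun : Algebra.IsUnramifiedAt ℤ (placeIdeal W) :=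
    (NumberField.not_dvd_discr_iff_forall_mem K (𝓞 K) hpp).mp hd _ inferInstance hpP
  let _ := Localization.AtPrime.algebraOfLiesOver ((placeIdeal W).under ℤ) (placeIdeal W)
  have h1 := ((Algebra.isUnramifiedAt_iff_map_eq ℤ ((placeIdeal W).under ℤ) (placeIdeal W)).mp
    hun).2
  have hxmem : algebraMap (𝓞 K) (Localization.AtPrime (placeIdeal W)) x ∈
      IsLocalRing.maximalIdeal (Localization.AtPrime (placeIdeal W)) := by
    rw [IsLocalization.AtPrime.to_map_mem_maximal_iff _ (placeIdeal W)]
    exact hx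
  rw [← h1] at hxmem
  have h2 : ((placeIdeal W).under ℤ).map
      (algebraMap ℤ (Localization.AtPrime (placeIdeal W))) ≤
      Ideal.span {(algebraMap (𝓞 K) (Localization.AtPrime (placeIdeal W)) (p : 𝓞 K))} := by
    rw [Ideal.map_le_iff_le_comap]
    intro m hm
    rw [Ideal.mem_comap, Ideal.mem_span_singleton]
    have hpm : (p : ℤ) ∣ m := by
      by_contra hcon
      have h3 := val_int_eq_one W.valuation hp hW hcon
      have h4 : algebraMap ℤ (𝓞 K) m ∈ placeIdeal W := hm
      rw [mem_placeIdeal] at h4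
      have : ((algebraMap ℤ (𝓞 K) m : 𝓞 K) : K) = (m : K) := by simp
      rw [this, map_intCast, h3] at h4
      exact lt_irrefl _ h4
    obtain ⟨c, rfl⟩ := hpm
    refine ⟨(c : Localization.AtPrime (placeIdeal W)), ?_⟩
    simp
  have h3 := h2 hxmem
  rw [Ideal.mem_span_singleton] at h3
  obtain ⟨z, hz⟩ := h3
  obtain ⟨y, s, rfl⟩ := IsLocalization.exists_mk'_eq (placeIdeal W).primeCompl z
  refine ⟨s, y, s.2, ?_⟩
  have hinj := IsLocalization.injective (Localization.AtPrime (placeIdeal W))
    (placeIdeal W).primeCompl_le_nonZeroDivisors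
  apply hinj
  rw [map_mul, map_mul, hz]
  have h4 := IsLocalization.mk'_spec' (Localization.AtPrime (placeIdeal W)) y s
  rw [mul_left_comm, h4]

theorem val_pow_of_unram_int (W : ValuationSubring (AlgebraicClosure K)) {p : ℕ} (hp : p.Prime)
    (hW : W.valuation (p : AlgebraicClosure K) < 1) (hd : ¬ (p : ℤ) ∣ discr K) (n : ℕ) :
    ∀ x : 𝓞 K, W.valuation (p : AlgebraicClosure K) ^ n ≤
      W.valuation (algebraMap K (AlgebraicClosure K) (x : K)) →
      ∃ k : ℕ, W.valuation (algebraMap K (AlgebraicClosure K) (x : K)) =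
        W.valuation (p : AlgebraicClosure K) ^ k := by
  have hp0 : 0 < W.valuation (p : AlgebraicClosure K) := by
    rw [zero_lt_iff, Ne, map_eq_zero]; exact_mod_cast hp.ne_zero
  induction n with
  | zero =>
    intro x hx
    rw [pow_zero] at hx
    exact ⟨0, by rw [pow_zero]; exact le_antisymm (val_ringOfIntegers W x) hx⟩
  | succ n ih =>
    intro x hx
    rcases (val_ringOfIntegers W x).lt_or_eq with h | h
    · obtain ⟨s, y, hs, hsy⟩ := exists_mul_eq W hp hW hd x h
      have hs1 : W.valuation (algebraMap K (AlgebraicClosure K) (s : K)) = 1 := by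
        rw [mem_placeIdeal, not_lt] at hs
        exact le_antisymm (val_ringOfIntegers W s) hs
      have h1 : (s : K) * (x : K) = (p : K) * (y : K) := by
        have := congrArg (fun z : 𝓞 K => (z : K)) hsy
        simpa using this
      have h2 := congrArg (fun z : K => W.valuation (algebraMap K (AlgebraicClosure K) z)) h1
      simp only [map_mul, map_natCast] at h2
      rw [hs1, one_mul] at h2
      have h3 : W.valuation (p : AlgebraicClosure K) ^ n ≤
          W.valuation (algebraMap K (AlgebraicClosure K) (y : K)) := by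
        rw [h2, pow_succ'] at hx
        exact le_of_mul_le_mul_left hx hp0
      obtain ⟨k, hk⟩ := ih y h3
      exact ⟨k + 1, by rw [h2, hk, pow_succ']⟩
    · exact ⟨0, by rw [pow_zero]; exact h⟩

/-- above a prime not dividing the discriminant, the value group of `K` is generated by the value
of `p` -/
theorem val_pow_of_unram (W : ValuationSubring (AlgebraicClosure K)) {p : ℕ} (hp : p.Prime)
    (hW : W.valuation (p : AlgebraicClosure K) < 1) (hd : ¬ (p : ℤ) ∣ discr K) (z : K)
    (hz : z ≠ 0) : ∃ k : ℤ, W.valuation (algebraMap K (AlgebraicClosure K) z) =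
      W.valuation (p : AlgebraicClosure K) ^ k := by
  have hp0 : W.valuation (p : AlgebraicClosure K) ≠ 0 := by
    rw [Ne, map_eq_zero]; exact_mod_cast hp.ne_zero
  have hint : ∀ x : 𝓞 K, x ≠ 0 →
      ∃ k : ℕ, W.valuation (algebraMap K (AlgebraicClosure K) (x : K)) =
        W.valuation (p : AlgebraicClosure K) ^ k := by
    intro x hx
    -- `x` divides a nonzero integer
    obtain ⟨y, m, hm0, hym⟩ : ∃ y : 𝓞 K, ∃ m : ℕ, m ≠ 0 ∧ y * x = (m : 𝓞 K) := by
      have h1 := Ideal.absNorm_mem (Ideal.span {x})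
      rw [Ideal.mem_span_singleton] at h1
      obtain ⟨y, hy⟩ := h1
      refine ⟨y, Ideal.absNorm (Ideal.span {x}), ?_, by rw [hy, mul_comm]⟩
      rw [Ne, Ideal.absNorm_eq_zero_iff, Ideal.span_singleton_eq_bot]
      exact hx
    obtain ⟨k, hk⟩ := val_nat_pow W.valuation hp hW hm0
    refine val_pow_of_unram_int W hp hW hd k x ?_
    rw [← hk]
    have h1 := congrArg (fun z : 𝓞 K => W.valuation (algebraMap K (AlgebraicClosure K) (z : K))) hym
    have e1 : ((y * x : 𝓞 K) : K) = (y : K) * (x : K) := rfl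
    simp only [e1, map_mul, map_natCast] at h1
    rw [← h1]
    calc _ ≤ 1 * W.valuation (algebraMap K (AlgebraicClosure K) (x : K)) :=
          mul_le_mul' (val_ringOfIntegers W y) le_rfl
      _ = _ := one_mul _
  obtain ⟨a, b, hb, hab⟩ := IsFractionRing.div_surjective (A := 𝓞 K) z
  have hb0 : b ≠ 0 := nonZeroDivisors.ne_zero hb
  have ha0 : a ≠ 0 := by
    rintro rfl
    apply hz
    rw [← hab, map_zero, zero_div]
  obtain ⟨k, hk⟩ := hint a ha0
  obtain ⟨l, hl⟩ := hint b hb0
  refine ⟨(k : ℤ) - l, ?_⟩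
  rw [← hab, map_div₀, map_div₀]
  have e1 : algebraMap (𝓞 K) K a = (a : K) := rfl
  have e2 : algebraMap (𝓞 K) K b = (b : K) := rfl
  rw [e1, e2, hk, hl, zpow_sub₀ hp0, zpow_natCast, zpow_natCast]

end

end Pool.Agent.H.MP_0e6b5f_nt.H52
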